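import Mathlib

namespace Pool.Agent.helper2.MorseIG

/-- Letters. -/
inductive L | a | x | y | b
  deriving DecidableEq

open L

/-- Self-similarity data. -/
structure SS (Γ X : Type) [Group Γ] where
  φ : Γ →* Equiv.Perm X
  inj : Function.Injective φ
  ne : Nonempty X
  τ : Bool → X → X
  τinj : ∀ i j p q, τ i p = τ j q → i = j ∧ p = q
  τcov : ∀ p, ∃ i q, τ i q = p
  a : Γ
  x : Γ
  y : Γ
  gen : Subgroup.closure ({a, x, y} : Set Γ) = ⊤
  aa : a * a = 1
  xx : x * x = 1
  yy : y * y = 1
  xy : x * y = y * x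
  ha : ∀ i p, φ a (τ i p) = τ (!i) p
  hx0 : ∀ p, φ x (τ false p) = τ false (φ y p)
  hx1 : ∀ p, φ x (τ true p) = τ true (φ a p)
  hy0 : ∀ p, φ y (τ false p) = τ false (φ x p)
  hy1 : ∀ p, φ y (τ true p) = τ true p

def wl : L → ℕ
  | .a => 2 | .x => 2 | .y => 1 | .b => 2

def wt (w : List L) : ℕ := (w.map wl).sum

@[simp] lemma wt_nil : wt [] = 0 := rfl
@[simp] lemma wt_cons (l : L) (w : List L) : wt (l :: w) = wl l + wt w := by simp [wt]
@[simp] lemma wt_append (u v : List L) : wt (u ++ v) = wt u + wt v := by simp [wt]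

def sw : L → Bool
  | .a => true | _ => false

def sc : L → Bool → List L
  | .a, _ => []
  | .x, false => [.y] | .x, true => [.a]
  | .y, false => [.x] | .y, true => []
  | .b, false => [.b] | .b, true => [.a]

def swp : List L → Bool
  | [] => false
  | l :: w => xor (sw l) (swp w)

def sec : List L → Bool → List L
  | [], _ => []
  | l :: w, i => sc l (xor i (swp w)) ++ sec w i

/-- number of letters `x`, `y` (non-`a`, non-`b`) -/
def nb : List L → ℕ
  | [] => 0
  | l :: w => (match l with | .x => 1 | .y => 1 | _ => 0) + nb w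

/-- adjacent letters alternate between `a` and non-`a` -/
def alt : List L → Prop
  | [] => True
  | l :: w => (∀ l' ∈ w.head?, sw l ≠ sw l') ∧ alt w

/-- count of `a` and non-`a` -/
def ca : List L → ℕ
  | [] => 0
  | l :: w => (if sw l then 1 else 0) + ca w
def cn : List L → ℕ
  | [] => 0
  | l :: w => (if sw l then 0 else 1) + cn w

lemma alt_count (w : List L) (h : alt w) :
    cn w ≤ ca w + (if (w.head?.map sw) = some false then 1 else 0) := by
  induction w with
  | nil => simp [cn, ca]
  | cons l w ih =>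
    obtain ⟨h1, h2⟩ := h
    have ih := ih h2
    cases w with
    | nil => cases l <;> simp [cn, ca, sw]
    | cons l' w' =>
      have h1' := h1 l' (by simp)
      revert ih h1'
      cases l <;> cases l' <;> simp [cn, ca, sw] <;> omega

lemma wt_sec (w : List L) :
    wt (sec w false) + wt (sec w true) + nb w + 2 * ca w = wt w + 2 * cn w := by
  induction w with
  | nil => simp [sec, nb, ca, cn]
  | cons l w ih =>
    cases h : swp w <;> cases l <;> simp [sec, nb, ca, cn, sc, sw, wl, h] <;> omega

lemma wt_sec_alt (w : List L) (h : alt w) :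
    wt (sec w false) + wt (sec w true) + nb w ≤ wt w + 2 := by
  have h1 := wt_sec w
  have h2 := alt_count w h
  split_ifs at h2 <;> omega

/-- merge two letters of the same kind -/
def mrg : L → L → List L
  | .a, .a => []
  | .x, .x => []
  | .y, .y => []
  | .b, .b => []
  | .x, .y => [.b]
  | .y, .x => [.b]
  | .x, .b => [.y]
  | .b, .x => [.y]
  | .y, .b => [.x]
  | .b, .y => [.x]
  | l, l' => [l, l']

def push (l : L) : List L → List L
  | [] => [l]
  | l' :: w => mrg l l' ++ w

def nf : List L → List L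
  | [] => []
  | l :: w => push l (nf w)

lemma push_wt (l : L) (w : List L) : wt (push l w) ≤ wl l + wt w := by
  cases w with
  | nil => simp [push]
  | cons l' w => cases l <;> cases l' <;> simp [push, mrg, wl] <;> omega

lemma push_alt (l : L) (w : List L) (h : alt w) : alt (push l w) := by
  cases w with
  | nil => simp [push, alt]
  | cons l' w =>
    obtain ⟨h1, h2⟩ := h
    cases l <;> cases l' <;> simp [push, mrg, alt, sw] at h1 ⊢ <;> simp_all

lemma nf_wt (w : List L) : wt (nf w) ≤ wt w := by
  induction w with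
  | nil => simp [nf]
  | cons l w ih =>
    simp only [nf, wt_cons]
    have := push_wt l (nf w)
    omega

lemma nf_alt (w : List L) : alt (nf w) := by
  induction w with
  | nil => simp [nf, alt]
  | cons l w ih => exact push_alt _ _ ih

namespace SS
variable {Γ X : Type} [Group Γ] (D : SS Γ X)

def e : L → Γ
  | .a => D.a | .x => D.x | .y => D.y | .b => D.x * D.y

def ev (w : List L) : Γ := (w.map D.e).prod

@[simp] lemma ev_nil : D.ev [] = 1 := rfl
@[simp] lemma ev_cons (l : L) (w : List L) : D.ev (l :: w) = D.e l * D.ev w := by simp [ev]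
@[simp] lemma ev_append (u v : List L) : D.ev (u ++ v) = D.ev u * D.ev v := by simp [ev]

lemma e_sec (l : L) (i : Bool) (p : X) :
    D.φ (D.e l) (D.τ i p) = D.τ (xor i (sw l)) (D.φ (D.ev (sc l i)) p) := by
  cases l <;> cases i <;>
    simp [e, sw, sc, D.ha, D.hx0, D.hx1, D.hy0, D.hy1, ev]
  rw [← Equiv.Perm.mul_apply, ← map_mul, ← D.xy, map_mul, Equiv.Perm.mul_apply]

lemma ev_sec (w : List L) (i : Bool) (p : X) :
    D.φ (D.ev w) (D.τ i p) = D.τ (xor i (swp w)) (D.φ (D.ev (sec w i)) p) := by
  induction w with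
  | nil => simp [swp, sec]
  | cons l w ih =>
    simp only [ev_cons, map_mul, Equiv.Perm.mul_apply, swp, sec, ev_append]
    rw [ih, D.e_sec]
    congr 1
    cases i <;> cases sw l <;> cases swp w <;> rfl

lemma mrg_ev (l l' : L) : D.ev (mrg l l') = D.e l * D.e l' := by
  have xx := D.xx
  have yy := D.yy
  have aa := D.aa
  have xy := D.xy
  cases l <;> cases l' <;> simp [mrg, e, D.aa, D.xx, D.yy, ev]
  · rw [← mul_assoc, xx, one_mul]
  · exact xy
  · rw [xy, ← mul_assoc, yy, one_mul]
  · rw [xy, mul_assoc, xx, mul_one]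
  · rw [mul_assoc, yy, mul_one]
  · rw [mul_assoc D.x D.y, ← mul_assoc D.y D.x D.y, ← xy, mul_assoc D.x D.y D.y, yy, mul_one, xx]

lemma push_ev (l : L) (w : List L) : D.ev (push l w) = D.e l * D.ev w := by
  cases w with
  | nil => simp [push]
  | cons l' w => simp [push, D.mrg_ev, mul_assoc]

lemma nf_ev (w : List L) : D.ev (nf w) = D.ev w := by
  induction w with
  | nil => simp [nf]
  | cons l w ih => simp [nf, D.push_ev, ih]

lemma e_inv (l : L) : (D.e l)⁻¹ = D.e l := by
  have xx := D.xx
  have yy := D.yy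
  have aa := D.aa
  have xy := D.xy
  apply inv_eq_of_mul_eq_one_left
  cases l
  · exact aa
  · exact xx
  · exact yy
  · simp only [e]
    rw [mul_assoc D.x D.y, ← mul_assoc D.y D.x D.y, ← xy, mul_assoc D.x D.y D.y, yy, mul_one, xx]

lemma ev_reverse (w : List L) : D.ev w.reverse = (D.ev w)⁻¹ := by
  induction w with
  | nil => simp
  | cons l w ih => simp [ih, D.e_inv]

lemma ev_surj (g : Γ) : ∃ w, D.ev w = g := by
  have hg : g ∈ Subgroup.closure ({D.a, D.x, D.y} : Set Γ) := by rw [D.gen]; trivial
  induction hg using Subgroup.closure_induction with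
  | mem z hz =>
    simp only [Set.mem_insert_iff, Set.mem_singleton_iff] at hz
    rcases hz with h | h | h
    · exact ⟨[.a], by simp [e, h]⟩
    · exact ⟨[.x], by simp [e, h]⟩
    · exact ⟨[.y], by simp [e, h]⟩
  | one => exact ⟨[], rfl⟩
  | mul u v _ _ hu hv =>
    obtain ⟨wu, rfl⟩ := hu
    obtain ⟨wv, rfl⟩ := hv
    exact ⟨wu ++ wv, by simp⟩
  | inv u _ hu =>
    obtain ⟨w, rfl⟩ := hu
    exact ⟨w.reverse, D.ev_reverse w⟩

end SS
end Pool.Agent.helper2.MorseIG
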