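import Mathlib
import Pool.Agent.helper2.Morse1

namespace Pool.Agent.helper2.MorseIG

open L

/-- alternating lists of length `m`; the flag says whether the head is `a` -/
def AL : ℕ → Bool → List (List L)
  | 0, _ => [[]]
  | m + 1, true => (AL m false).map (fun w => a :: w)
  | m + 1, false => (AL m true).map (fun w => x :: w) ++ (AL m true).map (fun w => y :: w) ++
      (AL m true).map (fun w => b :: w)

lemma mem_AL (w : List L) (h : alt w) (s : Bool) (hs : ∀ l ∈ w.head?, sw l = s) :
    w ∈ AL w.length s := by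
  induction w generalizing s with
  | nil => simp [AL]
  | cons l w ih =>
    obtain ⟨h1, h2⟩ := h
    have hs' := hs l (by simp)
    have ih' := ih h2 (!s) (by
      intro l' hl'
      have := h1 l' hl'
      rw [hs'] at this
      cases s <;> cases h : sw l' <;> simp_all)
    cases l <;> cases s <;> simp_all [AL, sw]

lemma sum_AL (t : ℝ) (ht : 0 ≤ t) (m : ℕ) (s : Bool) :
    ((AL m s).map (fun w => t ^ nb w)).sum ≤ (1 + 2 * t) ^ m := by
  induction m generalizing s with
  | zero => simp [AL, nb]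
  | succ m ih =>
    cases s with
    | true =>
      have h1 : ((AL (m + 1) true).map (fun w => t ^ nb w)).sum
          = ((AL m false).map (fun w => t ^ nb w)).sum := by
        simp [AL, nb, Function.comp_def]
      rw [h1]
      refine (ih false).trans ?_
      rw [pow_succ]
      have : (0 : ℝ) ≤ (1 + 2 * t) ^ m := by positivity
      nlinarith
    | false =>
      have h1 : ((AL (m + 1) false).map (fun w => t ^ nb w)).sum
          = (1 + 2 * t) * ((AL m true).map (fun w => t ^ nb w)).sum := by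
        simp [AL, nb, Function.comp_def, pow_add, List.sum_map_mul_left]
        ring
      rw [h1, pow_succ, mul_comm]
      exact mul_le_mul_of_nonneg_right (ih true) (by positivity)

lemma filter_count (t : ℝ) (ht : 0 < t) (ht1 : t ≤ 1) (k : ℕ) (l : List (List L)) :
    ((l.filter (fun w => nb w ≤ k)).length : ℝ) * t ^ k ≤ (l.map (fun w => t ^ nb w)).sum := by
  induction l with
  | nil => simp
  | cons w l ih =>
    by_cases h : nb w ≤ k
    · have h3 : t ^ k ≤ t ^ nb w := pow_le_pow_of_le_one ht.le ht1 h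
      simp only [List.filter_cons, h, decide_true, if_true, List.length_cons, List.map_cons, List.sum_cons]
      push_cast
      linarith
    · have h3 : 0 < t ^ nb w := by positivity
      simp only [List.filter_cons, h, decide_false, List.map_cons, List.sum_cons]
      simp only [Bool.false_eq_true, if_false]
      linarith

/-- all alternating words of length at most `n` -/
def AW (n : ℕ) : List (List L) :=
  (List.range (n + 1)).flatMap (fun m => AL m true ++ AL m false)

lemma mem_AW (w : List L) (h : alt w) (n : ℕ) (hn : w.length ≤ n) : w ∈ AW n := by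
  unfold AW
  rw [List.mem_flatMap]
  refine ⟨w.length, by simp; omega, ?_⟩
  rw [List.mem_append]
  cases hw : w.head? with
  | none => left; apply mem_AL w h; simp [hw]
  | some l =>
    cases hl : sw l with
    | true => left; apply mem_AL w h; simp [hw, hl]
    | false => right; apply mem_AL w h; simp [hw, hl]

lemma sum_AW (t : ℝ) (ht : 0 ≤ t) (n : ℕ) :
    ((AW n).map (fun w => t ^ nb w)).sum ≤ 2 * (n + 1) * (1 + 2 * t) ^ n := by
  have key : ∀ N : ℕ, N ≤ n + 1 → (((List.range N).flatMap (fun m => AL m true ++ AL m false)).map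
      (fun w => t ^ nb w)).sum ≤ 2 * N * (1 + 2 * t) ^ n := by
    intro N
    induction N with
    | zero => simp
    | succ N ih =>
      intro hN
      have ih := ih (by omega)
      rw [List.range_succ, List.flatMap_append, List.map_append, List.sum_append]
      have h1 := sum_AL t ht N true
      have h2 := sum_AL t ht N false
      have h3 : (1 + 2 * t) ^ N ≤ (1 + 2 * t) ^ n :=
        pow_le_pow_right₀ (by linarith) (by omega)
      simp only [List.flatMap_cons, List.flatMap_nil, List.append_nil, List.map_append,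
        List.sum_append]
      push_cast
      nlinarith
  have := key (n + 1) le_rfl
  unfold AW
  push_cast at this
  exact this

lemma length_le_wt (w : List L) : w.length ≤ wt w := by
  induction w with
  | nil => simp
  | cons l w ih =>
    have : 1 ≤ wl l := by cases l <;> simp [wl]
    simp only [List.length_cons, wt_cons]
    omega

instance : Fintype L := ⟨{a, x, y, b}, by intro l; cases l <;> simp⟩

namespace SS
variable {Γ X : Type} [Group Γ] (D : SS Γ X)

/-- weighted ball -/
def B (n : ℕ) : Set Γ := {g | ∃ w, wt w ≤ n ∧ D.ev w = g}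

lemma B_finite (n : ℕ) : (D.B n).Finite := by
  apply Set.Finite.subset ((List.finite_length_le L n).image D.ev)
  rintro g ⟨w, hw, rfl⟩
  exact ⟨w, by simpa using (length_le_wt w).trans hw, rfl⟩

noncomputable def γ (n : ℕ) : ℕ := (D.B n).ncard

lemma τ_inj (i : Bool) : Function.Injective (D.τ i) := fun p q h => (D.τinj i i p q h).2

lemma swp_unique (w w' : List L) (h : D.ev w = D.ev w') : swp w = swp w' := by
  obtain ⟨p⟩ := D.ne
  have h1 := D.ev_sec w false p
  rw [h, D.ev_sec w' false p] at h1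
  have := (D.τinj _ _ _ _ h1).1
  simpa using this.symm

lemma sec_unique (w w' : List L) (h : D.ev w = D.ev w') (i : Bool) :
    D.ev (sec w i) = D.ev (sec w' i) := by
  apply D.inj
  ext p
  have h1 := D.ev_sec w i p
  rw [h, D.ev_sec w' i p] at h1
  exact (D.τinj _ _ _ _ h1).2.symm

lemma det_unique (w w' : List L) (h0 : swp w = swp w')
    (h : ∀ i, D.ev (sec w i) = D.ev (sec w' i)) : D.ev w = D.ev w' := by
  apply D.inj
  ext p
  obtain ⟨i, q, rfl⟩ := D.τcov p
  rw [D.ev_sec, D.ev_sec, h0, h i]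

/-- chosen word -/
noncomputable def cw (g : Γ) : List L := (D.ev_surj g).choose
lemma cw_spec (g : Γ) : D.ev (D.cw g) = g := (D.ev_surj g).choose_spec

noncomputable def F (g : Γ) : Bool × Γ × Γ :=
  (swp (D.cw g), D.ev (sec (D.cw g) false), D.ev (sec (D.cw g) true))

lemma F_ev (w : List L) : D.F (D.ev w) = (swp w, D.ev (sec w false), D.ev (sec w true)) := by
  have h := D.cw_spec (D.ev w)
  unfold F
  rw [D.swp_unique _ _ h, D.sec_unique _ _ h false, D.sec_unique _ _ h true]

lemma F_inj : Function.Injective D.F := by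
  intro g g' h
  obtain ⟨w, rfl⟩ := D.ev_surj g
  obtain ⟨w', rfl⟩ := D.ev_surj g'
  rw [F_ev, F_ev] at h
  simp only [Prod.mk.injEq] at h
  exact D.det_unique w w' h.1 (by intro i; cases i; exact h.2.1; exact h.2.2)

open Classical in
lemma count_sections (n k : ℕ) (hk : k ≤ n + 2) :
    {g | ∃ w, wt w ≤ n ∧ alt w ∧ k ≤ nb w ∧ D.ev w = g}.ncard
      ≤ ∑ i ∈ Finset.range (n + 2 - k + 1), 2 * (D.γ i * D.γ (n + 2 - k - i)) := by
  set N := n + 2 - k with hN
  set T : Finset (Bool × Γ × Γ) := (Finset.range (N + 1)).biUnion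
    (fun i => (Finset.univ : Finset Bool) ×ˢ ((D.B_finite i).toFinset ×ˢ
      (D.B_finite (N - i)).toFinset)) with hT
  have h1 : {g | ∃ w, wt w ≤ n ∧ alt w ∧ k ≤ nb w ∧ D.ev w = g}.ncard ≤ (T : Set (Bool × Γ × Γ)).ncard := by
    apply Set.ncard_le_ncard_of_injOn D.F _ (D.F_inj.injOn) (Finset.finite_toSet T)
    rintro g ⟨w, hw, ha, hk', rfl⟩
    rw [F_ev]
    have h2 := wt_sec_alt w ha
    simp only [hT, Finset.coe_biUnion, Set.mem_iUnion, Finset.mem_coe, Finset.mem_range,
      Finset.mem_product, Finset.mem_univ, true_and, Set.Finite.mem_toFinset, exists_prop]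
    exact ⟨wt (sec w false), by omega, ⟨_, le_rfl, rfl⟩, ⟨_, by omega, rfl⟩⟩
  refine h1.trans ?_
  rw [Set.ncard_coe_finset, hT]
  refine Finset.card_biUnion_le.trans ?_
  apply Finset.sum_le_sum
  intro i _
  rw [Finset.card_product, Finset.card_product]
  simp only [Finset.card_univ, Fintype.card_bool]
  rw [← Set.ncard_eq_toFinset_card _ (D.B_finite i),
    ← Set.ncard_eq_toFinset_card _ (D.B_finite (N - i))]
  rfl

open Classical in
lemma count_words (n k : ℕ) (t : ℝ) (ht : 0 < t) (ht1 : t ≤ 1) :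
    ({g | ∃ w, wt w ≤ n ∧ alt w ∧ nb w ≤ k ∧ D.ev w = g}.ncard : ℝ)
      ≤ 2 * (n + 1) * (1 + 2 * t) ^ n / t ^ k := by
  rw [le_div_iff₀ (by positivity)]
  refine le_trans ?_ (sum_AW t ht.le n)
  refine le_trans ?_ (filter_count t ht ht1 k (AW n))
  apply mul_le_mul_of_nonneg_right _ (by positivity)
  norm_cast
  set l := (AW n).filter (fun w => nb w ≤ k) with hl
  have h1 : {g | ∃ w, wt w ≤ n ∧ alt w ∧ nb w ≤ k ∧ D.ev w = g} ⊆
      (((l.map D.ev).toFinset : Finset Γ) : Set Γ) := by
    rintro g ⟨w, hw, ha, hk', rfl⟩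
    simp only [List.coe_toFinset, Set.mem_ofPred_eq, List.mem_map]
    refine ⟨w, ?_, rfl⟩
    rw [hl, List.mem_filter]
    exact ⟨mem_AW w ha n ((length_le_wt w).trans hw), by simpa using hk'⟩
  refine (Set.ncard_le_ncard h1 (Finset.finite_toSet _)).trans ?_
  rw [Set.ncard_coe_finset]
  refine (List.toFinset_card_le _).trans ?_
  simp

lemma count_main (n k : ℕ) (hk : k ≤ n + 2) (t : ℝ) (ht : 0 < t) (ht1 : t ≤ 1) :
    (D.γ n : ℝ) ≤ 2 * (n + 1) * (1 + 2 * t) ^ n / t ^ k
      + ∑ i ∈ Finset.range (n + 2 - k + 1), 2 * ((D.γ i : ℝ) * D.γ (n + 2 - k - i)) := by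
  have h1 := D.count_words n k t ht ht1
  have h2 := D.count_sections n k hk
  have h3 : (D.γ n) ≤ {g | ∃ w, wt w ≤ n ∧ alt w ∧ nb w ≤ k ∧ D.ev w = g}.ncard +
      {g | ∃ w, wt w ≤ n ∧ alt w ∧ k ≤ nb w ∧ D.ev w = g}.ncard := by
    unfold γ
    refine le_trans ?_ (Set.ncard_union_le _ _)
    apply Set.ncard_le_ncard
    · rintro g ⟨w, hw, rfl⟩
      have hw' := (nf_wt w).trans hw
      rcases le_total (nb (nf w)) k with h | h
      · left; exact ⟨nf w, hw', nf_alt w, h, D.nf_ev w⟩
      · right; exact ⟨nf w, hw', nf_alt w, h, D.nf_ev w⟩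
    · apply (D.B_finite n).subset
      rintro g (⟨w, hw, _, _, rfl⟩ | ⟨w, hw, _, _, rfl⟩)
      · exact ⟨w, hw, rfl⟩
      · exact ⟨w, hw, rfl⟩
  have h4 : ((D.γ n : ℕ) : ℝ) ≤ ({g | ∃ w, wt w ≤ n ∧ alt w ∧ nb w ≤ k ∧ D.ev w = g}.ncard : ℝ) +
      ({g | ∃ w, wt w ≤ n ∧ alt w ∧ k ≤ nb w ∧ D.ev w = g}.ncard : ℝ) := by exact_mod_cast h3
  have h5 : ({g | ∃ w, wt w ≤ n ∧ alt w ∧ k ≤ nb w ∧ D.ev w = g}.ncard : ℝ) ≤
      ∑ i ∈ Finset.range (n + 2 - k + 1), 2 * ((D.γ i : ℝ) * D.γ (n + 2 - k - i)) := by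
    exact_mod_cast h2
  linarith

end SS
end Pool.Agent.helper2.MorseIG
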