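import Mathlib

namespace Pool.Agent.helper2.MorseIG

open Filter Topology

lemma subexp_aux (γ : ℕ → ℝ) (h0 : ∀ n, 0 ≤ γ n) (K0 c0 : ℝ) (hc0 : 1 ≤ c0)
    (hexp : ∀ n, γ n ≤ K0 * c0 ^ n)
    (hmain : ∀ n k : ℕ, k ≤ n + 2 → ∀ t : ℝ, 0 < t → t ≤ 1 →
      γ n ≤ 2 * (n + 1) * (1 + 2 * t) ^ n / t ^ k
        + ∑ i ∈ Finset.range (n + 2 - k + 1), 2 * (γ i * γ (n + 2 - k - i))) :
    ∀ c : ℝ, 1 < c → ∃ K : ℝ, ∀ n, γ n ≤ K * c ^ n := by
  intro c hc
  by_contra hcon
  set S : Set ℝ := {c | 1 ≤ c ∧ ∃ K, ∀ n, γ n ≤ K * c ^ n} with hS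
  have hmono : ∀ u v : ℝ, u ∈ S → u ≤ v → v ∈ S := by
    rintro u v ⟨hu, K, hK⟩ huv
    refine ⟨hu.trans huv, K, fun n => ?_⟩
    have hK0 : 0 ≤ K := by
      have := (h0 0).trans (hK 0)
      simpa using this
    exact (hK n).trans (mul_le_mul_of_nonneg_left (pow_le_pow_left₀ (by linarith) huv n) hK0)
  have hne : S.Nonempty := ⟨c0, hc0, K0, hexp⟩
  have hbdd : BddBelow S := ⟨1, fun u hu => hu.1⟩
  set Λ := sInf S with hΛ
  have hcΛ : c ≤ Λ := by
    apply le_csInf hne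
    intro u hu
    by_contra hlt
    push Not at hlt
    exact hcon (hmono u c hu hlt.le).2
  have hΛ1 : 1 < Λ := hc.trans_le hcΛ
  -- choose μ, t, M
  obtain ⟨μ, hμ1, hμΛ⟩ := exists_between hΛ1
  obtain ⟨t, ht0, ht1, htμ⟩ : ∃ t : ℝ, 0 < t ∧ t ≤ 1 ∧ 1 + 2 * t < μ := by
    refine ⟨min 1 ((μ - 1) / 4), lt_min one_pos (by linarith), min_le_left _ _, ?_⟩
    have := min_le_right 1 ((μ - 1) / 4)
    linarith
  obtain ⟨M, hM1, hM⟩ : ∃ M : ℕ, 2 ≤ M ∧ (1 + 2 * t) ^ M / t ≤ μ ^ M := by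
    have h1 : Tendsto (fun M : ℕ => (μ / (1 + 2 * t)) ^ M) atTop atTop := by
      apply tendsto_pow_atTop_atTop_of_one_lt
      rw [lt_div_iff₀ (by linarith)]
      linarith
    obtain ⟨M, hM⟩ := ((h1.eventually_ge_atTop (1 / t)).and (eventually_ge_atTop 2)).exists
    refine ⟨M, hM.2, ?_⟩
    have h2 := hM.1
    rw [div_pow, le_div_iff₀ (by positivity)] at h2
    calc (1 + 2 * t) ^ M / t = 1 / t * (1 + 2 * t) ^ M := by ring
      _ ≤ μ ^ M := h2
  -- choose ε
  obtain ⟨ε, hε0, hε1, hε⟩ : ∃ ε : ℝ, 0 < ε ∧ 1 < Λ - ε ∧ (Λ + ε) ^ (M - 1) < (Λ - ε) ^ M := by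
    have hc1 : Tendsto (fun ε : ℝ => (Λ + ε) ^ (M - 1)) (𝓝[>] 0) (𝓝 (Λ ^ (M - 1))) := by
      have : Continuous (fun ε : ℝ => (Λ + ε) ^ (M - 1)) := by fun_prop
      have h := this.tendsto 0
      simp only [add_zero] at h
      exact h.mono_left nhdsWithin_le_nhds
    have hc2 : Tendsto (fun ε : ℝ => (Λ - ε) ^ M) (𝓝[>] 0) (𝓝 (Λ ^ M)) := by
      have : Continuous (fun ε : ℝ => (Λ - ε) ^ M) := by fun_prop
      have h := this.tendsto 0
      simp only [sub_zero] at h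
      exact h.mono_left nhdsWithin_le_nhds
    have hc3 : Tendsto (fun ε : ℝ => (Λ - ε)) (𝓝[>] 0) (𝓝 Λ) := by
      have : Continuous (fun ε : ℝ => (Λ - ε)) := by fun_prop
      have h := this.tendsto 0
      simp only [sub_zero] at h
      exact h.mono_left nhdsWithin_le_nhds
    have hlt : Λ ^ (M - 1) < Λ ^ M := pow_lt_pow_right₀ hΛ1 (by omega)
    have e1 := hc1.eventually_lt hc2 hlt
    have e2 := hc3.eventually (lt_mem_nhds hΛ1)
    have e3 : ∀ᶠ ε : ℝ in 𝓝[>] 0, 0 < ε := self_mem_nhdsWithin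
    obtain ⟨ε, h⟩ := ((e1.and e2).and e3).exists
    exact ⟨ε, h.2, h.1.2, h.1.1⟩
  have hcS : Λ + ε ∈ S := by
    obtain ⟨u, hu, hu'⟩ := exists_lt_of_csInf_lt hne (show sInf S < Λ + ε by rw [← hΛ]; linarith)
    exact hmono u _ hu hu'.le
  obtain ⟨_, K, hK⟩ := hcS
  have hK0 : 0 ≤ K := by
    have := (h0 0).trans (hK 0)
    simpa using this
  set d := Λ + ε with hd
  set ν := Λ - ε with hν
  have hd1 : 1 ≤ d := by rw [hd]; linarith
  -- main bound
  have hbound : ∀ n : ℕ, γ n ≤ 2 * (n + 1) * μ ^ n + 2 * (n + 3) * K ^ 2 * (ν ^ n * d ^ (M + 2)) := by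
    intro n
    set k := n / M with hk
    set r := n % M with hr
    have hnk : n = M * k + r := by rw [hk, hr]; exact (Nat.div_add_mod n M).symm
    have hrM : r < M := Nat.mod_lt _ (by omega)
    have hkn : k ≤ n := Nat.div_le_self _ _
    refine (hmain n k (by omega) t ht0 ht1).trans ?_
    apply add_le_add
    · have h1 : (1 + 2 * t) ^ n / t ^ k ≤ μ ^ n := by
        calc (1 + 2 * t) ^ n / t ^ k = ((1 + 2 * t) ^ M / t) ^ k * (1 + 2 * t) ^ r := by
              rw [div_pow, ← pow_mul, hnk, pow_add]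
              ring
          _ ≤ (μ ^ M) ^ k * μ ^ r := by
              apply mul_le_mul
              · exact pow_le_pow_left₀ (by positivity) hM k
              · exact pow_le_pow_left₀ (by positivity) htμ.le r
              · positivity
              · positivity
          _ = μ ^ n := by rw [← pow_mul, ← pow_add, ← hnk]
      calc 2 * ((n : ℝ) + 1) * (1 + 2 * t) ^ n / t ^ k = 2 * ((n : ℝ) + 1) * ((1 + 2 * t) ^ n / t ^ k) := by
            ring
        _ ≤ _ := by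
            apply mul_le_mul_of_nonneg_left h1 (by positivity)
    · have h2 : ∀ i ∈ Finset.range (n + 2 - k + 1), 2 * (γ i * γ (n + 2 - k - i))
          ≤ 2 * K ^ 2 * (ν ^ n * d ^ (M + 2)) := by
        intro i hi
        rw [Finset.mem_range] at hi
        have h3 : γ i * γ (n + 2 - k - i) ≤ (K * d ^ i) * (K * d ^ (n + 2 - k - i)) :=
          mul_le_mul (hK i) (hK _) (h0 _) (by positivity)
        have h4 : (K * d ^ i) * (K * d ^ (n + 2 - k - i)) = K ^ 2 * d ^ (n + 2 - k) := by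
          have : i + (n + 2 - k - i) = n + 2 - k := by omega
          rw [← this, pow_add]
          simp only [this]
          ring
        have h5 : d ^ (n + 2 - k) ≤ ν ^ n * d ^ (M + 2) := by
          have e1 : n + 2 - k = (M - 1) * k + (r + 2) := by
            have : M * k = (M - 1) * k + k := by
              obtain ⟨m, rfl⟩ : ∃ m, M = m + 1 := ⟨M - 1, by omega⟩
              simp; ring
            omega
          rw [e1, pow_add, pow_mul]
          apply mul_le_mul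
          · calc (d ^ (M - 1)) ^ k ≤ (ν ^ M) ^ k := pow_le_pow_left₀ (by positivity) hε.le k
              _ = ν ^ (M * k) := by rw [pow_mul]
              _ ≤ ν ^ n := pow_le_pow_right₀ hε1.le (by omega)
          · exact pow_le_pow_right₀ hd1 (by omega)
          · positivity
          · have : 0 < ν := by linarith
            positivity
        have h6 : K ^ 2 * d ^ (n + 2 - k) ≤ K ^ 2 * (ν ^ n * d ^ (M + 2)) :=
          mul_le_mul_of_nonneg_left h5 (by positivity)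
        nlinarith [h3, h4, h6]
      refine (Finset.sum_le_sum h2).trans ?_
      rw [Finset.sum_const, Finset.card_range, nsmul_eq_mul]
      have hν0 : 0 < ν := by linarith
      have h7 : ((n + 2 - k + 1 : ℕ) : ℝ) ≤ n + 3 := by
        have : n + 2 - k + 1 ≤ n + 3 := by
          have := Nat.sub_le (n + 2) k
          omega
        exact_mod_cast this
      calc ((n + 2 - k + 1 : ℕ) : ℝ) * (2 * K ^ 2 * (ν ^ n * d ^ (M + 2)))
          ≤ (n + 3) * (2 * K ^ 2 * (ν ^ n * d ^ (M + 2))) :=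
            mul_le_mul_of_nonneg_right h7 (by positivity)
        _ = _ := by ring
  -- choose ρ
  set ρ := max μ ν with hρ
  have hρΛ : ρ < Λ := max_lt hμΛ (by rw [hν]; linarith)
  have hρ1 : 1 < ρ := hμ1.trans_le (le_max_left _ _)
  obtain ⟨ρ', hρρ', hρ'Λ⟩ := exists_between hρΛ
  set δ := ρ' / ρ - 1 with hδ
  have hδ0 : 0 < δ := by
    rw [hδ, sub_pos, lt_div_iff₀ (by linarith)]
    linarith
  have hρ'eq : ρ' = ρ * (1 + δ) := by
    rw [hδ]; field_simp; ring
  have hin : ρ' ∈ S := by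
    refine ⟨by linarith, (2 + 2 * K ^ 2 * d ^ (M + 2)) * (3 + 1 / δ), fun n => ?_⟩
    refine (hbound n).trans ?_
    have hμρ : μ ^ n ≤ ρ ^ n := pow_le_pow_left₀ (by linarith) (le_max_left _ _) n
    have hνρ : ν ^ n ≤ ρ ^ n := pow_le_pow_left₀ (by linarith) (le_max_right _ _) n
    have hn3 : (n : ℝ) + 3 ≤ (3 + 1 / δ) * (1 + δ) ^ n := by
      have h1 := one_add_mul_le_pow (show (-2 : ℝ) ≤ δ by linarith) n
      have h2 : (n : ℝ) ≤ 1 / δ * (1 + δ) ^ n := by
        rw [div_mul_eq_mul_div, one_mul, le_div_iff₀ hδ0]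
        linarith
      have h3 : (1 : ℝ) ≤ (1 + δ) ^ n := one_le_pow₀ (by linarith)
      nlinarith
    have e1 : 2 * ((n : ℝ) + 1) * μ ^ n ≤ 2 * ((3 + 1 / δ) * (1 + δ) ^ n) * ρ ^ n := by
      apply mul_le_mul _ hμρ (by positivity) (by positivity)
      linarith
    have e2 : 2 * ((n : ℝ) + 3) * K ^ 2 * (ν ^ n * d ^ (M + 2)) ≤
        2 * ((3 + 1 / δ) * (1 + δ) ^ n) * K ^ 2 * (ρ ^ n * d ^ (M + 2)) := by
      apply mul_le_mul
      · apply mul_le_mul_of_nonneg_right _ (by positivity)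
        linarith
      · exact mul_le_mul_of_nonneg_right hνρ (by positivity)
      · have : 0 < ν := by linarith
        positivity
      · positivity
    calc _ ≤ 2 * ((3 + 1 / δ) * (1 + δ) ^ n) * ρ ^ n +
          2 * ((3 + 1 / δ) * (1 + δ) ^ n) * K ^ 2 * (ρ ^ n * d ^ (M + 2)) := add_le_add e1 e2
      _ = (2 + 2 * K ^ 2 * d ^ (M + 2)) * (3 + 1 / δ) * (ρ * (1 + δ)) ^ n := by
          rw [mul_pow]; ring
      _ = _ := by rw [← hρ'eq]
  have := csInf_le hbdd hin
  rw [← hΛ] at this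
  linarith

end Pool.Agent.helper2.MorseIG
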