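import Mathlib
import Pool.Agent.helper2.Morse2
import Pool.Agent.helper2.Morse3

namespace Pool.Agent.helper2.MorseIG

open L Filter Topology

def th : L → List L
  | .a => [.a, .x, .a] | .x => [.y] | .y => [.x] | .b => [.b]

def thw : List L → List L
  | [] => []
  | l :: w => th l ++ thw w

def ds : L → List L
  | .a => [.y] | .x => [] | .y => [.a] | .b => [.a]

def dsw : List L → List L
  | [] => []
  | l :: w => ds l ++ dsw w

lemma swp_append (u w : List L) : swp (u ++ w) = xor (swp u) (swp w) := by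
  induction u with
  | nil => simp [swp]
  | cons l u ih => simp [swp, ih]

lemma sec_append (u w : List L) (i : Bool) :
    sec (u ++ w) i = sec u (xor i (swp w)) ++ sec w i := by
  induction u with
  | nil => simp [sec]
  | cons l u ih =>
    simp only [List.cons_append, sec, swp_append, ih, List.append_assoc]
    congr 2
    cases i <;> cases swp u <;> cases swp w <;> rfl

lemma swp_th (l : L) : swp (th l) = false := by cases l <;> rfl

lemma swp_thw (w : List L) : swp (thw w) = false := by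
  induction w with
  | nil => rfl
  | cons l w ih => simp [thw, swp_append, swp_th, ih]

lemma sec_thw_false (w : List L) : sec (thw w) false = w := by
  induction w with
  | nil => rfl
  | cons l w ih =>
    rw [thw, sec_append, swp_thw, ih]
    cases l <;> rfl

lemma sec_thw_true (w : List L) : sec (thw w) true = dsw w := by
  induction w with
  | nil => rfl
  | cons l w ih =>
    rw [thw, sec_append, swp_thw, ih, dsw]
    cases l <;> rfl

lemma wt_thw (w : List L) : wt (thw w) ≤ 3 * wt w := by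
  induction w with
  | nil => simp [thw]
  | cons l w ih =>
    simp only [thw, wt_append, wt_cons]
    cases l <;> simp [th, wl] <;> omega

def d8 : List (List L) := [[], [a], [y], [a, y], [y, a], [a, y, a], [y, a, y], [a, y, a, y]]

lemma wt_reverse (w : List L) : wt w.reverse = wt w := by
  simp [wt, List.sum_reverse]

namespace SS
variable {Γ X : Type} [Group Γ] (D : SS Γ X)

lemma γ_nonneg (n : ℕ) : (0 : ℝ) ≤ D.γ n := Nat.cast_nonneg _

lemma nb_le_wt (w : List L) : nb w ≤ wt w := by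
  induction w with
  | nil => simp [nb]
  | cons l w ih => cases l <;> simp [nb, wl] <;> omega

lemma γ_exp (n : ℕ) : (D.γ n : ℝ) ≤ 2 * 6 ^ n := by
  have h1 := D.count_words n n 1 one_pos le_rfl
  have h2 : {g | ∃ w, wt w ≤ n ∧ alt w ∧ nb w ≤ n ∧ D.ev w = g} = D.B n := by
    ext g
    constructor
    · rintro ⟨w, hw, _, _, rfl⟩; exact ⟨w, hw, rfl⟩
    · rintro ⟨w, hw, rfl⟩
      have h3 := (nf_wt w).trans hw
      exact ⟨nf w, h3, nf_alt w, (nb_le_wt _).trans h3, D.nf_ev w⟩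
  rw [h2] at h1
  refine h1.trans ?_
  have h4 : ((n : ℝ) + 1) ≤ 2 ^ n := by
    exact_mod_cast Nat.lt_two_pow_self
  have h5 : (6 : ℝ) ^ n = 2 ^ n * 3 ^ n := by rw [← mul_pow]; norm_num
  rw [h5]
  have h6 : (0 : ℝ) < 3 ^ n := by positivity
  norm_num
  nlinarith

lemma γ_subexp (c : ℝ) (hc : 1 < c) : ∃ K : ℝ, ∀ n, (D.γ n : ℝ) ≤ K * c ^ n :=
  subexp_aux (fun n => (D.γ n : ℝ)) D.γ_nonneg 2 6 (by norm_num) D.γ_exp
    (fun n k hk t ht ht1 => D.count_main n k hk t ht ht1) c hc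

lemma ayay : D.ev [L.a, L.y, L.a, L.y] = D.ev [L.y, L.a, L.y, L.a] := by
  apply D.det_unique
  · rfl
  · intro i; cases i <;> rfl

lemma d8_mul (l : L) (hl : l = L.a ∨ l = L.y) (v : List L) (hv : v ∈ d8) :
    ∃ v' ∈ d8, D.e l * D.ev v = D.ev v' := by
  have aa : D.e L.a * D.e L.a = 1 := D.aa
  have yy : D.e L.y * D.e L.y = 1 := D.yy
  have e1 := D.ayay
  simp only [ev_cons, ev_nil, mul_one] at e1
  have aa' : ∀ g, D.e L.a * (D.e L.a * g) = g := fun g => by rw [← mul_assoc, aa, one_mul]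
  have yy' : ∀ g, D.e L.y * (D.e L.y * g) = g := fun g => by rw [← mul_assoc, yy, one_mul]
  simp only [d8, List.mem_cons, List.not_mem_nil, or_false] at hv
  rcases hl with rfl | rfl
  · rcases hv with rfl | rfl | rfl | rfl | rfl | rfl | rfl | rfl
    · exact ⟨[L.a], by simp [d8], by simp⟩
    · exact ⟨[], by simp [d8], by simp [aa]⟩
    · exact ⟨[L.a, L.y], by simp [d8], by simp⟩
    · exact ⟨[L.y], by simp [d8], by simp [aa']⟩
    · exact ⟨[L.a, L.y, L.a], by simp [d8], by simp⟩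
    · exact ⟨[L.y, L.a], by simp [d8], by simp [aa']⟩
    · exact ⟨[L.a, L.y, L.a, L.y], by simp [d8], by simp⟩
    · exact ⟨[L.y, L.a, L.y], by simp [d8], by simp [aa']⟩
  · rcases hv with rfl | rfl | rfl | rfl | rfl | rfl | rfl | rfl
    · exact ⟨[L.y], by simp [d8], by simp⟩
    · exact ⟨[L.y, L.a], by simp [d8], by simp⟩
    · exact ⟨[], by simp [d8], by simp [yy]⟩
    · exact ⟨[L.y, L.a, L.y], by simp [d8], by simp⟩
    · exact ⟨[L.a], by simp [d8], by simp [yy']⟩
    · exact ⟨[L.a, L.y, L.a, L.y], by simp [d8], by simp [e1]⟩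
    · exact ⟨[L.a, L.y], by simp [d8], by simp [yy']⟩
    · refine ⟨[L.a, L.y, L.a], by simp [d8], ?_⟩
      simp only [ev_cons, ev_nil, mul_one]
      rw [e1, yy']

lemma dsw_mem (w : List L) : ∃ v ∈ d8, D.ev (dsw w) = D.ev v := by
  induction w with
  | nil => exact ⟨[], by simp [d8], rfl⟩
  | cons l w ih =>
    obtain ⟨v, hv, h⟩ := ih
    cases l with
    | a =>
      obtain ⟨v', hv', h'⟩ := D.d8_mul L.y (Or.inr rfl) v hv
      exact ⟨v', hv', by simp [dsw, ds, h, h']⟩
    | x => exact ⟨v, hv, by simp [dsw, ds, h]⟩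
    | y =>
      obtain ⟨v', hv', h'⟩ := D.d8_mul L.a (Or.inl rfl) v hv
      exact ⟨v', hv', by simp [dsw, ds, h, h']⟩
    | b =>
      obtain ⟨v', hv', h'⟩ := D.d8_mul L.a (Or.inl rfl) v hv
      exact ⟨v', hv', by simp [dsw, ds, h, h']⟩

lemma B_mono {m n : ℕ} (h : m ≤ n) : D.B m ⊆ D.B n := by
  rintro g ⟨w, hw, rfl⟩
  exact ⟨w, hw.trans h, rfl⟩

lemma γ_mono {m n : ℕ} (h : m ≤ n) : D.γ m ≤ D.γ n :=
  Set.ncard_le_ncard (D.B_mono h) (D.B_finite n)

/-- a word of weight `≤ n` for elements of `B n` -/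
noncomputable def bw (n : ℕ) (g : Γ) : List L := by
  classical exact if h : g ∈ D.B n then h.choose else []

lemma bw_spec (n : ℕ) (g : Γ) (h : g ∈ D.B n) : wt (D.bw n g) ≤ n ∧ D.ev (D.bw n g) = g := by
  unfold bw
  rw [dif_pos h]
  exact h.choose_spec

/-- the combined word -/
noncomputable def cb (n : ℕ) (g h : Γ) : List L := thw (D.bw n g) ++ L.a :: (thw (D.bw n h) ++ [L.a])

lemma sec_cb_false (n : ℕ) (g h : Γ) : sec (D.cb n g h) false = D.bw n g ++ dsw (D.bw n h) := by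
  unfold cb
  rw [sec_append]
  simp [swp, swp_append, swp_thw, sw, sec, sec_append, sec_thw_false, sc, sec_thw_true]

lemma sec_cb_true (n : ℕ) (g h : Γ) : sec (D.cb n g h) true = dsw (D.bw n g) ++ D.bw n h := by
  unfold cb
  rw [sec_append]
  simp [swp, swp_append, swp_thw, sw, sec, sec_append, sec_thw_false, sc, sec_thw_true]

lemma wt_cb (n : ℕ) (g h : Γ) (hg : g ∈ D.B n) (hh : h ∈ D.B n) : wt (D.cb n g h) ≤ 6 * n + 4 := by
  have h1 := wt_thw (D.bw n g)
  have h2 := wt_thw (D.bw n h)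
  have h3 := (D.bw_spec n g hg).1
  have h4 := (D.bw_spec n h hh).1
  simp only [cb, wt_append, wt_cons, wt_nil, wl]
  omega

open Classical in
lemma γ_sq (n : ℕ) : D.γ n ^ 2 ≤ 64 * D.γ (6 * n + 4) := by
  set D8 : Finset Γ := (d8.map D.ev).toFinset with hD8
  have hcard : D8.card ≤ 8 := (List.toFinset_card_le _).trans (by simp [d8])
  have hmem : ∀ w, D.ev (dsw w) ∈ D8 := by
    intro w
    obtain ⟨v, hv, h⟩ := D.dsw_mem w
    rw [hD8, List.mem_toFinset, List.mem_map]
    exact ⟨v, hv, h.symm⟩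
  have key : ((D.B_finite n).toFinset ×ˢ (D.B_finite n).toFinset).card ≤
      ((D.B_finite (6 * n + 4)).toFinset ×ˢ (D8 ×ˢ D8)).card := by
    apply Finset.card_le_card_of_injOn (fun p : Γ × Γ =>
      (D.ev (D.cb n p.1 p.2), (D.ev (dsw (D.bw n p.1)), D.ev (dsw (D.bw n p.2)))))
    · rintro ⟨g, h⟩ hgh
      simp only [Finset.coe_product, Set.mem_prod, Finset.mem_coe, Set.Finite.mem_toFinset] at hgh ⊢
      exact ⟨⟨_, D.wt_cb n g h hgh.1 hgh.2, rfl⟩, hmem _, hmem _⟩
    · rintro ⟨g, h⟩ hgh ⟨g', h'⟩ hgh' heq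
      simp only [Finset.coe_product, Set.mem_prod, Finset.mem_coe, Set.Finite.mem_toFinset,
        Prod.mk.injEq] at hgh hgh' heq ⊢
      obtain ⟨e1, e2, e3⟩ := heq
      have s0 := D.sec_unique _ _ e1 false
      have s1 := D.sec_unique _ _ e1 true
      rw [sec_cb_false, sec_cb_false, ev_append, ev_append, e3, (D.bw_spec n g hgh.1).2,
        (D.bw_spec n g' hgh'.1).2] at s0
      rw [sec_cb_true, sec_cb_true, ev_append, ev_append, e2, (D.bw_spec n h hgh.2).2,
        (D.bw_spec n h' hgh'.2).2] at s1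
      exact ⟨mul_right_cancel s0, mul_left_cancel s1⟩
  rw [Finset.card_product, Finset.card_product, Finset.card_product,
    ← Set.ncard_eq_toFinset_card _ (D.B_finite n),
    ← Set.ncard_eq_toFinset_card _ (D.B_finite (6 * n + 4))] at key
  calc D.γ n ^ 2 = D.γ n * D.γ n := sq _
    _ ≤ D.γ (6 * n + 4) * (D8.card * D8.card) := key
    _ ≤ D.γ (6 * n + 4) * (8 * 8) := Nat.mul_le_mul_left _ (Nat.mul_le_mul hcard hcard)
    _ = 64 * D.γ (6 * n + 4) := by ring

/-- `ab` has infinite order -/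
lemma ab_pow (m : ℕ) (hm : 1 ≤ m) : D.ev [L.a, L.b] ^ m ≠ 1 := by
  set u := D.ev [L.a, L.b] with hu
  have h0 : ∀ p, D.φ u (D.τ false p) = D.τ true (D.φ (D.e L.b) p) := by
    intro p
    have := D.ev_sec [L.a, L.b] false p
    rw [← hu] at this
    rw [this]
    simp [swp, sw, sec, sc]
  have h1 : ∀ p, D.φ u (D.τ true p) = D.τ false (D.φ (D.e L.a) p) := by
    intro p
    have := D.ev_sec [L.a, L.b] true p
    rw [← hu] at this
    rw [this]
    simp [swp, sw, sec, sc]
  have h2 : ∀ p, D.φ (u ^ 2) (D.τ false p) = D.τ false (D.φ u p) := by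
    intro p
    rw [sq, map_mul, Equiv.Perm.mul_apply, h0, h1, hu]
    simp
  have h3 : ∀ k p, D.φ (u ^ (2 * k)) (D.τ false p) = D.τ false (D.φ (u ^ k) p) := by
    intro k
    induction k with
    | zero => intro p; simp
    | succ k ih =>
      intro p
      rw [show 2 * (k + 1) = 2 * k + 2 by ring, pow_add, map_mul, Equiv.Perm.mul_apply, h2, ih,
        pow_succ, map_mul, Equiv.Perm.mul_apply]
  induction m using Nat.strong_induction_on with
  | _ m ih =>
    intro hcon
    obtain ⟨p⟩ := D.ne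
    rcases Nat.even_or_odd' m with ⟨k, hk | hk⟩
    · have hk1 : 1 ≤ k := by omega
      apply ih k (by omega) hk1
      apply D.inj
      ext q
      have := h3 k q
      rw [← hk, hcon] at this
      simp only [map_one, Equiv.Perm.coe_one, id] at this ⊢
      exact (D.τ_inj false this).symm
    · have h4 : D.φ (u ^ m) (D.τ false p) = D.τ true (D.φ (D.e L.b) (D.φ (u ^ k) p)) := by
        rw [hk, pow_succ', map_mul, Equiv.Perm.mul_apply, h3, h0]
      rw [hcon] at h4
      simp only [map_one, Equiv.Perm.coe_one, id] at h4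
      have := (D.τinj _ _ _ _ h4).1
      simp at this

include D in
lemma not_finite : ¬ Finite Γ := by
  intro hfin
  have : Fintype Γ := Fintype.ofFinite Γ
  have h1 := isOfFinOrder_of_finite (D.ev [L.a, L.b])
  rw [isOfFinOrder_iff_pow_eq_one] at h1
  obtain ⟨n, hn, h⟩ := h1
  exact D.ab_pow n hn h

lemma γ_step (n : ℕ) : D.γ n + 1 ≤ D.γ (n + 2) := by
  by_contra hcon
  have hle : D.γ (n + 2) ≤ D.γ n := by omega
  have heq : D.B n = D.B (n + 2) :=
    Set.eq_of_subset_of_ncard_le (D.B_mono (by omega)) hle (D.B_finite _)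
  have hall : ∀ w, D.ev w ∈ D.B n := by
    intro w
    induction w with
    | nil => exact ⟨[], by simp, rfl⟩
    | cons l w ih =>
      obtain ⟨w', hw', h⟩ := ih
      rw [heq, ev_cons, ← h]
      refine ⟨l :: w', ?_, by simp⟩
      rw [wt_cons]
      have : wl l ≤ 2 := by cases l <;> simp [wl]
      omega
  apply D.not_finite
  have : (Set.univ : Set Γ).Finite := by
    apply (D.B_finite n).subset
    intro g _
    obtain ⟨w, rfl⟩ := D.ev_surj g
    exact hall w
  exact Set.finite_univ_iff.mp this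

lemma γ_lin (m : ℕ) : m + 1 ≤ D.γ (2 * m) := by
  induction m with
  | zero =>
    have : 0 < D.γ 0 := by
      unfold γ
      rw [Set.ncard_pos (D.B_finite 0)]
      exact ⟨1, [], by simp, rfl⟩
    simp only [mul_zero, zero_add]
    omega
  | succ m ih =>
    have := D.γ_step (2 * m)
    rw [show 2 * (m + 1) = 2 * m + 2 by ring]
    omega

lemma γ_poly_double (d : ℕ) (h : ∃ c : ℝ, 0 < c ∧ ∀ n : ℕ, 1 ≤ n → c * n ^ d ≤ D.γ n) :
    ∃ c : ℝ, 0 < c ∧ ∀ n : ℕ, 1 ≤ n → c * n ^ (2 * d) ≤ D.γ n := by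
  obtain ⟨c, hc, h⟩ := h
  refine ⟨min (c ^ 2 / (64 * 16 ^ (2 * d))) (1 / 10 ^ (2 * d)), by positivity, fun n hn => ?_⟩
  rcases lt_or_ge n 10 with h10 | h10
  · have h1 : (1 : ℝ) ≤ D.γ n := by
      have := D.γ_lin 0
      have h2 := D.γ_mono (Nat.zero_le n)
      have : 1 ≤ D.γ n := by simpa using le_trans this h2
      exact_mod_cast this
    have h2 : (n : ℝ) ^ (2 * d) ≤ 10 ^ (2 * d) :=
      pow_le_pow_left₀ (by positivity) (by exact_mod_cast h10.le) _
    calc _ ≤ 1 / 10 ^ (2 * d) * (n : ℝ) ^ (2 * d) :=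
          mul_le_mul_of_nonneg_right (min_le_right _ _) (by positivity)
      _ ≤ 1 / 10 ^ (2 * d) * 10 ^ (2 * d) := mul_le_mul_of_nonneg_left h2 (by positivity)
      _ = 1 := by field_simp
      _ ≤ _ := h1
  · set m := (n - 4) / 6 with hm
    have hm1 : 1 ≤ m := by omega
    have hm2 : 6 * m + 4 ≤ n := by omega
    have hm3 : n ≤ 16 * m := by omega
    have h1 := h m hm1
    have h2 : (D.γ m : ℝ) ^ 2 ≤ 64 * D.γ n := by
      have e1 := D.γ_sq m
      have e2 := D.γ_mono hm2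
      have : D.γ m ^ 2 ≤ 64 * D.γ n := e1.trans (Nat.mul_le_mul_left _ e2)
      exact_mod_cast this
    have h3 : (c * (m : ℝ) ^ d) ^ 2 ≤ (D.γ m : ℝ) ^ 2 := pow_le_pow_left₀ (by positivity) h1 2
    have h4 : (n : ℝ) ^ (2 * d) ≤ 16 ^ (2 * d) * (m : ℝ) ^ (2 * d) := by
      rw [← mul_pow]
      exact pow_le_pow_left₀ (by positivity) (by exact_mod_cast hm3) _
    calc _ ≤ c ^ 2 / (64 * 16 ^ (2 * d)) * (n : ℝ) ^ (2 * d) :=
          mul_le_mul_of_nonneg_right (min_le_left _ _) (by positivity)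
      _ ≤ c ^ 2 / (64 * 16 ^ (2 * d)) * (16 ^ (2 * d) * (m : ℝ) ^ (2 * d)) :=
          mul_le_mul_of_nonneg_left h4 (by positivity)
      _ = (c * (m : ℝ) ^ d) ^ 2 / 64 := by field_simp; ring
      _ ≤ D.γ n := by
          rw [div_le_iff₀ (by norm_num)]
          linarith

lemma γ_poly (d : ℕ) : ∃ c : ℝ, 0 < c ∧ ∀ n : ℕ, 1 ≤ n → c * n ^ d ≤ D.γ n := by
  have h1 : ∃ c : ℝ, 0 < c ∧ ∀ n : ℕ, 1 ≤ n → c * n ^ 1 ≤ D.γ n := by
    refine ⟨1 / 2, by norm_num, fun n _ => ?_⟩
    have e1 := D.γ_lin (n / 2)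
    have e2 := D.γ_mono (show 2 * (n / 2) ≤ n by omega)
    have e3 : n ≤ 2 * D.γ n := by omega
    have e4 : (n : ℝ) ≤ 2 * D.γ n := by exact_mod_cast e3
    rw [pow_one]
    linarith
  have h2 : ∀ j : ℕ, ∃ c : ℝ, 0 < c ∧ ∀ n : ℕ, 1 ≤ n → c * n ^ (2 ^ j) ≤ D.γ n := by
    intro j
    induction j with
    | zero => simpa using h1
    | succ j ih =>
      have := D.γ_poly_double _ ih
      rwa [← pow_succ'] at this
  obtain ⟨c, hc, h⟩ := h2 d
  refine ⟨c, hc, fun n hn => ?_⟩
  refine le_trans ?_ (h n hn)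
  apply mul_le_mul_of_nonneg_left _ hc.le
  exact pow_le_pow_right₀ (by exact_mod_cast hn) (Nat.lt_two_pow_self).le

end SS
end Pool.Agent.helper2.MorseIG
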