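import Mathlib
import Pool.Agent.helper2.Morse4

/-!
# Intermediate growth in the topological full group of the Morse subshift

`result`: the topological full group of the (two-sided) Morse subshift contains a finitely
generated subgroup of intermediate growth.

The subgroup is generated by three involutions `gA`, `gX`, `gY`; desubstitution gives it a
self-similar structure (that of the Grigorchuk group of the sequence `(01)^∞`), from which both
growth estimates follow (files `Pool/Agent/helper2/Morse1.lean` to `Morse4.lean`).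
-/

namespace Pool.Agent.helper2.Morse5

open Filter Topology

/-! ### Definitions -/

/-- The Morse (Thue–Morse) substitution on letters: `0 ↦ 01`, `1 ↦ 10` (`false` is `0`). -/
def morseSubst : Bool → List Bool
  | false => [false, true]
  | true => [true, false]

/-- The Morse substitution extended to words by concatenation. -/
def morseWord (w : List Bool) : List Bool := w.flatMap morseSubst

/-- The Morse subshift: bi-infinite sequences all of whose finite subwords occur in some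
`σ^k(c)`, `c` a letter, `k ≥ 1`. -/
def MorseShift : Set (ℤ → Bool) :=
  {p | ∀ (i : ℤ) (n : ℕ), ∃ (c : Bool) (k : ℕ), 1 ≤ k ∧
    (List.ofFn fun m : Fin n => p (i + m)) <:+: morseWord^[k] [c]}

/-- The topological full group `[[T]]` of a homeomorphism `T` of a space `Y`, as a subgroup of the
group of homeomorphisms of `Y`. -/
def topologicalFullGroup {Y : Type} [TopologicalSpace Y] (T : Y ≃ₜ Y) : Subgroup (Y ≃ₜ Y) where
  carrier := {g | ∃ n : Y → ℤ, Continuous n ∧ ∀ y, g y = (T ^ n y) y}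
  one_mem' := ⟨fun _ => 0, continuous_const, fun y => by simp⟩
  mul_mem' := by
    rintro g h ⟨n, hn, hg⟩ ⟨m, hm, hh⟩
    refine ⟨fun y => n (h y) + m y, (hn.comp h.continuous).add hm, fun y => ?_⟩
    rw [Homeomorph.mul_apply, hg, zpow_add, Homeomorph.mul_apply, ← hh]
  inv_mem' := by
    rintro g ⟨n, hn, hg⟩
    refine ⟨fun y => - n (g⁻¹ y), (hn.comp g⁻¹.continuous).neg, fun y => ?_⟩
    obtain ⟨z, rfl⟩ : ∃ z, y = g z := ⟨g⁻¹ y, by
      rw [← Homeomorph.mul_apply, mul_inv_cancel, Homeomorph.one_apply]⟩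
    have h2 : g⁻¹ (g z) = z := by
      rw [← Homeomorph.mul_apply, inv_mul_cancel, Homeomorph.one_apply]
    show g⁻¹ (g z) = (T ^ (-n (g⁻¹ (g z)))) (g z)
    rw [h2, hg z, zpow_neg, ← Homeomorph.mul_apply, inv_mul_cancel, Homeomorph.one_apply]

/-- `growth S r`: the number of elements of `G` that are products of at most `r` elements of
`S ∪ S⁻¹`. -/
noncomputable def growth {G : Type} [Group G] (S : Set G) (r : ℕ) : ℕ :=
  {g : G | ∃ l : List G, l.length ≤ r ∧ (∀ s ∈ l, s ∈ S ∨ s⁻¹ ∈ S) ∧ l.prod = g}.ncard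

/-- `G` is finitely generated and has intermediate growth (with respect to every finite generating
set): the growth function grows faster than every polynomial and slower than every exponential. -/
def IntermediateGrowth (G : Type) [Group G] : Prop :=
  Group.FG G ∧ ∀ S : Set G, S.Finite → Subgroup.closure S = ⊤ →
    (∀ d : ℕ, Tendsto (fun r : ℕ => (growth S r : ℝ) / (r : ℝ) ^ d) atTop atTop) ∧
    (∀ c : ℝ, 0 < c → Tendsto (fun r : ℕ => (growth S r : ℝ) / Real.exp (c * r)) atTop (𝓝 0))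

/-! ### The growth of a group with the self-similar data -/

open Pool.Agent.helper2.MorseIG in
theorem intermediate_of_SS {Γ X : Type} [Group Γ] (D : SS Γ X) : IntermediateGrowth Γ := by
  have hfg : Group.FG Γ := by
    rw [Group.fg_iff]
    exact ⟨_, D.gen, by simp⟩
  refine ⟨hfg, fun S hS hgen => ?_⟩
  set WB : ℕ → Set Γ := fun r =>
    {g : Γ | ∃ l : List Γ, l.length ≤ r ∧ (∀ s ∈ l, s ∈ S ∨ s⁻¹ ∈ S) ∧ l.prod = g} with hWB
  -- (1)
  obtain ⟨C, hC1, hC⟩ : ∃ C : ℕ, 1 ≤ C ∧ ∀ s : Γ, s ∈ S ∨ s⁻¹ ∈ S → ∃ w, wt w ≤ C ∧ D.ev w = s := by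
    have h1 : ∃ C : ℕ, ∀ s ∈ S, wt (D.cw s) ≤ C := by
      obtain ⟨C, hC⟩ := (hS.image (fun s => wt (D.cw s))).bddAbove
      exact ⟨C, fun s hs => hC ⟨s, hs, rfl⟩⟩
    obtain ⟨C, hC⟩ := h1
    refine ⟨C + 1, by omega, fun s hs => ?_⟩
    rcases hs with hs | hs
    · exact ⟨D.cw s, (hC s hs).trans (by omega), D.cw_spec s⟩
    · refine ⟨(D.cw s⁻¹).reverse, ?_, ?_⟩
      · rw [wt_reverse]; exact (hC _ hs).trans (by omega)
      · rw [D.ev_reverse, D.cw_spec, inv_inv]
  have hsub1 : ∀ r, WB r ⊆ D.B (C * r) := by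
    rintro r g ⟨l, hl, hlS, rfl⟩
    have h2 : ∀ l : List Γ, (∀ s ∈ l, s ∈ S ∨ s⁻¹ ∈ S) →
        ∃ w, wt w ≤ C * l.length ∧ D.ev w = l.prod := by
      intro l
      induction l with
      | nil => intro _; exact ⟨[], by simp, by simp⟩
      | cons s l ih =>
        intro h
        obtain ⟨w, hw, hw'⟩ := ih (fun s' hs' => h s' (List.mem_cons_of_mem _ hs'))
        obtain ⟨v, hv, hv'⟩ := hC s (h s List.mem_cons_self)
        refine ⟨v ++ w, ?_, by rw [D.ev_append, hw', hv', List.prod_cons]⟩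
        rw [wt_append, List.length_cons, mul_add]
        omega
    obtain ⟨w, hw, hw'⟩ := h2 l hlS
    exact ⟨w, hw.trans (Nat.mul_le_mul_left _ hl), hw'⟩
  have hWBfin : ∀ r, (WB r).Finite := fun r => (D.B_finite _).subset (hsub1 r)
  have hle1 : ∀ r, growth S r ≤ D.γ (C * r) := fun r =>
    Set.ncard_le_ncard (hsub1 r) (D.B_finite _)
  -- (2)
  obtain ⟨C', hC'1, hC'⟩ : ∃ C' : ℕ, 1 ≤ C' ∧ ∀ l : L, ∃ u : List Γ, u.length ≤ C' ∧
      (∀ s ∈ u, s ∈ S ∨ s⁻¹ ∈ S) ∧ u.prod = D.e l := by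
    have h1 : ∀ l : L, ∃ u : List Γ, (∀ s ∈ u, s ∈ S ∨ s⁻¹ ∈ S) ∧ u.prod = D.e l := by
      intro l
      have hmem : D.e l ∈ (Subgroup.closure S).toSubmonoid := by
        rw [hgen]; trivial
      rw [Subgroup.closure_toSubmonoid] at hmem
      obtain ⟨u, hu, hu'⟩ := Submonoid.exists_list_of_mem_closure hmem
      exact ⟨u, fun s hs => by simpa using hu s hs, hu'⟩
    choose u hu hu' using h1
    refine ⟨(u .a).length + (u .x).length + (u .y).length + (u .b).length + 1, by omega, fun l =>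
      ⟨u l, ?_, hu l, hu' l⟩⟩
    cases l <;> omega
  have hsub2 : ∀ n, D.B n ⊆ WB (C' * n) := by
    rintro n g ⟨w, hw, rfl⟩
    have h2 : ∀ w : List L, ∃ u : List Γ, u.length ≤ C' * w.length ∧
        (∀ s ∈ u, s ∈ S ∨ s⁻¹ ∈ S) ∧ u.prod = D.ev w := by
      intro w
      induction w with
      | nil => exact ⟨[], by simp, by simp, by simp⟩
      | cons l w ih =>
        obtain ⟨u, h1, h2, h3⟩ := ih
        obtain ⟨v, g1, g2, g3⟩ := hC' l
        refine ⟨v ++ u, ?_, ?_, by rw [List.prod_append, g3, h3, D.ev_cons]⟩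
        · rw [List.length_append, List.length_cons, mul_add]
          omega
        · intro s hs
          rcases List.mem_append.mp hs with h | h
          · exact g2 s h
          · exact h2 s h
    obtain ⟨u, h1, h2', h3⟩ := h2 w
    exact ⟨u, h1.trans (Nat.mul_le_mul_left _ ((length_le_wt w).trans hw)), h2', h3⟩
  have hle2 : ∀ n, D.γ n ≤ growth S (C' * n) := fun n =>
    Set.ncard_le_ncard (hsub2 n) (hWBfin _)
  have hgmono : ∀ m n, m ≤ n → growth S m ≤ growth S n := by
    intro m n hmn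
    apply Set.ncard_le_ncard _ (hWBfin n)
    rintro g ⟨l, hl, h⟩
    exact ⟨l, hl.trans hmn, h⟩
  constructor
  · intro d
    obtain ⟨c, hc, hpoly⟩ := D.γ_poly (d + 1)
    have hC'0 : (0 : ℝ) < C' := by exact_mod_cast hC'1
    have hlow : ∀ r : ℕ, C' ≤ r → c / (2 * C') ^ (d + 1) * (r : ℝ) ≤ (growth S r : ℝ) / (r : ℝ) ^ d := by
      intro r hr
      set m := r / C' with hm
      have hm1 : 1 ≤ m := (Nat.one_le_div_iff (by omega)).mpr hr
      have hm2 : C' * m ≤ r := Nat.mul_div_le r C'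
      have hm3 : r ≤ 2 * C' * m := by
        have h1 : r < C' * (m + 1) := by
          have := Nat.div_add_mod r C'
          have h2 := Nat.mod_lt r (show C' > 0 by omega)
          rw [← hm] at this
          rw [mul_add]
          omega
        have h3 : C' * 1 ≤ C' * m := Nat.mul_le_mul_left _ hm1
        rw [mul_add] at h1
        nlinarith
      have hr0 : (0 : ℝ) < r := by
        have : 0 < r := by omega
        exact_mod_cast this
      have h4 : (growth S r : ℝ) ≥ c * (m : ℝ) ^ (d + 1) := by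
        have e1 := hpoly m hm1
        have e2 : (D.γ m : ℝ) ≤ growth S r := by
          exact_mod_cast (hle2 m).trans (hgmono _ _ hm2)
        linarith
      have h5 : (r : ℝ) ^ (d + 1) ≤ (2 * C') ^ (d + 1) * (m : ℝ) ^ (d + 1) := by
        rw [← mul_pow]
        exact pow_le_pow_left₀ hr0.le (by exact_mod_cast hm3) _
      rw [le_div_iff₀ (by positivity)]
      calc c / (2 * C') ^ (d + 1) * (r : ℝ) * (r : ℝ) ^ d
          = c / (2 * C') ^ (d + 1) * (r : ℝ) ^ (d + 1) := by ring
        _ ≤ c / (2 * C') ^ (d + 1) * ((2 * C') ^ (d + 1) * (m : ℝ) ^ (d + 1)) :=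
            mul_le_mul_of_nonneg_left h5 (by positivity)
        _ = c * (m : ℝ) ^ (d + 1) := by field_simp
        _ ≤ _ := h4
    have hlim : Tendsto (fun r : ℕ => c / (2 * C') ^ (d + 1) * (r : ℝ)) atTop atTop :=
      tendsto_natCast_atTop_atTop.const_mul_atTop (by positivity)
    exact tendsto_atTop_mono' _ ((eventually_ge_atTop C').mono hlow) hlim
  · intro c hc
    have hC0 : (0 : ℝ) < C := by exact_mod_cast hC1
    obtain ⟨K, hK⟩ := D.γ_subexp (Real.exp (c / (2 * C))) (by
      rw [Real.one_lt_exp_iff]; positivity)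
    have hup : ∀ r : ℕ, (growth S r : ℝ) / Real.exp (c * r) ≤ K * Real.exp (-(c / 2) * r) := by
      intro r
      rw [div_le_iff₀ (Real.exp_pos _)]
      have h1 : (growth S r : ℝ) ≤ K * Real.exp (c / (2 * C)) ^ (C * r) :=
        (by exact_mod_cast hle1 r : (growth S r : ℝ) ≤ D.γ (C * r)).trans (hK _)
      have h2 : Real.exp (c / (2 * C)) ^ (C * r) = Real.exp (-(c / 2) * r) * Real.exp (c * r) := by
        rw [← Real.exp_nat_mul, ← Real.exp_add]
        congr 1
        push_cast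
        field_simp
        ring
      calc (growth S r : ℝ) ≤ K * Real.exp (c / (2 * C)) ^ (C * r) := h1
        _ = _ := by rw [h2]; ring
    have hlim : Tendsto (fun r : ℕ => K * Real.exp (-(c / 2) * r)) atTop (𝓝 0) := by
      have h1 : Tendsto (fun r : ℕ => -(c / 2) * (r : ℝ)) atTop atBot :=
        tendsto_natCast_atTop_atTop.const_mul_atTop_of_neg (by linarith)
      have h2 := (Real.tendsto_exp_atBot.comp h1).const_mul K
      simpa using h2
    exact squeeze_zero (fun r => by positivity) hup hlim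

/-! ### The Thue–Morse sequence -/

/-- The Thue–Morse sequence. -/
def tm : ℕ → Bool
  | 0 => false
  | (n + 1) => xor (decide ((n + 1) % 2 = 1)) (tm ((n + 1) / 2))
decreasing_by omega

lemma tm_zero : tm 0 = false := by rw [tm]

lemma tm_even (n : ℕ) : tm (2 * n) = tm n := by
  rcases n with _ | n
  · rfl
  · rw [show 2 * (n + 1) = (2 * n + 1) + 1 by ring, tm]
    have h1 : (2 * n + 1 + 1) % 2 = 0 := by omega
    have h2 : (2 * n + 1 + 1) / 2 = n + 1 := by omega
    rw [h1, h2]; simp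

lemma tm_odd (n : ℕ) : tm (2 * n + 1) = !tm n := by
  rw [tm]
  have h1 : (2 * n + 1) % 2 = 1 := by omega
  have h2 : (2 * n + 1) / 2 = n := by omega
  rw [h1, h2]; simp

lemma tm_nocube (j : ℕ) : ¬ (tm j = tm (j + 1) ∧ tm (j + 1) = tm (j + 2)) := by
  rcases Nat.even_or_odd' j with ⟨k, rfl | rfl⟩
  · rw [tm_even, tm_odd]
    cases tm k <;> simp
  · rw [show 2 * k + 1 + 1 = 2 * (k + 1) by ring, show 2 * k + 1 + 2 = 2 * (k + 1) + 1 by ring,
      tm_even, tm_odd (k + 1)]
    cases tm (k + 1) <;> simp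

lemma tm_noalt (j : ℕ) : ¬ (tm j ≠ tm (j + 1) ∧ tm (j + 1) ≠ tm (j + 2) ∧ tm (j + 2) ≠ tm (j + 3)
    ∧ tm (j + 3) ≠ tm (j + 4)) := by
  rcases Nat.even_or_odd' j with ⟨k, rfl | rfl⟩
  · have h := tm_nocube k
    rw [show 2 * k + 2 = 2 * (k + 1) by ring, show 2 * k + 3 = 2 * (k + 1) + 1 by ring,
      show 2 * k + 4 = 2 * (k + 2) by ring, tm_even, tm_odd, tm_even, tm_odd, tm_even]
    cases h1 : tm k <;> cases h2 : tm (k + 1) <;> cases h3 : tm (k + 2) <;> simp_all
  · have h := tm_nocube k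
    rw [show 2 * k + 1 + 1 = 2 * (k + 1) by ring, show 2 * k + 1 + 2 = 2 * (k + 1) + 1 by ring,
      show 2 * k + 1 + 3 = 2 * (k + 2) by ring, show 2 * k + 1 + 4 = 2 * (k + 2) + 1 by ring,
      tm_odd, tm_even, tm_odd, tm_even, tm_odd]
    cases h1 : tm k <;> cases h2 : tm (k + 1) <;> cases h3 : tm (k + 2) <;> simp_all

lemma tm_add (n q : ℕ) (hq : q < 2 ^ n) : tm (2 ^ n + q) = !tm q := by
  induction n generalizing q with
  | zero =>
    have : q = 0 := by simpa using hq
    subst this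
    simpa using tm_odd 0
  | succ n ih =>
    rcases Nat.even_or_odd' q with ⟨k, rfl | rfl⟩
    · rw [show 2 ^ (n + 1) + 2 * k = 2 * (2 ^ n + k) by ring, tm_even, tm_even]
      exact ih k (by rw [pow_succ] at hq; omega)
    · rw [show 2 ^ (n + 1) + (2 * k + 1) = 2 * (2 ^ n + k) + 1 by ring, tm_odd, tm_odd,
        ih k (by rw [pow_succ] at hq; omega)]

lemma tm_compl (n q : ℕ) (hq : q < 2 ^ n) :
    tm (2 ^ n - 1 - q) = xor (tm q) (decide (n % 2 = 1)) := by
  induction n generalizing q with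
  | zero =>
    have : q = 0 := by simpa using hq
    subst this
    simp
  | succ n ih =>
    have hpar : decide ((n + 1) % 2 = 1) = !decide (n % 2 = 1) := by
      rcases Nat.mod_two_eq_zero_or_one n with h | h
      · have : (n + 1) % 2 = 1 := by omega
        simp [h, this]
      · have : (n + 1) % 2 = 0 := by omega
        simp [h, this]
    rcases Nat.even_or_odd' q with ⟨k, rfl | rfl⟩
    · rw [pow_succ] at hq
      rw [show 2 ^ (n + 1) - 1 - 2 * k = 2 * (2 ^ n - 1 - k) + 1 by rw [pow_succ]; omega,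
        tm_odd, tm_even, ih k (by omega), hpar]
      cases tm k <;> cases decide (n % 2 = 1) <;> rfl
    · rw [pow_succ] at hq
      rw [show 2 ^ (n + 1) - 1 - (2 * k + 1) = 2 * (2 ^ n - 1 - k) by rw [pow_succ]; omega,
        tm_odd, tm_even, ih k (by omega), hpar]
      cases tm k <;> cases decide (n % 2 = 1) <;> rfl

lemma flatMap_range (f : ℕ → Bool) (hf0 : ∀ i, f (2 * i) = f i) (hf1 : ∀ i, f (2 * i + 1) = !f i)
    (N : ℕ) : morseWord ((List.range N).map f) = (List.range (2 * N)).map f := by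
  unfold morseWord
  induction N with
  | zero => rfl
  | succ N ih =>
    rw [show 2 * (N + 1) = 2 * N + 1 + 1 by ring, List.range_succ, List.range_succ,
      List.range_succ, List.map_append, List.flatMap_append, ih, List.map_append, List.map_append]
    simp only [List.map_cons, List.map_nil, List.flatMap_cons, List.flatMap_nil, hf0, hf1,
      List.append_nil, List.append_assoc]
    cases f N <;> rfl

lemma iterate_eq (c : Bool) (k : ℕ) :
    morseWord^[k] [c] = (List.range (2 ^ k)).map (fun i => xor c (tm i)) := by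
  induction k with
  | zero => simp [tm_zero]
  | succ k ih =>
    rw [Function.iterate_succ_apply', ih, flatMap_range, pow_succ, mul_comm]
    · intro i; rw [tm_even]
    · intro i; rw [tm_odd]; cases c <;> simp

/-- Window characterisation. -/
def W (p : ℤ → Bool) : Prop :=
  ∀ (i : ℤ) (n : ℕ), ∃ (c : Bool) (j : ℕ), ∀ m : ℕ, m < n → p (i + m) = xor c (tm (j + m))

lemma mem_iff (p : ℤ → Bool) : p ∈ MorseShift ↔ W p := by
  constructor
  · intro hp i n
    obtain ⟨c, k, -, s, t, h⟩ := hp i n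
    rw [iterate_eq] at h
    refine ⟨c, s.length, fun m hm => ?_⟩
    have h1 : (s ++ (List.ofFn fun m : Fin n => p (i + m)) ++ t)[s.length + m]? = some (p (i + m)) := by
      rw [List.append_assoc, List.getElem?_append_right (by omega),
        List.getElem?_append_left (by simpa using by omega)]
      simp [hm]
    rw [h] at h1
    rw [List.getElem?_map] at h1
    simp only [Option.map_eq_some_iff] at h1
    obtain ⟨a, ha, hb⟩ := h1
    rw [List.getElem?_eq_some_iff] at ha
    obtain ⟨h2, h3⟩ := ha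
    rw [List.getElem_range] at h3
    rw [← hb, h3]
  · intro hp i n
    obtain ⟨c, j, h⟩ := hp i n
    refine ⟨c, j + n + 1, by omega, ?_⟩
    rw [iterate_eq]
    set l := (List.range (2 ^ (j + n + 1))).map (fun i => xor c (tm i)) with hl
    have hlen : j + n + 1 < l.length := by
      rw [hl, List.length_map, List.length_range]
      exact Nat.lt_two_pow_self
    have h1 : (List.ofFn fun m : Fin n => p (i + m)) = (l.drop j).take n := by
      apply List.ext_getElem
      · simp only [List.length_ofFn, List.length_take, List.length_drop]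
        omega
      · intro m h1 h2
        simp only [List.length_ofFn] at h1
        simp only [List.getElem_ofFn, List.getElem_take, List.getElem_drop, hl, List.getElem_map,
          List.getElem_range]
        exact h m h1
    rw [h1]
    exact (List.take_prefix n _).isInfix.trans (List.drop_suffix j _).isInfix

lemma W_shift (p : ℤ → Bool) (hp : W p) (s : ℤ) : W (fun i => p (i + s)) := by
  intro i n
  obtain ⟨c, j, h⟩ := hp (i + s) n
  refine ⟨c, j, fun m hm => ?_⟩
  rw [← h m hm]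
  show p (i + m + s) = _
  congr 1; ring

lemma nocube (p : ℤ → Bool) (hp : W p) (i : ℤ) : ¬ (p i = p (i + 1) ∧ p (i + 1) = p (i + 2)) := by
  obtain ⟨c, j, h⟩ := hp i 3
  have h0 := h 0 (by omega)
  have h1 := h 1 (by omega)
  have h2 := h 2 (by omega)
  have := tm_nocube j
  push_cast at h0 h1 h2
  rw [add_zero, add_zero] at h0
  rw [h0, h1, h2]
  cases c <;> simpa using this

lemma noalt (p : ℤ → Bool) (hp : W p) (i : ℤ) : ¬ (p i ≠ p (i + 1) ∧ p (i + 1) ≠ p (i + 2) ∧
    p (i + 2) ≠ p (i + 3) ∧ p (i + 3) ≠ p (i + 4)) := by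
  obtain ⟨c, j, h⟩ := hp i 5
  have h0 := h 0 (by omega)
  have h1 := h 1 (by omega)
  have h2 := h 2 (by omega)
  have h3 := h 3 (by omega)
  have h4 := h 4 (by omega)
  have := tm_noalt j
  push_cast at h0 h1 h2 h3 h4
  rw [add_zero, add_zero] at h0
  rw [h0, h1, h2, h3, h4]
  cases c <;> simpa using this

/-- even parity: blocks at `(2i, 2i+1)` -/
def E (p : ℤ → Bool) : Prop := ∀ i : ℤ, p (2 * i) ≠ p (2 * i + 1)
/-- odd parity -/
def O (p : ℤ → Bool) : Prop := ∀ i : ℤ, p (2 * i - 1) ≠ p (2 * i)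

lemma parity (p : ℤ → Bool) (hp : W p) (N : ℕ) :
    (∀ i : ℤ, |i| ≤ N → p (2 * i) ≠ p (2 * i + 1)) ∨
    (∀ i : ℤ, |i| ≤ N → p (2 * i - 1) ≠ p (2 * i)) := by
  obtain ⟨c, j, h⟩ := hp (-2 * N - 2) (4 * N + 6)
  have hpos : ∀ i : ℤ, ∀ m : ℕ, m < 4 * N + 6 → i = -2 * N - 2 + m → p i = xor c (tm (j + m)) := by
    intro i m hm hi
    rw [hi, h m hm]
  rcases Nat.even_or_odd' j with ⟨k, rfl | rfl⟩
  · left
    intro i hi
    rw [abs_le] at hi
    obtain ⟨m, hm⟩ : ∃ m : ℕ, i = -N - 1 + m := ⟨(i + N + 1).toNat, by omega⟩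
    rw [hpos (2 * i) (2 * m) (by omega) (by push_cast; omega),
      hpos (2 * i + 1) (2 * m + 1) (by omega) (by push_cast; omega),
      ← mul_add, ← add_assoc, ← mul_add, tm_even, tm_odd]
    cases c <;> simp
  · right
    intro i hi
    rw [abs_le] at hi
    obtain ⟨m, hm⟩ : ∃ m : ℕ, i = -N + m := ⟨(i + N).toNat, by omega⟩
    rw [hpos (2 * i - 1) (2 * m + 1) (by omega) (by push_cast; omega),
      hpos (2 * i) (2 * m + 2) (by omega) (by push_cast; omega),
      show 2 * k + 1 + (2 * m + 1) = 2 * (k + m + 1) by ring,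
      show 2 * k + 1 + (2 * m + 2) = 2 * (k + m + 1) + 1 by ring, tm_even, tm_odd]
    cases c <;> simp

/-- local parity test -/
def Z (p : ℤ → Bool) : Prop := p 0 ≠ p 1 ∧ p 2 ≠ p 3

instance (p : ℤ → Bool) : Decidable (Z p) := by unfold Z; infer_instance

lemma E_of_Z (p : ℤ → Bool) (hp : W p) (hz : Z p) : E p := by
  intro i
  rcases parity p hp (i.natAbs + 2) with h | h
  · exact h i (by rw [Int.abs_eq_natAbs]; omega)
  · exfalso
    have h1 := h 1 (by rw [abs_one]; omega)
    have h2 := h 2 (by rw [abs_two]; omega)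
    apply noalt p hp 0
    norm_num at h1 h2 ⊢
    exact ⟨hz.1, h1, hz.2, h2⟩

lemma O_of_not_Z (p : ℤ → Bool) (hp : W p) (hz : ¬ Z p) : O p := by
  intro i
  rcases parity p hp (i.natAbs + 2) with h | h
  · exfalso
    have h1 := h 0 (by rw [abs_zero]; omega)
    have h2 := h 1 (by rw [abs_one]; omega)
    apply hz
    norm_num at h1 h2
    exact ⟨h1, h2⟩
  · exact h i (by rw [Int.abs_eq_natAbs]; omega)

lemma Z_of_E (p : ℤ → Bool) (h : E p) : Z p := by
  have h1 := h 0
  have h2 := h 1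
  norm_num at h1 h2
  exact ⟨h1, h2⟩

lemma not_Z_of_O (p : ℤ → Bool) (hp : W p) (h : O p) : ¬ Z p := by
  intro hz
  have h1 := h 1
  have h2 := h 2
  apply noalt p hp 0
  norm_num at h1 h2 ⊢
  exact ⟨hz.1, h1, hz.2, h2⟩

/-- the substitution on bi-infinite sequences -/
def sg (p : ℤ → Bool) : ℤ → Bool := fun i => xor (p (i / 2)) (decide (i % 2 = 1))

lemma sg_even (p : ℤ → Bool) (i : ℤ) : sg p (2 * i) = p i := by
  unfold sg
  have h1 : (2 * i) / 2 = i := by omega
  have h2 : (2 * i) % 2 = 0 := by omega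
  rw [h1, h2]; simp

lemma sg_odd (p : ℤ → Bool) (i : ℤ) : sg p (2 * i + 1) = !p i := by
  unfold sg
  have h1 : (2 * i + 1) / 2 = i := by omega
  have h2 : (2 * i + 1) % 2 = 1 := by omega
  rw [h1, h2]; simp

lemma E_sg (p : ℤ → Bool) : E (sg p) := by
  intro i
  rw [sg_even, sg_odd]
  cases p i <;> simp

lemma W_sg (p : ℤ → Bool) (hp : W p) : W (sg p) := by
  intro i n
  obtain ⟨c, j, h⟩ := hp (i / 2) (n + 1)
  refine ⟨c, 2 * j + (i % 2).toNat, fun m hm => ?_⟩
  obtain ⟨q, hq⟩ : ∃ q : ℕ, (i % 2).toNat + m = 2 * q ∨ (i % 2).toNat + m = 2 * q + 1 :=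
    ⟨((i % 2).toNat + m) / 2, by omega⟩
  rcases hq with hq | hq
  · rw [show i + m = 2 * (i / 2 + q) by omega, sg_even, h q (by omega), add_assoc, hq, ← mul_add,
      tm_even]
  · rw [show i + m = 2 * (i / 2 + q) + 1 by omega, sg_odd, h q (by omega), add_assoc, hq,
      ← add_assoc, ← mul_add, tm_odd]
    cases c <;> simp

lemma W_desub (p : ℤ → Bool) (hp : W p) (he : E p) : W (fun i => p (2 * i)) := by
  intro i n
  obtain ⟨c, j, h⟩ := hp (2 * i) (2 * n + 6)
  rcases Nat.even_or_odd' j with ⟨k, rfl | rfl⟩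
  · refine ⟨c, k, fun m hm => ?_⟩
    show p (2 * (i + m)) = _
    have := h (2 * m) (by omega)
    rw [← mul_add, tm_even] at this
    rw [← this]
    congr 1; push_cast; ring
  · exfalso
    have e0 := he i
    have e1 := he (i + 1)
    have h0 := h 0 (by omega)
    have h1 := h 1 (by omega)
    have h2 := h 2 (by omega)
    have h3 := h 3 (by omega)
    have h4 := h 4 (by omega)
    have ho1 : tm (2 * k + 1 + 1) ≠ tm (2 * k + 1 + 2) := by
      rw [show 2 * k + 1 + 1 = 2 * (k + 1) by ring, show 2 * k + 1 + 2 = 2 * (k + 1) + 1 by ring,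
        tm_even, tm_odd (k + 1)]
      cases tm (k + 1) <;> simp
    have ho2 : tm (2 * k + 1 + 3) ≠ tm (2 * k + 1 + 4) := by
      rw [show 2 * k + 1 + 3 = 2 * (k + 2) by ring, show 2 * k + 1 + 4 = 2 * (k + 2) + 1 by ring,
        tm_even, tm_odd (k + 2)]
      cases tm (k + 2) <;> simp
    apply tm_noalt (2 * k + 1)
    push_cast at h0 h1 h2 h3 h4
    rw [add_zero, add_zero] at h0
    rw [show 2 * (i + 1) = 2 * i + 2 by ring, show 2 * i + 2 + 1 = 2 * i + 3 by ring, h2, h3] at e1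
    rw [h0, h1] at e0
    refine ⟨?_, ho1, ?_, ho2⟩
    · cases c <;> simpa using e0
    · cases c <;> simpa using e1

lemma sg_desub (p : ℤ → Bool) (he : E p) : sg (fun i => p (2 * i)) = p := by
  funext i
  rcases Int.even_or_odd' i with ⟨k, rfl | rfl⟩
  · rw [sg_even]
  · rw [sg_odd]
    have := he k
    cases h1 : p (2 * k) <;> cases h2 : p (2 * k + 1) <;> simp_all

lemma W_nonempty : ∃ p, W p := by
  refine ⟨fun i => if 0 ≤ i then !tm i.toNat else !tm (-i - 1).toNat, fun i n => ?_⟩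
  set k := i.natAbs + n with hk
  have hlt : k < 2 ^ (2 * k + 1) := by
    have h1 : k < 2 ^ k := Nat.lt_two_pow_self
    exact h1.trans_le (Nat.pow_le_pow_right (by norm_num) (by omega))
  refine ⟨false, ((2 ^ (2 * k + 1) : ℕ) + i).toNat, fun m hm => ?_⟩
  simp only [Bool.false_xor]
  set P := 2 ^ (2 * k + 1) with hP
  by_cases h : 0 ≤ i + m
  · rw [if_pos h]
    have h1 : ((P : ℕ) + i).toNat + m = P + (i + m).toNat := by omega
    rw [h1, hP, tm_add _ _ (by rw [← hP]; omega)]
  · rw [if_neg h]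
    have h1 : ((P : ℕ) + i).toNat + m = P - 1 - (-(i + m) - 1).toNat := by omega
    rw [h1, hP, tm_compl _ _ (by rw [← hP]; omega)]
    have : (2 * k + 1) % 2 = 1 := by omega
    simp [this]

/-! ### The subshift, its shift map and three involutions -/

/-- The left shift `T` on the Morse subshift, `(T p)_i = p_{i+1}`, as a homeomorphism. -/
def morseLeftShift : MorseShift ≃ₜ MorseShift where
  toFun p := ⟨fun i => p.1 (i + 1), (mem_iff _).2 (W_shift _ ((mem_iff _).1 p.2) 1)⟩
  invFun p := ⟨fun i => p.1 (i + -1), (mem_iff _).2 (W_shift _ ((mem_iff _).1 p.2) (-1))⟩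
  left_inv p := by
    apply Subtype.ext
    funext i
    show p.1 (i + -1 + 1) = p.1 i
    rw [show i + -1 + 1 = i by ring]
  right_inv p := by
    apply Subtype.ext
    funext i
    show p.1 (i + 1 + -1) = p.1 i
    rw [show i + 1 + -1 = i by ring]
  continuous_toFun := by
    apply Continuous.subtype_mk
    exact continuous_pi fun i => (continuous_apply (i + 1)).comp continuous_subtype_val
  continuous_invFun := by
    apply Continuous.subtype_mk
    exact continuous_pi fun i => (continuous_apply (i + -1)).comp continuous_subtype_val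

lemma T_apply (p : MorseShift) (i : ℤ) : (morseLeftShift p).1 i = p.1 (i + 1) := rfl
lemma Ti_apply (p : MorseShift) (i : ℤ) : (morseLeftShift⁻¹ p).1 i = p.1 (i + -1) := rfl

lemma T_Ti (p : MorseShift) : morseLeftShift (morseLeftShift⁻¹ p) = p := by
  rw [← Homeomorph.mul_apply, mul_inv_cancel, Homeomorph.one_apply]
lemma Ti_T (p : MorseShift) : morseLeftShift⁻¹ (morseLeftShift p) = p := by
  rw [← Homeomorph.mul_apply, inv_mul_cancel, Homeomorph.one_apply]

lemma invol_cont {Y : Type} [TopologicalSpace Y] (T : Y ≃ₜ Y) (k : Y → ℤ) (hk : Continuous k) :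
    Continuous (fun y => (T ^ k y) y) := by
  rw [continuous_iff_continuousAt]
  intro y
  have h1 : ∀ᶠ z in 𝓝 y, k z = k y := by
    have := hk.continuousAt (x := y)
    exact this.eventually (show ∀ᶠ m in 𝓝 (k y), m = k y by
      rw [nhds_discrete]; simp)
  have h2 : ContinuousAt (fun z => (T ^ k y) z) y := (T ^ k y).continuous.continuousAt
  exact h2.congr (h1.mono fun z hz => by simp [hz])

lemma invol_aux {Y : Type} [TopologicalSpace Y] (T : Y ≃ₜ Y) (k : Y → ℤ)
    (h : ∀ y, k ((T ^ k y) y) = - k y) (y : Y) :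
    (T ^ k ((T ^ k y) y)) ((T ^ k y) y) = y := by
  rw [h, ← Homeomorph.mul_apply, ← zpow_add, neg_add_cancel, zpow_zero, Homeomorph.one_apply]

/-- The homeomorphism `y ↦ T^{k(y)} y` for a continuous `k` with `k(T^{k(y)}y) = -k(y)`. -/
def invol {Y : Type} [TopologicalSpace Y] (T : Y ≃ₜ Y) (k : Y → ℤ) (hk : Continuous k)
    (h : ∀ y, k ((T ^ k y) y) = - k y) : Y ≃ₜ Y where
  toFun y := (T ^ k y) y
  invFun y := (T ^ k y) y
  left_inv y := invol_aux T k h y
  right_inv y := invol_aux T k h y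
  continuous_toFun := invol_cont T k hk
  continuous_invFun := invol_cont T k hk

lemma invol_apply {Y : Type} [TopologicalSpace Y] (T : Y ≃ₜ Y) (k : Y → ℤ) (hk : Continuous k)
    (h : ∀ y, k ((T ^ k y) y) = - k y) (y : Y) : invol T k hk h y = (T ^ k y) y := rfl

lemma invol_mul_self {Y : Type} [TopologicalSpace Y] (T : Y ≃ₜ Y) (k : Y → ℤ) (hk : Continuous k)
    (h : ∀ y, k ((T ^ k y) y) = - k y) : invol T k hk h * invol T k hk h = 1 := by
  ext y
  rw [Homeomorph.mul_apply, invol_apply, invol_apply, h, ← Homeomorph.mul_apply, ← zpow_add,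
    neg_add_cancel, zpow_zero]

lemma invol_mem {Y : Type} [TopologicalSpace Y] (T : Y ≃ₜ Y) (k : Y → ℤ) (hk : Continuous k)
    (h : ∀ y, k ((T ^ k y) y) = - k y) : invol T k hk h ∈ topologicalFullGroup T :=
  ⟨k, hk, fun _ => rfl⟩

/-- five coordinates -/
def co (p : MorseShift) : Bool × Bool × Bool × Bool × Bool := (p.1 (-1), p.1 0, p.1 1, p.1 2, p.1 3)

lemma co_cont : Continuous co := by
  unfold co
  have h : ∀ i, Continuous (fun p : MorseShift => p.1 i) := fun i =>
    (continuous_apply i).comp continuous_subtype_val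
  exact (h _).prodMk ((h _).prodMk ((h _).prodMk ((h _).prodMk (h _))))

lemma cont_of_co (f : Bool × Bool × Bool × Bool × Bool → ℤ) : Continuous (fun p => f (co p)) :=
  (continuous_of_discreteTopology (f := f)).comp co_cont

lemma Wp (p : MorseShift) : W p.1 := (mem_iff _).1 p.2

lemma E_iff (p : MorseShift) : Z p.1 ↔ E p.1 := ⟨E_of_Z _ (Wp p), Z_of_E _⟩
lemma O_iff (p : MorseShift) : ¬ Z p.1 ↔ O p.1 := ⟨O_of_not_Z _ (Wp p), not_Z_of_O _ (Wp p)⟩

lemma Z_T (p : MorseShift) : Z (morseLeftShift p).1 ↔ ¬ Z p.1 := by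
  rw [E_iff, O_iff]
  constructor
  · intro h i
    have := h (i - 1)
    rw [T_apply, T_apply] at this
    ring_nf at this ⊢
    exact this
  · intro h i
    have := h (i + 1)
    rw [T_apply, T_apply]
    ring_nf at this ⊢
    exact this

lemma Z_Ti (p : MorseShift) : Z (morseLeftShift⁻¹ p).1 ↔ ¬ Z p.1 := by
  have := Z_T (morseLeftShift⁻¹ p)
  rw [T_Ti] at this
  tauto

lemma Z_ne (p : MorseShift) (h : Z p.1) : p.1 0 ≠ p.1 1 := h.1
lemma nZ_ne (p : MorseShift) (h : ¬ Z p.1) : p.1 (-1) ≠ p.1 0 := by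
  have := (O_iff p).1 h 0
  simpa using this

/-- cocycles -/
def kA (p : MorseShift) : ℤ := if Z p.1 then 1 else -1
def kX (p : MorseShift) : ℤ := if p.1 0 = p.1 1 then 1 else if p.1 (-1) = p.1 0 then -1 else 0
def kY (p : MorseShift) : ℤ := if ¬ Z p.1 ∧ p.1 0 ≠ p.1 1 then 1 else
  if Z p.1 ∧ p.1 (-1) ≠ p.1 0 then -1 else 0

lemma kA_cont : Continuous kA :=
  cont_of_co (fun v => if v.2.1 ≠ v.2.2.1 ∧ v.2.2.2.1 ≠ v.2.2.2.2 then 1 else -1)
lemma kX_cont : Continuous kX :=
  cont_of_co (fun v => if v.2.1 = v.2.2.1 then 1 else if v.1 = v.2.1 then -1 else 0)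
lemma kY_cont : Continuous kY :=
  cont_of_co (fun v => if ¬ (v.2.1 ≠ v.2.2.1 ∧ v.2.2.2.1 ≠ v.2.2.2.2) ∧ v.2.1 ≠ v.2.2.1 then 1 else
    if (v.2.1 ≠ v.2.2.1 ∧ v.2.2.2.1 ≠ v.2.2.2.2) ∧ v.1 ≠ v.2.1 then -1 else 0)

lemma kA_inv (p : MorseShift) : kA ((morseLeftShift ^ kA p) p) = - kA p := by
  by_cases h : Z p.1
  · have h1 : kA p = 1 := by simp [kA, h]
    have h2 : ¬ Z (morseLeftShift p).1 := by rw [Z_T]; simpa using h
    rw [h1, zpow_one]
    simp [kA, h2]
  · have h1 : kA p = -1 := by simp [kA, h]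
    have h2 : Z (morseLeftShift⁻¹ p).1 := by rw [Z_Ti]; exact h
    rw [h1, zpow_neg_one, kA, if_pos h2]; rfl

lemma kX_inv (p : MorseShift) : kX ((morseLeftShift ^ kX p) p) = - kX p := by
  by_cases h : p.1 0 = p.1 1
  · have h1 : kX p = 1 := by simp [kX, h]
    have h2 := nocube p.1 (Wp p) 0
    norm_num at h2
    have h3 := h2 h
    rw [h1, zpow_one]
    simp [kX, T_apply, h]
    simpa using h3
  · by_cases h' : p.1 (-1) = p.1 0
    · have h1 : kX p = -1 := by simp [kX, h, h']
      have h2 : (morseLeftShift⁻¹ p).1 0 = (morseLeftShift⁻¹ p).1 1 := by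
        rw [Ti_apply, Ti_apply]; simpa using h'
      rw [h1, zpow_neg_one, kX, if_pos h2]; rfl
    · have h1 : kX p = 0 := by simp [kX, h, h']
      rw [h1, zpow_zero, Homeomorph.one_apply, h1]; rfl

lemma kY_inv (p : MorseShift) : kY ((morseLeftShift ^ kY p) p) = - kY p := by
  by_cases h : ¬ Z p.1 ∧ p.1 0 ≠ p.1 1
  · have h1 : kY p = 1 := by rw [kY, if_pos h]
    have h2 : Z (morseLeftShift p).1 := by rw [Z_T]; exact h.1
    have h3 : (morseLeftShift p).1 (-1) ≠ (morseLeftShift p).1 0 := by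
      rw [T_apply, T_apply]; simpa using h.2
    rw [h1, zpow_one, kY, if_neg (by tauto), if_pos ⟨h2, h3⟩]
  · by_cases h' : Z p.1 ∧ p.1 (-1) ≠ p.1 0
    · have h1 : kY p = -1 := by rw [kY, if_neg h, if_pos h']
      have h2 : ¬ Z (morseLeftShift⁻¹ p).1 := by rw [Z_Ti]; simpa using h'.1
      have h3 : (morseLeftShift⁻¹ p).1 0 ≠ (morseLeftShift⁻¹ p).1 1 := by
        rw [Ti_apply, Ti_apply]; simpa using h'.2
      rw [h1, zpow_neg_one, kY, if_pos ⟨h2, h3⟩]; rfl
    · have h1 : kY p = 0 := by rw [kY, if_neg h, if_neg h']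
      rw [h1, zpow_zero, Homeomorph.one_apply, h1]; rfl

/-- the three involutions -/
def gA : MorseShift ≃ₜ MorseShift := invol morseLeftShift kA kA_cont kA_inv
def gX : MorseShift ≃ₜ MorseShift := invol morseLeftShift kX kX_cont kX_inv
def gY : MorseShift ≃ₜ MorseShift := invol morseLeftShift kY kY_cont kY_inv

lemma gA_pos (p : MorseShift) (h : Z p.1) : gA p = morseLeftShift p := by
  show (morseLeftShift ^ kA p) p = _
  simp [kA, h]
lemma gA_neg (p : MorseShift) (h : ¬ Z p.1) : gA p = morseLeftShift⁻¹ p := by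
  show (morseLeftShift ^ kA p) p = _
  simp [kA, h]
lemma gX_1 (p : MorseShift) (h : p.1 0 = p.1 1) : gX p = morseLeftShift p := by
  show (morseLeftShift ^ kX p) p = _
  simp [kX, h]
lemma gX_2 (p : MorseShift) (h : p.1 0 ≠ p.1 1) (h' : p.1 (-1) = p.1 0) : gX p = morseLeftShift⁻¹ p := by
  show (morseLeftShift ^ kX p) p = _
  simp [kX, h, h']
lemma gX_3 (p : MorseShift) (h : p.1 0 ≠ p.1 1) (h' : p.1 (-1) ≠ p.1 0) : gX p = p := by
  show (morseLeftShift ^ kX p) p = _
  simp [kX, h, h']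
lemma gY_1 (p : MorseShift) (h : ¬ Z p.1) (h' : p.1 0 ≠ p.1 1) : gY p = morseLeftShift p := by
  show (morseLeftShift ^ kY p) p = _
  rw [kY, if_pos ⟨h, h'⟩, zpow_one]
lemma gY_2 (p : MorseShift) (h : ¬ Z p.1) (h' : p.1 0 = p.1 1) : gY p = p := by
  show (morseLeftShift ^ kY p) p = _
  rw [kY, if_neg (by tauto), if_neg (by tauto), zpow_zero]; rfl
lemma gY_3 (p : MorseShift) (h : Z p.1) (h' : p.1 (-1) ≠ p.1 0) : gY p = morseLeftShift⁻¹ p := by
  show (morseLeftShift ^ kY p) p = _
  rw [kY, if_neg (by tauto), if_pos ⟨h, h'⟩, zpow_neg_one]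
lemma gY_4 (p : MorseShift) (h : Z p.1) (h' : p.1 (-1) = p.1 0) : gY p = p := by
  show (morseLeftShift ^ kY p) p = _
  rw [kY, if_neg (by tauto), if_neg (by tauto), zpow_zero]; rfl

/-- substitution on the subshift -/
def sgX (p : MorseShift) : MorseShift := ⟨sg p.1, (mem_iff _).2 (W_sg _ (Wp p))⟩

lemma sgX_m1 (p : MorseShift) : (sgX p).1 (-1) = !p.1 (-1) := by
  have := sg_odd p.1 (-1)
  norm_num at this
  exact this
lemma sgX_0 (p : MorseShift) : (sgX p).1 0 = p.1 0 := by
  have := sg_even p.1 0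
  norm_num at this
  exact this
lemma sgX_1 (p : MorseShift) : (sgX p).1 1 = !p.1 0 := by
  have := sg_odd p.1 0
  norm_num at this
  exact this
lemma sgX_2 (p : MorseShift) : (sgX p).1 2 = p.1 1 := by
  have := sg_even p.1 1
  norm_num at this
  exact this

lemma Z_sgX (p : MorseShift) : Z (sgX p).1 := (E_iff _).2 (E_sg _)
lemma nZ_TsgX (p : MorseShift) : ¬ Z (morseLeftShift (sgX p)).1 := by
  rw [Z_T]; simpa using Z_sgX p

lemma sgX_T (p : MorseShift) : sgX (morseLeftShift p) = morseLeftShift (morseLeftShift (sgX p)) := by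
  apply Subtype.ext
  funext i
  rw [T_apply, T_apply]
  show sg (fun i => p.1 (i + 1)) i = sg p.1 (i + 1 + 1)
  rcases Int.even_or_odd' i with ⟨k, rfl | rfl⟩
  · rw [sg_even, show 2 * k + 1 + 1 = 2 * (k + 1) by ring, sg_even]
  · rw [sg_odd, show 2 * k + 1 + 1 + 1 = 2 * (k + 1) + 1 by ring, sg_odd]

lemma sgX_Ti (p : MorseShift) : sgX (morseLeftShift⁻¹ p) = morseLeftShift⁻¹ (morseLeftShift⁻¹ (sgX p)) := by
  have h := sgX_T (morseLeftShift⁻¹ p)
  rw [T_Ti] at h
  rw [h, Ti_T, Ti_T]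

lemma sgX_inj : Function.Injective sgX := by
  intro p q h
  apply Subtype.ext
  funext i
  have h1 : sg p.1 = sg q.1 := congrArg Subtype.val h
  have h2 := congrFun h1 (2 * i)
  rwa [sg_even, sg_even] at h2

def tau (i : Bool) (p : MorseShift) : MorseShift :=
  if xor i (decide (Z p.1)) = true then sgX p else morseLeftShift (sgX p)

lemma tau_0_pos (p : MorseShift) (h : Z p.1) : tau false p = sgX p := by simp [tau, h]
lemma tau_0_neg (p : MorseShift) (h : ¬ Z p.1) : tau false p = morseLeftShift (sgX p) := by simp [tau, h]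
lemma tau_1_pos (p : MorseShift) (h : Z p.1) : tau true p = morseLeftShift (sgX p) := by simp [tau, h]
lemma tau_1_neg (p : MorseShift) (h : ¬ Z p.1) : tau true p = sgX p := by simp [tau, h]

lemma tau_inj (i j : Bool) (p q : MorseShift) (h : tau i p = tau j q) : i = j ∧ p = q := by
  have hZ : ∀ i p, Z (tau i p).1 ↔ xor i (decide (Z p.1)) = true := by
    intro i p
    unfold tau
    split_ifs with h
    · exact ⟨fun _ => h, fun _ => Z_sgX p⟩
    · exact ⟨fun h' => absurd h' (nZ_TsgX p), fun h' => absurd h' h⟩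
  have h1 : (xor i (decide (Z p.1)) = true) ↔ (xor j (decide (Z q.1)) = true) := by
    rw [← hZ, ← hZ, h]
  have hpq : p = q := by
    apply sgX_inj
    unfold tau at h
    by_cases h2 : xor i (decide (Z p.1)) = true
    · rw [if_pos h2, if_pos (h1.1 h2)] at h
      exact h
    · rw [if_neg h2, if_neg (fun h3 => h2 (h1.2 h3))] at h
      exact morseLeftShift.injective h
  subst hpq
  refine ⟨?_, rfl⟩
  by_cases h3 : Z p.1 <;> cases i <;> cases j <;> simp_all

lemma tau_cov_aux (p : MorseShift) (h : Z p.1) : ∃ q, sgX q = p := by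
  refine ⟨⟨fun i => p.1 (2 * i), (mem_iff _).2 (W_desub _ (Wp p) ((E_iff p).1 h))⟩, ?_⟩
  apply Subtype.ext
  exact sg_desub _ ((E_iff p).1 h)

lemma tau_cov (p : MorseShift) : ∃ i q, tau i q = p := by
  by_cases h : Z p.1
  · obtain ⟨q, rfl⟩ := tau_cov_aux p h
    by_cases hq : Z q.1
    · exact ⟨false, q, tau_0_pos q hq⟩
    · exact ⟨true, q, tau_1_neg q hq⟩
  · have h1 : Z (morseLeftShift⁻¹ p).1 := by rw [Z_Ti]; exact h
    obtain ⟨q, hq'⟩ := tau_cov_aux _ h1
    have h2 : p = morseLeftShift (sgX q) := by rw [hq', T_Ti]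
    by_cases hq : Z q.1
    · exact ⟨true, q, by rw [tau_1_pos q hq, h2]⟩
    · exact ⟨false, q, by rw [tau_0_neg q hq, h2]⟩

lemma rel_a (i : Bool) (p : MorseShift) : gA (tau i p) = tau (!i) p := by
  by_cases h : Z p.1 <;> cases i <;> simp only [Bool.not_false, Bool.not_true]
  · rw [tau_0_pos p h, tau_1_pos p h, gA_pos _ (Z_sgX p)]
  · rw [tau_0_pos p h, tau_1_pos p h, gA_neg _ (nZ_TsgX p), Ti_T]
  · rw [tau_0_neg p h, tau_1_neg p h, gA_neg _ (nZ_TsgX p), Ti_T]
  · rw [tau_0_neg p h, tau_1_neg p h, gA_pos _ (Z_sgX p)]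

lemma T_sgX_m1 (p : MorseShift) : (morseLeftShift (sgX p)).1 (-1) = p.1 0 := by
  rw [T_apply]; exact sgX_0 p
lemma T_sgX_0 (p : MorseShift) : (morseLeftShift (sgX p)).1 0 = !p.1 0 := by
  rw [T_apply]; exact sgX_1 p
lemma T_sgX_1 (p : MorseShift) : (morseLeftShift (sgX p)).1 1 = p.1 1 := by
  rw [T_apply]; exact sgX_2 p

lemma bne {u v : Bool} (h : u ≠ v) : (!u) = v := by cases u <;> cases v <;> simp_all

lemma rel_x0 (p : MorseShift) : gX (tau false p) = tau false (gY p) := by
  by_cases h : Z p.1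
  · rw [tau_0_pos p h]
    have h1 : (sgX p).1 0 ≠ (sgX p).1 1 := by rw [sgX_0, sgX_1]; cases p.1 0 <;> simp
    by_cases h' : p.1 (-1) = p.1 0
    · rw [gY_4 p h h', tau_0_pos p h, gX_3 _ h1 (by rw [sgX_m1, sgX_0, h']; cases p.1 0 <;> simp)]
    · rw [gY_3 p h h', gX_2 _ h1 (by rw [sgX_m1, sgX_0]; exact bne h'),
        tau_0_neg _ (by rw [Z_Ti]; simpa using h), sgX_Ti, T_Ti]
  · rw [tau_0_neg p h]
    by_cases h' : p.1 0 = p.1 1
    · rw [gY_2 p h h', tau_0_neg p h, gX_3 _ (by rw [T_sgX_0, T_sgX_1, h']; cases p.1 1 <;> simp)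
        (by rw [T_sgX_m1, T_sgX_0]; cases p.1 0 <;> simp)]
    · rw [gY_1 p h h', gX_1 _ (by rw [T_sgX_0, T_sgX_1]; exact bne h'),
        tau_0_pos _ (by rw [Z_T]; exact h), sgX_T]

lemma rel_x1 (p : MorseShift) : gX (tau true p) = tau true (gA p) := by
  by_cases h : Z p.1
  · rw [tau_1_pos p h, gA_pos p h, tau_1_neg _ (by rw [Z_T]; simpa using h), sgX_T,
      gX_1 _ (by rw [T_sgX_0, T_sgX_1]; exact bne (Z_ne p h))]
  · rw [tau_1_neg p h, gA_neg p h, tau_1_pos _ (by rw [Z_Ti]; exact h), sgX_Ti, T_Ti,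
      gX_2 _ (by rw [sgX_0, sgX_1]; cases p.1 0 <;> simp)
        (by rw [sgX_m1, sgX_0]; exact bne (nZ_ne p h))]

lemma rel_y0 (p : MorseShift) : gY (tau false p) = tau false (gX p) := by
  by_cases h : Z p.1
  · rw [tau_0_pos p h]
    have h0 := Z_ne p h
    by_cases h' : p.1 (-1) = p.1 0
    · rw [gX_2 p h0 h', gY_3 _ (Z_sgX p) (by rw [sgX_m1, sgX_0, h']; cases p.1 0 <;> simp),
        tau_0_neg _ (by rw [Z_Ti]; simpa using h), sgX_Ti, T_Ti]
    · rw [gX_3 p h0 h', tau_0_pos p h, gY_4 _ (Z_sgX p) (by rw [sgX_m1, sgX_0]; exact bne h')]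
  · rw [tau_0_neg p h]
    have h0 := nZ_ne p h
    by_cases h' : p.1 0 = p.1 1
    · rw [gX_1 p h', gY_1 _ (nZ_TsgX p) (by rw [T_sgX_0, T_sgX_1, h']; cases p.1 1 <;> simp),
        tau_0_pos _ (by rw [Z_T]; exact h), sgX_T]
    · rw [gX_3 p h' h0, tau_0_neg p h, gY_2 _ (nZ_TsgX p) (by rw [T_sgX_0, T_sgX_1]; exact bne h')]

lemma rel_y1 (p : MorseShift) : gY (tau true p) = tau true p := by
  by_cases h : Z p.1
  · rw [tau_1_pos p h, gY_2 _ (nZ_TsgX p) (by rw [T_sgX_0, T_sgX_1]; exact bne (Z_ne p h))]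
  · rw [tau_1_neg p h, gY_4 _ (Z_sgX p) (by rw [sgX_m1, sgX_0]; exact bne (nZ_ne p h))]

/-- disjoint supports -/
lemma gY_fix_of (p : MorseShift) (h : p.1 0 = p.1 1 ∨ p.1 (-1) = p.1 0) : gY p = p := by
  by_cases hz : Z p.1
  · have h0 := Z_ne p hz
    exact gY_4 p hz (by tauto)
  · have h0 := nZ_ne p hz
    exact gY_2 p hz (by tauto)

lemma comm_xy : gX * gY = gY * gX := by
  ext p : 1
  rw [Homeomorph.mul_apply, Homeomorph.mul_apply]
  by_cases h : p.1 0 = p.1 1 ∨ p.1 (-1) = p.1 0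
  · rw [gY_fix_of p h]
    symm
    apply gY_fix_of
    by_cases h1 : p.1 0 = p.1 1
    · right
      rw [gX_1 p h1, T_apply, T_apply]
      simpa using h1
    · left
      have h2 : p.1 (-1) = p.1 0 := by tauto
      rw [gX_2 p h1 h2, Ti_apply, Ti_apply]
      simpa using h2
  · push Not at h
    rw [gX_3 p h.1 h.2]
    by_cases hz : Z p.1
    · have h3 := gY_3 p hz h.2
      rw [h3]
      have hz' : ¬ Z (morseLeftShift⁻¹ p).1 := by rw [Z_Ti]; simpa using hz
      apply gX_3
      · rw [Ti_apply, Ti_apply]; simpa using h.2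
      · exact nZ_ne _ hz'
    · have h3 := gY_1 p hz h.1
      rw [h3]
      have hz' : Z (morseLeftShift p).1 := by rw [Z_T]; exact hz
      apply gX_3
      · exact Z_ne _ hz'
      · rw [T_apply, T_apply]; simpa using h.1

/-- The group generated by the three involutions. -/
def H : Subgroup (MorseShift ≃ₜ MorseShift) := Subgroup.closure {gA, gX, gY}

lemma H_le : H ≤ topologicalFullGroup morseLeftShift := by
  unfold H
  rw [Subgroup.closure_le]
  rintro g (rfl | rfl | rfl)
  · exact invol_mem _ _ _ _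
  · exact invol_mem _ _ _ _
  · exact invol_mem _ _ _ _

lemma gA_mem : gA ∈ H := Subgroup.subset_closure (by simp)
lemma gX_mem : gX ∈ H := Subgroup.subset_closure (by simp)
lemma gY_mem : gY ∈ H := Subgroup.subset_closure (by simp)

/-- The self-similar structure. -/
def morseSS : Pool.Agent.helper2.MorseIG.SS H MorseShift where
  φ := { toFun := fun g => g.1.toEquiv, map_one' := rfl, map_mul' := fun _ _ => rfl }
  inj := by
    intro g h hgh
    apply Subtype.ext
    exact Homeomorph.toEquiv_injective hgh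
  ne := by
    obtain ⟨p, hp⟩ := W_nonempty
    exact ⟨⟨p, (mem_iff p).2 hp⟩⟩
  τ := tau
  τinj := tau_inj
  τcov := tau_cov
  a := ⟨gA, gA_mem⟩
  x := ⟨gX, gX_mem⟩
  y := ⟨gY, gY_mem⟩
  gen := by
    have h := Subgroup.closure_closure_coe_preimage (k := ({gA, gX, gY} : Set (MorseShift ≃ₜ MorseShift)))
    have h2 : ((↑) ⁻¹' ({gA, gX, gY} : Set (MorseShift ≃ₜ MorseShift)) : Set H)
        = {⟨gA, gA_mem⟩, ⟨gX, gX_mem⟩, ⟨gY, gY_mem⟩} := by
      ext g
      simp [Subtype.ext_iff]
    rw [← h2]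
    exact h
  aa := Subtype.ext (invol_mul_self _ _ kA_cont kA_inv)
  xx := Subtype.ext (invol_mul_self _ _ kX_cont kX_inv)
  yy := Subtype.ext (invol_mul_self _ _ kY_cont kY_inv)
  xy := Subtype.ext comm_xy
  ha := rel_a
  hx0 := rel_x0
  hx1 := rel_x1
  hy0 := rel_y0
  hy1 := rel_y1

/-- The topological full group of the Morse subshift contains a finitely generated subgroup of
intermediate growth. -/
theorem result : ∃ H : Subgroup (MorseShift ≃ₜ MorseShift),
    H ≤ topologicalFullGroup morseLeftShift ∧ IntermediateGrowth H :=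
  ⟨H, H_le, intermediate_of_SS morseSS⟩

end Pool.Agent.helper2.Morse5
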