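import Mathlib
open MeasureTheory Set
open scoped Pointwise

namespace Pool.Agent.helper2.BV

/-- Projection forgetting the last coordinate. -/
def pr (m : ℕ) : (Fin (m+1) → ℝ) →ₗ[ℝ] (Fin m → ℝ) := LinearMap.funLeft ℝ ℝ Fin.castSucc

lemma pr_apply (m : ℕ) (x : Fin (m+1) → ℝ) (i : Fin m) : pr m x i = x i.castSucc := rfl

/-- Section of `pr` with values in the hyperplane of coordinate sum zero. -/
def lf (m : ℕ) : (Fin m → ℝ) →ₗ[ℝ] (Fin (m+1) → ℝ) where
  toFun y := Fin.snoc (α := fun _ => ℝ) y (- ∑ i, y i)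
  map_add' x y := by
    ext i
    refine Fin.lastCases ?_ (fun i => ?_) i
    · simp [Finset.sum_add_distrib]; ring
    · simp
  map_smul' c x := by
    ext i
    refine Fin.lastCases ?_ (fun i => ?_) i
    · simp [Finset.mul_sum]
    · simp

lemma lf_castSucc (m : ℕ) (y : Fin m → ℝ) (i : Fin m) : lf m y i.castSucc = y i := by
  simp [lf]

lemma lf_last (m : ℕ) (y : Fin m → ℝ) : lf m y (Fin.last m) = - ∑ i, y i := by
  simp [lf]

lemma sum_lf (m : ℕ) (y : Fin m → ℝ) : ∑ i, lf m y i = 0 := by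
  rw [Fin.sum_univ_castSucc, lf_last]
  simp [lf_castSucc]

lemma pr_lf (m : ℕ) (y : Fin m → ℝ) : pr m (lf m y) = y := by
  ext i; simp [pr_apply, lf_castSucc]

lemma lf_pr (m : ℕ) (x : Fin (m+1) → ℝ) (hx : ∑ i, x i = 0) : lf m (pr m x) = x := by
  ext i
  refine Fin.lastCases ?_ (fun i => ?_) i
  · rw [lf_last]
    rw [Fin.sum_univ_castSucc] at hx
    simp only [pr_apply]
    linarith
  · rw [lf_castSucc, pr_apply]

/-- The action of a permutation of the coordinates, read in the hyperplane of sum zero. -/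
def permL (m : ℕ) (σ : Equiv.Perm (Fin (m+1))) : (Fin m → ℝ) →ₗ[ℝ] (Fin m → ℝ) :=
  (pr m) ∘ₗ (LinearMap.funLeft ℝ ℝ σ) ∘ₗ (lf m)

lemma permL_mul (m : ℕ) (σ τ : Equiv.Perm (Fin (m+1))) :
    permL m σ * permL m τ = permL m (τ * σ) := by
  apply LinearMap.ext
  intro y
  show pr m (LinearMap.funLeft ℝ ℝ σ (lf m (pr m (LinearMap.funLeft ℝ ℝ τ (lf m y))))) = _
  rw [lf_pr]
  · rfl
  · have := sum_lf m y
    rw [← Equiv.sum_comp τ] at this
    exact this

lemma permL_one (m : ℕ) : permL m 1 = 1 := by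
  apply LinearMap.ext
  intro y
  exact pr_lf m y

lemma permL_pow (m : ℕ) (σ : Equiv.Perm (Fin (m+1))) (k : ℕ) :
    permL m σ ^ k = permL m (σ ^ k) := by
  induction k with
  | zero => simp [permL_one]
  | succ k ih => rw [pow_succ, ih, permL_mul, ← pow_succ']

lemma abs_det_permL (m : ℕ) (σ : Equiv.Perm (Fin (m+1))) : |LinearMap.det (permL m σ)| = 1 := by
  have h : (LinearMap.det (permL m σ)) ^ (orderOf σ) = 1 := by
    rw [← map_pow, permL_pow, pow_orderOf_eq_one, permL_one, map_one]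
  have h2 : |LinearMap.det (permL m σ)| ^ (orderOf σ) = 1 := by
    rw [← abs_pow, h, abs_one]
  exact (pow_eq_one_iff_of_nonneg (abs_nonneg _) (orderOf_pos σ).ne').1 h2

/-- The volume of the projection of a set forgetting the last coordinate. -/
noncomputable def V (m : ℕ) (X : Set (Fin (m+1) → ℝ)) : ENNReal := volume (pr m '' X)

lemma V_perm (m : ℕ) (σ : Equiv.Perm (Fin (m+1))) (κ : ℝ) (X : Set (Fin (m+1) → ℝ))
    (hX : ∀ x ∈ X, ∑ i, x i = κ) : V m ((fun x => x ∘ σ) '' X) = V m X := by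
  set e : Fin (m+1) → ℝ := Pi.single (Fin.last m) κ with he
  set w : Fin m → ℝ := pr m (e ∘ σ) with hw
  have key : pr m '' ((fun x => x ∘ σ) '' X) = (fun y => w + y) '' (permL m σ '' (pr m '' X)) := by
    rw [image_image, image_image, image_image]
    apply image_congr
    intro x hx
    have h1 : x = e + lf m (pr m x) := by
      have h0 : ∑ i, (x - e) i = 0 := by
        simp [he, Finset.sum_sub_distrib, hX x hx]
      have h2 := lf_pr m (x - e) h0
      have h3 : pr m (x - e) = pr m x := by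
        ext i
        simp [pr_apply, he, (Fin.castSucc_lt_last i).ne]
      rw [h3] at h2
      rw [h2]; abel
    show pr m (x ∘ σ) = pr m (e ∘ σ) + pr m (LinearMap.funLeft ℝ ℝ σ (lf m (pr m x)))
    rw [← map_add]
    congr 1
    ext i
    have := congrFun h1 (σ i)
    simpa using this
  unfold V
  rw [key, image_add_left, measure_preimage_add, Measure.addHaar_image_linearMap, abs_det_permL]
  simp

/-- The pyramid over `F` with apex `c`. -/
def pyr {m : ℕ} (c : Fin m → ℝ) (F : Set (Fin m → ℝ)) : Set (Fin m → ℝ) :=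
  {x | ∃ t ∈ Icc (0:ℝ) 1, ∃ y ∈ F, x = (1 - t) • c + t • y}

lemma pyr_eq_image {m : ℕ} (c : Fin m → ℝ) (F : Set (Fin m → ℝ)) :
    pyr c F = (fun p : ℝ × (Fin m → ℝ) => (1 - p.1) • c + p.1 • p.2) '' (Icc (0:ℝ) 1 ×ˢ F) := by
  ext x
  constructor
  · rintro ⟨t, ht, y, hy, rfl⟩
    exact ⟨(t, y), ⟨ht, hy⟩, rfl⟩
  · rintro ⟨⟨t, y⟩, ⟨ht, hy⟩, rfl⟩
    exact ⟨t, ht, y, hy, rfl⟩

lemma isCompact_pyr {m : ℕ} (c : Fin m → ℝ) (F : Set (Fin m → ℝ)) (hF : IsCompact F) :
    IsCompact (pyr c F) := by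
  rw [pyr_eq_image]
  apply (isCompact_Icc.prod hF).image
  fun_prop

lemma continuous_cons {m : ℕ} (v : ℝ) :
    Continuous (fun y : Fin m → ℝ => (Fin.cons v y : Fin (m+1) → ℝ)) := by
  apply continuous_pi
  intro i
  refine Fin.cases ?_ (fun i => ?_) i
  · simp only [Fin.cons_zero]; exact continuous_const
  · simp only [Fin.cons_succ]; exact continuous_apply i

/-- volume of the standard cone -/
lemma volume_pyr_zero_one (m : ℕ) (K : Set (Fin m → ℝ)) (hK : IsCompact K) :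
    volume (pyr (0 : Fin (m+1) → ℝ) ((fun y => Fin.cons 1 y) '' K)) * (m + 1 : ℕ) = volume K := by
  set S : Set (Fin (m+1) → ℝ) := pyr (0 : Fin (m+1) → ℝ) ((fun y => Fin.cons 1 y) '' K) with hS
  have hSc : IsCompact S := isCompact_pyr _ _ (hK.image (continuous_cons 1))
  have hmem : ∀ (t : ℝ) (y : Fin m → ℝ),
      (Fin.cons t y : Fin (m+1) → ℝ) ∈ S ↔ (t ∈ Icc (0:ℝ) 1 ∧ y ∈ t • K) := by
    intro t y
    constructor
    · rintro ⟨s, hs, z, ⟨k, hk, rfl⟩, h⟩
      have h0 := congrFun h 0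
      simp at h0
      subst h0
      refine ⟨hs, k, hk, ?_⟩
      ext i
      have := congrFun h i.succ
      simpa using this.symm
    · rintro ⟨ht, k, hk, rfl⟩
      refine ⟨t, ht, _, ⟨k, hk, rfl⟩, ?_⟩
      ext i
      refine Fin.cases ?_ (fun i => ?_) i <;> simp
  have hmp := (volume_preserving_piFinSuccAbove (fun _ : Fin (m+1) => ℝ) 0).symm
  have h1 : volume S = volume ((MeasurableEquiv.piFinSuccAbove (fun _ : Fin (m+1) => ℝ) 0).symm ⁻¹' S) :=
    (hmp.measure_preimage_equiv S).symm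
  have hme : MeasurableSet ((MeasurableEquiv.piFinSuccAbove (fun _ : Fin (m+1) => ℝ) 0).symm ⁻¹' S) :=
    (MeasurableEquiv.measurable _) hSc.measurableSet
  rw [h1, Measure.volume_eq_prod, Measure.prod_apply hme]
  have h2 : ∀ t : ℝ, volume (Prod.mk t ⁻¹' ((MeasurableEquiv.piFinSuccAbove (fun _ : Fin (m+1) => ℝ) 0).symm ⁻¹' S))
      = (Icc (0:ℝ) 1).indicator (fun t => ENNReal.ofReal (t ^ m) * volume K) t := by
    intro t
    have h3 : (Prod.mk t ⁻¹' ((MeasurableEquiv.piFinSuccAbove (fun _ : Fin (m+1) => ℝ) 0).symm ⁻¹' S))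
        = {y | (Fin.cons t y : Fin (m+1) → ℝ) ∈ S} := by
      ext y
      rw [mem_preimage, mem_preimage, mem_ofPred_eq]
      show (Fin.insertNth (0 : Fin (m+1)) t y : Fin (m+1) → ℝ) ∈ S ↔ _
      rw [Fin.insertNth_zero']
    rw [h3]
    by_cases ht : t ∈ Icc (0:ℝ) 1
    · rw [indicator_of_mem ht]
      have : {y | (Fin.cons t y : Fin (m+1) → ℝ) ∈ S} = t • K := by
        ext y
        rw [mem_ofPred_eq, hmem]
        simp [ht.1, ht.2]
      rw [this, Measure.addHaar_smul, Module.finrank_fin_fun, abs_of_nonneg (pow_nonneg ht.1 _)]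
    · rw [indicator_of_notMem ht]
      have : {y | (Fin.cons t y : Fin (m+1) → ℝ) ∈ S} = ∅ := by
        ext y
        rw [mem_ofPred_eq, hmem]
        simp [ht]
      rw [this, measure_empty]
  simp_rw [h2]
  rw [lintegral_indicator measurableSet_Icc, lintegral_mul_const]
  · have h4 : ∫⁻ t in Icc (0:ℝ) 1, ENNReal.ofReal (t ^ m) = ENNReal.ofReal (1 / (m+1)) := by
      rw [← ofReal_integral_eq_lintegral_ofReal]
      · rw [integral_Icc_eq_integral_Ioc, ← intervalIntegral.integral_of_le zero_le_one, integral_pow]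
        simp
      · exact (continuous_pow m).continuousOn.integrableOn_compact isCompact_Icc
      · filter_upwards [ae_restrict_mem measurableSet_Icc] with t ht
        exact pow_nonneg ht.1 _
    rw [h4]
    rw [mul_right_comm]
    have h5 : ENNReal.ofReal (1 / (m+1)) * ((m+1 : ℕ) : ENNReal) = 1 := by
      rw [← ENNReal.ofReal_natCast, ← ENNReal.ofReal_mul (by positivity)]
      push_cast
      rw [one_div_mul_cancel (by positivity)]
      simp
    rw [h5, one_mul]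
  · exact (ENNReal.measurable_ofReal.comp (measurable_id.pow_const m))

lemma volume_pyr_cons (m : ℕ) (c : Fin (m+1) → ℝ) (v : ℝ) (hv : |v - c 0| = 1)
    (K : Set (Fin m → ℝ)) (hK : IsCompact K) :
    volume (pyr c ((fun y => Fin.cons v y) '' K)) * (m + 1 : ℕ) = volume K := by
  -- translate the apex to the origin
  set c' : Fin m → ℝ := fun i => c i.succ with hc'
  have htr : pyr c ((fun y => Fin.cons v y) '' K) = (fun x => c + x) ''
      (pyr (0 : Fin (m+1) → ℝ) ((fun y => Fin.cons (v - c 0) y) '' ((fun y => - c' + y) '' K))) := by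
    ext x
    constructor
    · rintro ⟨t, ht, _, ⟨k, hk, rfl⟩, rfl⟩
      refine ⟨t • (Fin.cons (v - c 0) (- c' + k) : Fin (m+1) → ℝ), ⟨t, ht, _, ⟨_, ⟨k, hk, rfl⟩, rfl⟩, ?_⟩, ?_⟩
      · simp
      · ext i
        refine Fin.cases ?_ (fun i => ?_) i
        · simp; ring
        · simp [hc']; ring
    · rintro ⟨_, ⟨t, ht, _, ⟨_, ⟨k, hk, rfl⟩, rfl⟩, rfl⟩, rfl⟩
      refine ⟨t, ht, _, ⟨k, hk, rfl⟩, ?_⟩
      ext i
      refine Fin.cases ?_ (fun i => ?_) i
      · simp; ring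
      · simp [hc']; ring
  have hK' : IsCompact ((fun y => - c' + y) '' K) := hK.image (by fun_prop)
  have hKv : volume ((fun y => - c' + y) '' K) = volume K := by
    rw [image_add_left, measure_preimage_add]
  rw [htr, image_add_left, measure_preimage_add]
  rcases (abs_eq zero_le_one).1 hv with h | h
  · rw [h, volume_pyr_zero_one m _ hK', hKv]
  · have hneg : pyr (0 : Fin (m+1) → ℝ) ((fun y => Fin.cons (v - c 0) y) '' ((fun y => - c' + y) '' K))
        = - pyr (0 : Fin (m+1) → ℝ) ((fun y => Fin.cons 1 y) '' (-((fun y => - c' + y) '' K))) := by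
      ext x
      rw [Set.mem_neg]
      constructor
      · rintro ⟨t, ht, _, ⟨k, hk, rfl⟩, rfl⟩
        refine ⟨t, ht, _, ⟨-k, by simpa using hk, rfl⟩, ?_⟩
        ext i
        refine Fin.cases ?_ (fun i => ?_) i
        · simp [h]
        · simp
      · rintro ⟨t, ht, _, ⟨k, hk, rfl⟩, hx⟩
        refine ⟨t, ht, _, ⟨-k, by simpa using hk, rfl⟩, ?_⟩
        have hx' : x = -((1 - t) • (0 : Fin (m+1) → ℝ) + t • (Fin.cons 1 k : Fin (m+1) → ℝ)) := by
          rw [← hx, neg_neg]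
        rw [hx']
        ext i
        refine Fin.cases ?_ (fun i => ?_) i
        · simp [h]
        · simp
    rw [hneg, Measure.measure_neg, volume_pyr_zero_one m _ hK'.neg, Measure.measure_neg, hKv]


lemma continuous_pr (m : ℕ) : Continuous (pr m) := LinearMap.continuous_of_finiteDimensional _

lemma pr_pyr (m : ℕ) (c : Fin (m+1) → ℝ) (F : Set (Fin (m+1) → ℝ)) :
    pr m '' (pyr c F) = pyr (pr m c) (pr m '' F) := by
  ext x
  constructor
  · rintro ⟨_, ⟨t, ht, y, hy, rfl⟩, rfl⟩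
    exact ⟨t, ht, _, ⟨y, hy, rfl⟩, by simp⟩
  · rintro ⟨t, ht, _, ⟨y, hy, rfl⟩, rfl⟩
    exact ⟨_, ⟨t, ht, y, hy, rfl⟩, by simp⟩

/-- Volume of a pyramid over a subset of a coordinate hyperplane `x e = v`. -/
lemma V_pyr (m : ℕ) (c : Fin (m+2) → ℝ) (e : Fin (m+2)) (v κ : ℝ) (hv : |v - c e| = 1)
    (hc : ∑ i, c i = κ)
    (Q : Set (Fin (m+1) → ℝ)) (hQ : IsCompact Q) (hs : ∀ y ∈ Q, v + ∑ i, y i = κ) :
    V (m+1) (pyr c ((fun y => e.insertNth v y) '' Q)) * (m + 1 : ℕ) = V m Q := by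
  set σ : Equiv.Perm (Fin (m+2)) := e.cycleRange.symm with hσ
  have hsum : ∀ x ∈ pyr c ((fun y => e.insertNth v y : (Fin (m+1) → ℝ) → (Fin (m+2) → ℝ)) '' Q), ∑ i, x i = κ := by
    rintro _ ⟨t, ht, _, ⟨y, hy, rfl⟩, rfl⟩
    have h1 : ∑ i, (e.insertNth v y : Fin (m+2) → ℝ) i = κ := by
      rw [Fin.sum_univ_succAbove _ e]
      simpa using hs y hy
    simp only [Pi.add_apply, Pi.smul_apply, smul_eq_mul, Finset.sum_add_distrib, ← Finset.mul_sum,
      hc, h1]
    ring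
  rw [← V_perm (m+1) σ κ _ hsum]
  have h2 : (fun x : Fin (m+2) → ℝ => x ∘ σ) '' (pyr c ((fun y => e.insertNth v y) '' Q)) =
      pyr (c ∘ σ) ((fun y => Fin.cons v y) '' Q) := by
    ext x
    constructor
    · rintro ⟨_, ⟨t, ht, _, ⟨y, hy, rfl⟩, rfl⟩, rfl⟩
      refine ⟨t, ht, _, ⟨y, hy, rfl⟩, ?_⟩
      show _ = (1 - t) • (c ∘ σ) + t • (Fin.cons v y : Fin (m+2) → ℝ)
      rw [← Fin.insertNth_comp_cycleRange_symm e v y]
      rfl
    · rintro ⟨t, ht, _, ⟨y, hy, rfl⟩, rfl⟩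
      refine ⟨_, ⟨t, ht, _, ⟨y, hy, rfl⟩, rfl⟩, ?_⟩
      show _ = (1 - t) • (c ∘ σ) + t • (Fin.cons v y : Fin (m+2) → ℝ)
      rw [← Fin.insertNth_comp_cycleRange_symm e v y]
      rfl
  rw [h2, V, pr_pyr]
  have h3 : pr (m+1) '' ((fun y => (Fin.cons v y : Fin (m+2) → ℝ)) '' Q) =
      (fun y => (Fin.cons v y : Fin (m+1) → ℝ)) '' (pr m '' Q) := by
    rw [image_image, image_image]
    apply image_congr
    intro y hy
    ext i
    refine Fin.cases ?_ (fun i => ?_) i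
    · rfl
    · rfl
  rw [h3, volume_pyr_cons]
  · rfl
  · rw [pr_apply]
    show |v - c (σ 0)| = 1
    rw [hσ, Fin.cycleRange_symm_zero]
    exact hv
  · exact hQ.image (continuous_pr m)

/-- Hyperplane sections `s x e + a = s' x e' + a'` of `∑ x = κ` are null sets (at least three
coordinates). -/
lemma V_null (m : ℕ) (e e' : Fin (m+3)) (hne : e ≠ e') (s s' a a' κ : ℝ) (hs : s ≠ 0)
    (X : Set (Fin (m+3) → ℝ)) (hX : ∀ x ∈ X, ∑ i, x i = κ ∧ s * x e + a = s' * x e' + a') :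
    V (m+2) X = 0 := by
  obtain ⟨f, hf⟩ : ∃ f : Fin (m+3), f ∉ ({e, e'} : Finset (Fin (m+3))) := by
    by_contra hcon
    push Not at hcon
    have h1 : (Finset.univ : Finset (Fin (m+3))) ⊆ {e, e'} := fun x _ => hcon x
    have h2 := Finset.card_le_card h1
    have h3 := Finset.card_le_two (a := e) (b := e')
    simp at h2
    omega
  have hfe : f ≠ e := fun h => hf (by simp [h])
  have hfe' : f ≠ e' := fun h => hf (by simp [h])
  set φ : (Fin (m+2) → ℝ) →ₗ[ℝ] ℝ :=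
    (s • LinearMap.proj e - s' • LinearMap.proj e') ∘ₗ lf (m+2) with hφ
  have hφne : LinearMap.ker φ ≠ ⊤ := by
    intro htop
    have hz := (LinearMap.ker_eq_top.1 htop)
    set z : Fin (m+3) → ℝ := Pi.single e 1 - Pi.single f 1 with hzd
    have hzs : ∑ i, z i = 0 := by simp [hzd, Finset.sum_sub_distrib]
    have h1 := LinearMap.congr_fun hz (pr (m+2) z)
    have h2 : φ (pr (m+2) z) = s * z e - s' * z e' := by
      show s * (lf (m+2) (pr (m+2) z)) e - s' * (lf (m+2) (pr (m+2) z)) e' = _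
      rw [lf_pr _ _ hzs]
    rw [h2] at h1
    have h3 : z e = 1 := by simp [hzd, hfe.symm]
    have h4 : z e' = 0 := by simp [hzd, hfe'.symm, hne.symm]
    rw [h3, h4] at h1
    simp at h1
    exact hs h1
  rcases X.eq_empty_or_nonempty with hX0 | ⟨x0, hx0⟩
  · simp [V, hX0]
  have hsub : pr (m+2) '' X ⊆ (fun y => pr (m+2) x0 + y) '' (LinearMap.ker φ : Set (Fin (m+2) → ℝ)) := by
    rintro _ ⟨x, hx, rfl⟩
    refine ⟨pr (m+2) (x - x0), ?_, by simp⟩
    have hzs : ∑ i, (x - x0) i = 0 := by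
      simp [Finset.sum_sub_distrib, (hX x hx).1, (hX x0 hx0).1]
    rw [SetLike.mem_coe, LinearMap.mem_ker]
    show s * (lf (m+2) (pr (m+2) (x - x0))) e - s' * (lf (m+2) (pr (m+2) (x - x0))) e' = 0
    rw [lf_pr _ _ hzs]
    have h1 := (hX x hx).2
    have h2 := (hX x0 hx0).2
    simp only [Pi.sub_apply]
    linarith
  unfold V
  refine measure_mono_null hsub ?_
  rw [image_add_left, measure_preimage_add]
  exact Measure.addHaar_submodule _ _ hφne

lemma pyr_subset {m : ℕ} {c : Fin m → ℝ} {F P : Set (Fin m → ℝ)} (hP : Convex ℝ P) (hc : c ∈ P)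
    (hF : F ⊆ P) : pyr c F ⊆ P := by
  rintro _ ⟨t, ht, y, hy, rfl⟩
  exact hP hc (hF hy) (by linarith [ht.2]) ht.1 (by ring)

lemma continuous_insertNth {m : ℕ} (e : Fin (m+1)) (v : ℝ) :
    Continuous (fun y : Fin m → ℝ => (e.insertNth v y : Fin (m+1) → ℝ)) := by
  apply continuous_pi
  intro i
  rcases Fin.eq_self_or_eq_succAbove e i with rfl | ⟨j, rfl⟩
  · simp only [Fin.insertNth_apply_same]; exact continuous_const
  · simp only [Fin.insertNth_apply_succAbove]; exact continuous_apply j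

/-- The pyramid inequality: the pyramids with a common 0/1 apex `c` over the faces
`x e = 1 - c e` are almost disjoint. -/
theorem pyramid_sum (m : ℕ) (P : Set (Fin (m+3) → ℝ)) (hconv : Convex ℝ P) (κ : ℝ)
    (hPs : ∀ x ∈ P, ∑ i, x i = κ) (hP01 : ∀ x ∈ P, ∀ i, 0 ≤ x i ∧ x i ≤ 1)
    (c : Fin (m+3) → ℝ) (hcP : c ∈ P) (hc01 : ∀ i, c i = 0 ∨ c i = 1)
    (Q : Fin (m+3) → Set (Fin (m+2) → ℝ)) (hQc : ∀ e, IsCompact (Q e))
    (hQ : ∀ e, ∀ y ∈ Q e, (e.insertNth (1 - c e) y : Fin (m+3) → ℝ) ∈ P) :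
    ∑ e, V (m+1) (Q e) ≤ V (m+2) P * (m + 2 : ℕ) := by
  set R : Fin (m+3) → Set (Fin (m+3) → ℝ) :=
    fun e => pyr c ((fun y => (e.insertNth (1 - c e) y : Fin (m+3) → ℝ)) '' Q e) with hR
  have hRc : ∀ e, IsCompact (R e) := fun e =>
    isCompact_pyr _ _ ((hQc e).image (continuous_insertNth e _))
  have hRP : ∀ e, R e ⊆ P := fun e =>
    pyr_subset hconv hcP (by rintro _ ⟨y, hy, rfl⟩; exact hQ e y hy)
  have h1 : ∀ e, V (m+1) (Q e) = V (m+2) (R e) * (m + 2 : ℕ) := by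
    intro e
    have := V_pyr (m+1) c e (1 - c e) κ ?_ (hPs c hcP) (Q e) (hQc e) ?_
    · rw [← this]
    · rcases hc01 e with h | h <;> rw [h] <;> norm_num
    · intro y hy
      have := hPs _ (hQ e y hy)
      rw [Fin.sum_univ_succAbove _ e] at this
      simpa using this
  simp_rw [h1]
  rw [← Finset.sum_mul]
  gcongr
  -- value of the distance functions on the pyramids
  have hval : ∀ e, ∀ x ∈ R e, ∀ e', c e' + (1 - 2 * c e') * x e' ≤ c e + (1 - 2 * c e) * x e := by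
    rintro e _ ⟨t, ht, _, ⟨y, hy, rfl⟩, rfl⟩ e'
    set z : Fin (m+3) → ℝ := e.insertNth (1 - c e) y with hz
    have hzP := hQ e y hy
    have hze : z e = 1 - c e := by simp [hz]
    have h01 := hP01 z hzP e'
    have ht0 := ht.1
    simp only [Pi.add_apply, Pi.smul_apply, smul_eq_mul]
    change c e' + (1 - 2 * c e') * ((1 - t) * c e' + t * z e') ≤
      c e + (1 - 2 * c e) * ((1 - t) * c e + t * z e)
    rw [hze]
    have p1 := mul_nonneg ht0 h01.1
    have p2 := mul_nonneg ht0 (sub_nonneg.2 h01.2)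
    rcases hc01 e' with h' | h' <;> rcases hc01 e with h | h <;> rw [h, h'] <;> nlinarith
  have hdisj : ∀ e e', e ≠ e' → V (m+2) (R e ∩ R e') = 0 := by
    intro e e' hne
    refine V_null m e e' hne (1 - 2 * c e) (1 - 2 * c e') (c e) (c e') κ ?_ _ ?_
    · rcases hc01 e with h | h <;> rw [h] <;> norm_num
    · rintro x ⟨hx, hx'⟩
      refine ⟨hPs x (hRP e hx), ?_⟩
      have a1 := hval e x hx e'
      have a2 := hval e' x hx' e
      linarith
  unfold V
  have h2 : ∑ e, volume (pr (m+2) '' R e) = volume (⋃ e ∈ (Finset.univ : Finset (Fin (m+3))), pr (m+2) '' R e) := by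
    rw [measure_biUnion_finset₀]
    · intro e _ e' _ hne
      show volume (pr (m+2) '' R e ∩ pr (m+2) '' R e') = 0
      have := hdisj e e' hne
      unfold V at this
      refine measure_mono_null ?_ this
      rintro _ ⟨⟨x, hx, rfl⟩, ⟨x', hx', h⟩⟩
      have hxx : x' = x := by
        have hs0 : ∑ i, (x' - x) i = 0 := by
          simp [Finset.sum_sub_distrib, hPs x (hRP e hx), hPs x' (hRP e' hx')]
        have h3 := lf_pr (m+2) (x' - x) hs0
        rw [map_sub, h, sub_self, map_zero] at h3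
        exact (sub_eq_zero.1 h3.symm)
      subst hxx
      exact ⟨x', ⟨hx, hx'⟩, rfl⟩
    · intro e _
      exact ((hRc e).image (continuous_pr _)).measurableSet.nullMeasurableSet
  rw [h2]
  apply measure_mono
  intro y hy
  simp only [Finset.mem_univ, iUnion_true, mem_iUnion] at hy
  obtain ⟨e, x, hx, rfl⟩ := hy
  exact ⟨x, hRP e hx, rfl⟩

/-- The covering inequality. -/
theorem pyramid_cover (m : ℕ) (P : Set (Fin (m+2) → ℝ)) (κ : ℝ)
    (c : Fin (m+2) → ℝ) (hcs : ∑ i, c i = κ) (I : Finset (Fin (m+2))) (v : Fin (m+2) → ℝ)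
    (hv : ∀ e ∈ I, |v e - c e| = 1)
    (Q : Fin (m+2) → Set (Fin (m+1) → ℝ)) (hQc : ∀ e ∈ I, IsCompact (Q e))
    (hQs : ∀ e ∈ I, ∀ y ∈ Q e, v e + ∑ i, y i = κ)
    (hcov : ∀ x ∈ P, ∃ e ∈ I, ∃ t ∈ Icc (0:ℝ) 1, ∃ y ∈ Q e,
      x = (1 - t) • c + t • (e.insertNth (v e) y : Fin (m+2) → ℝ)) :
    V (m+1) P * (m + 1 : ℕ) ≤ ∑ e ∈ I, V m (Q e) := by
  set R : Fin (m+2) → Set (Fin (m+2) → ℝ) :=
    fun e => pyr c ((fun y => (e.insertNth (v e) y : Fin (m+2) → ℝ)) '' Q e) with hR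
  have h1 : ∀ e ∈ I, V m (Q e) = V (m+1) (R e) * (m + 1 : ℕ) := by
    intro e he
    rw [V_pyr m c e (v e) κ (hv e he) hcs (Q e) (hQc e he) (hQs e he)]
  rw [Finset.sum_congr rfl h1, ← Finset.sum_mul]
  gcongr
  unfold V
  calc volume (pr (m+1) '' P) ≤ volume (⋃ e ∈ I, pr (m+1) '' R e) := by
        apply measure_mono
        rintro _ ⟨x, hx, rfl⟩
        obtain ⟨e, he, t, ht, y, hy, rfl⟩ := hcov x hx
        simp only [mem_iUnion]
        exact ⟨e, he, _, ⟨t, ht, _, ⟨y, hy, rfl⟩, rfl⟩, rfl⟩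
    _ ≤ ∑ e ∈ I, volume (pr (m+1) '' R e) := measure_biUnion_finset_le _ _

end Pool.Agent.helper2.BV
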