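import Mathlib
import Pool.Agent.helper2.BVGeom
open MeasureTheory Set

namespace Pool.Agent.helper2.BV

/-- Indicator vector of a finite subset of `Fin n`. -/
def ind {n : ℕ} (B : Finset (Fin n)) : Fin n → ℝ := fun i => if i ∈ B then 1 else 0

/-- The 0/1-polytope of a family of subsets. -/
def poly {n : ℕ} (F : Set (Finset (Fin n))) : Set (Fin n → ℝ) := convexHull ℝ (ind '' F)

lemma convex_poly {n : ℕ} (F : Set (Finset (Fin n))) : Convex ℝ (poly F) := convex_convexHull _ _

lemma isCompact_poly {n : ℕ} (F : Set (Finset (Fin n))) : IsCompact (poly F) :=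
  Set.Finite.isCompact_convexHull ℝ ((Set.toFinite F).image _)

lemma ind_mem_poly {n : ℕ} {F : Set (Finset (Fin n))} {B : Finset (Fin n)} (hB : B ∈ F) :
    ind B ∈ poly F := subset_convexHull _ _ ⟨B, hB, rfl⟩

lemma sum_ind {n : ℕ} (B : Finset (Fin n)) : ∑ i, ind B i = B.card := by
  simp [ind]

lemma poly_sum {n : ℕ} {F : Set (Finset (Fin n))} {k : ℕ} (hF : ∀ B ∈ F, B.card = k) :
    ∀ x ∈ poly F, ∑ i, x i = k := by
  have : poly F ⊆ {x | ∑ i, x i = (k:ℝ)} := by
    apply convexHull_min
    · rintro _ ⟨B, hB, rfl⟩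
      show ∑ i, ind B i = (k:ℝ)
      rw [sum_ind, hF B hB]
    · intro x hx y hy a b ha hb hab
      show ∑ i, (a • x + b • y) i = (k:ℝ)
      have hx' : ∑ i, x i = (k:ℝ) := hx
      have hy' : ∑ i, y i = (k:ℝ) := hy
      simp only [Pi.add_apply, Pi.smul_apply, smul_eq_mul, Finset.sum_add_distrib, ← Finset.mul_sum, hx', hy']
      rw [← add_mul, hab, one_mul]
  exact fun x hx => this hx

lemma poly_01 {n : ℕ} {F : Set (Finset (Fin n))} :
    ∀ x ∈ poly F, ∀ i, 0 ≤ x i ∧ x i ≤ 1 := by
  have : poly F ⊆ {x | ∀ i, 0 ≤ x i ∧ x i ≤ 1} := by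
    apply convexHull_min
    · rintro _ ⟨B, hB, rfl⟩ i
      by_cases h : i ∈ B <;> simp [ind, h]
    · intro x hx y hy a b ha hb hab i
      have h1 := hx i
      have h2 := hy i
      simp only [Pi.add_apply, Pi.smul_apply, smul_eq_mul]
      constructor
      · have := mul_nonneg ha h1.1
        have := mul_nonneg hb h2.1
        linarith
      · have := mul_le_mul_of_nonneg_left h1.2 ha
        have := mul_le_mul_of_nonneg_left h2.2 hb
        linarith
  exact fun x hx => this hx

/-- restriction and lifting of subsets -/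
def up {m : ℕ} (e : Fin (m+1)) (A : Finset (Fin m)) : Finset (Fin (m+1)) := A.map e.succAboveEmb

lemma notMem_up {m : ℕ} (e : Fin (m+1)) (A : Finset (Fin m)) : e ∉ up e A := by
  simp [up]

lemma succAbove_mem_up {m : ℕ} (e : Fin (m+1)) (A : Finset (Fin m)) (i : Fin m) :
    e.succAbove i ∈ up e A ↔ i ∈ A := by
  simp [up]

lemma card_up {m : ℕ} (e : Fin (m+1)) (A : Finset (Fin m)) : (up e A).card = A.card := by
  simp [up]

lemma insertNth_ind_zero {m : ℕ} (e : Fin (m+1)) (A : Finset (Fin m)) :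
    (e.insertNth (0:ℝ) (ind A) : Fin (m+1) → ℝ) = ind (up e A) := by
  ext i
  rcases Fin.eq_self_or_eq_succAbove e i with rfl | ⟨j, rfl⟩
  · simp [ind, notMem_up]
  · simp [ind, succAbove_mem_up]

lemma insertNth_ind_one {m : ℕ} (e : Fin (m+1)) (A : Finset (Fin m)) :
    (e.insertNth (1:ℝ) (ind A) : Fin (m+1) → ℝ) = ind (insert e (up e A)) := by
  ext i
  rcases Fin.eq_self_or_eq_succAbove e i with rfl | ⟨j, rfl⟩
  · simp [ind]
  · simp [ind, succAbove_mem_up]

lemma insertNth_combo {m : ℕ} (e : Fin (m+1)) (v a b : ℝ) (x y : Fin m → ℝ) (hab : a + b = 1) :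
    (e.insertNth v (a • x + b • y) : Fin (m+1) → ℝ) = a • e.insertNth v x + b • e.insertNth v y := by
  ext i
  rcases Fin.eq_self_or_eq_succAbove e i with rfl | ⟨j, rfl⟩
  · simp [← add_mul, hab]
  · simp

lemma insertNth_mem_poly {m : ℕ} (e : Fin (m+1)) (v : ℝ) (F' : Set (Finset (Fin m)))
    (P : Set (Fin (m+1) → ℝ)) (hP : Convex ℝ P)
    (h : ∀ B ∈ F', (e.insertNth v (ind B) : Fin (m+1) → ℝ) ∈ P) :
    ∀ y ∈ poly F', (e.insertNth v y : Fin (m+1) → ℝ) ∈ P := by
  have : poly F' ⊆ {y | (e.insertNth v y : Fin (m+1) → ℝ) ∈ P} := by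
    apply convexHull_min
    · rintro _ ⟨B, hB, rfl⟩
      exact h B hB
    · intro x hx y hy a b ha hb hab
      show (e.insertNth v (a • x + b • y) : Fin (m+1) → ℝ) ∈ P
      rw [insertNth_combo e v a b x y hab]
      exact hP hx hy ha hb hab
  exact fun x hx => this hx

/-- A matroid on `Fin n` given by its rank function. -/
structure RM (n : ℕ) where
  r : Finset (Fin n) → ℤ
  r_empty : r ∅ = 0
  r_mono : ∀ A B, A ⊆ B → r A ≤ r B
  r_insert : ∀ A e, r (insert e A) ≤ r A + 1
  r_submod : ∀ A B, r (A ∪ B) + r (A ∩ B) ≤ r A + r B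

namespace RM

variable {n m : ℕ}

/-- The rank. -/
def k (M : RM n) : ℤ := M.r Finset.univ

def IsBase (M : RM n) (B : Finset (Fin n)) : Prop := M.r B = B.card ∧ M.r B = M.k

def bases (M : RM n) : Set (Finset (Fin n)) := {B | M.IsBase B}

lemma r_nonneg (M : RM n) (A : Finset (Fin n)) : 0 ≤ M.r A := by
  have := M.r_mono ∅ A (Finset.empty_subset _)
  rwa [M.r_empty] at this

lemma r_le_k (M : RM n) (A : Finset (Fin n)) : M.r A ≤ M.k := M.r_mono _ _ (Finset.subset_univ _)

lemma k_nonneg (M : RM n) : 0 ≤ M.k := M.r_nonneg _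

lemma r_union_le_card (M : RM n) (A B : Finset (Fin n)) : M.r (A ∪ B) ≤ M.r A + B.card := by
  induction B using Finset.induction_on with
  | empty => simp
  | insert e B he ih =>
    rw [Finset.union_insert, Finset.card_insert_of_notMem he]
    have := M.r_insert (A ∪ B) e
    push_cast
    linarith

lemma r_le_card (M : RM n) (A : Finset (Fin n)) : M.r A ≤ A.card := by
  have := M.r_union_le_card ∅ A
  simpa [M.r_empty] using this

lemma r_union_le (M : RM n) (A B : Finset (Fin n)) : M.r (A ∪ B) ≤ M.r A + M.r B := by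
  have := M.r_submod A B
  have := M.r_nonneg (A ∩ B)
  linarith

/-- Deletion of `e`. -/
def del (M : RM (m+1)) (e : Fin (m+1)) : RM m where
  r A := M.r (up e A)
  r_empty := by simp [up, M.r_empty]
  r_mono A B h := M.r_mono _ _ (Finset.map_subset_map.2 h)
  r_insert A f := by
    have : up e (insert f A) = insert (e.succAbove f) (up e A) := by simp [up, Finset.map_insert]
    rw [this]
    exact M.r_insert _ _
  r_submod A B := by
    have h1 : up e (A ∪ B) = up e A ∪ up e B := Finset.map_union _ _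
    have h2 : up e (A ∩ B) = up e A ∩ up e B := Finset.map_inter _ _
    rw [h1, h2]
    exact M.r_submod _ _

/-- Contraction of `e`. -/
def con (M : RM (m+1)) (e : Fin (m+1)) : RM m where
  r A := M.r (insert e (up e A)) - M.r {e}
  r_empty := by simp [up]
  r_mono A B h := by
    have := M.r_mono (insert e (up e A)) (insert e (up e B))
      (Finset.insert_subset_insert _ (Finset.map_subset_map.2 h))
    linarith
  r_insert A f := by
    have : up e (insert f A) = insert (e.succAbove f) (up e A) := by simp [up, Finset.map_insert]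
    rw [this, Finset.insert_comm]
    have := M.r_insert (insert e (up e A)) (e.succAbove f)
    linarith
  r_submod A B := by
    have h1 : insert e (up e (A ∪ B)) = insert e (up e A) ∪ insert e (up e B) := by
      have : up e (A ∪ B) = up e A ∪ up e B := Finset.map_union _ _
      rw [this]; ext x; simp only [Finset.mem_insert, Finset.mem_union]; tauto
    have h2 : insert e (up e (A ∩ B)) = insert e (up e A) ∩ insert e (up e B) := by
      have : up e (A ∩ B) = up e A ∩ up e B := Finset.map_inter _ _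
      rw [this]; ext x; simp only [Finset.mem_insert, Finset.mem_inter]; tauto
    rw [h1, h2]
    have := M.r_submod (insert e (up e A)) (insert e (up e B))
    linarith

/-- The alternating rank sum. -/
def S (M : RM n) : ℤ := ∑ A : Finset (Fin n), (-1) ^ A.card * M.r A

/-- The beta invariant. -/
def beta (M : RM n) : ℤ := (-1) ^ M.k.toNat * M.S

/-- Connectedness: no nontrivial separator. -/
def Conn (M : RM n) : Prop := ∀ A : Finset (Fin n), A.Nonempty → Aᶜ.Nonempty → M.k < M.r A + M.r Aᶜ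

lemma k_le_sep (M : RM n) (A : Finset (Fin n)) : M.k ≤ M.r A + M.r Aᶜ := by
  have := M.r_union_le A Aᶜ
  rwa [Finset.union_compl] at this

lemma up_univ (e : Fin (m+1)) : up e (Finset.univ : Finset (Fin m)) = {e}ᶜ := by
  ext i
  rcases Fin.eq_self_or_eq_succAbove e i with rfl | ⟨j, rfl⟩
  · simp [notMem_up]
  · simp [succAbove_mem_up]

lemma insert_up_univ (e : Fin (m+1)) : insert e (up e (Finset.univ : Finset (Fin m))) = Finset.univ := by
  rw [up_univ]
  ext i; simp

lemma up_compl (e : Fin (m+1)) (A : Finset (Fin m)) : up e Aᶜ = (insert e (up e A))ᶜ := by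
  ext i
  rcases Fin.eq_self_or_eq_succAbove e i with rfl | ⟨j, rfl⟩
  · simp [notMem_up]
  · simp [succAbove_mem_up]

lemma insert_up_compl (e : Fin (m+1)) (A : Finset (Fin m)) : insert e (up e Aᶜ) = (up e A)ᶜ := by
  ext i
  rcases Fin.eq_self_or_eq_succAbove e i with rfl | ⟨j, rfl⟩
  · simp [notMem_up]
  · simp [succAbove_mem_up]

/-- `e` is not a loop and not a coloop. -/
def Good (M : RM (m+1)) (e : Fin (m+1)) : Prop := M.r {e} = 1 ∧ M.r {e}ᶜ = M.k

lemma del_k (M : RM (m+1)) (e : Fin (m+1)) : (M.del e).k = M.r {e}ᶜ := by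
  show M.r (up e Finset.univ) = _
  rw [up_univ]

lemma con_k (M : RM (m+1)) (e : Fin (m+1)) : (M.con e).k = M.k - M.r {e} := by
  show M.r (insert e (up e Finset.univ)) - M.r {e} = _
  rw [insert_up_univ]
  rfl

lemma Conn.good {M : RM (m+2)} (h : M.Conn) (e : Fin (m+2)) : M.Good e := by
  have h1 := h {e} ⟨e, by simp⟩ ⟨e.succAbove 0, by simp⟩
  have h2 := M.r_le_card {e}
  have h3 := M.r_le_k ({e}ᶜ)
  simp at h2
  constructor
  · by_contra hcon
    have : M.r {e} ≤ 0 := by omega
    linarith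
  · by_contra hcon
    have : M.r {e}ᶜ ≤ M.k - 1 := by
      have := lt_of_le_of_ne h3 hcon
      omega
    linarith

lemma base_card {M : RM n} {B : Finset (Fin n)} (hB : B ∈ M.bases) : B.card = M.k.toNat := by
  have h1 := hB.1
  have h2 := hB.2
  have : (B.card : ℤ) = M.k := by rw [← h1, h2]
  omega

lemma del_base {M : RM (m+1)} {e : Fin (m+1)} (he : M.Good e) {B : Finset (Fin m)}
    (hB : B ∈ (M.del e).bases) : up e B ∈ M.bases := by
  have h1 : M.r (up e B) = B.card := hB.1
  have h2 : M.r (up e B) = (M.del e).k := hB.2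
  rw [del_k, he.2] at h2
  exact ⟨by rw [h1, card_up], h2⟩

lemma con_base {M : RM (m+1)} {e : Fin (m+1)} (he : M.Good e) {B : Finset (Fin m)}
    (hB : B ∈ (M.con e).bases) : insert e (up e B) ∈ M.bases := by
  have h1 : M.r (insert e (up e B)) - M.r {e} = B.card := hB.1
  have h2 : M.r (insert e (up e B)) - M.r {e} = (M.con e).k := hB.2
  rw [con_k, he.1] at h2
  rw [he.1] at h1
  refine ⟨?_, by linarith⟩
  rw [Finset.card_insert_of_notMem (notMem_up e B), card_up]
  push_cast
  linarith

lemma sum_split (e : Fin (m+1)) (f : Finset (Fin (m+1)) → ℤ) :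
    ∑ A, f A = ∑ A : Finset (Fin m), f (up e A) + ∑ A : Finset (Fin m), f (insert e (up e A)) := by
  have h0 : (Finset.univ : Finset (Fin (m+1))) = insert e (up e Finset.univ) := (insert_up_univ e).symm
  have h1 : (Finset.univ : Finset (Finset (Fin (m+1)))) = (insert e (up e Finset.univ)).powerset := by
    rw [← h0, Finset.powerset_univ]
  have h2 : ∀ g : Finset (Fin (m+1)) → ℤ,
      ∑ t ∈ (up e (Finset.univ : Finset (Fin m))).powerset, g t = ∑ A : Finset (Fin m), g (up e A) := by
    intro g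
    symm
    apply Finset.sum_bij (fun A _ => up e A)
    · intro A _
      exact Finset.mem_powerset.2 (Finset.map_subset_map.2 (Finset.subset_univ _))
    · intro A _ B _ h
      exact Finset.map_injective _ h
    · intro t ht
      rw [Finset.mem_powerset] at ht
      obtain ⟨A, _, hA⟩ := Finset.subset_map_iff.1 ht
      exact ⟨A, Finset.mem_univ _, hA.symm⟩
    · intro A _; rfl
  rw [h1, Finset.sum_powerset_insert (notMem_up e _), h2, h2 (fun t => f (insert e t))]

lemma alt_sum_zero (a : Fin (m+1)) (f : Finset (Fin (m+1)) → ℤ) (hf : ∀ A, f (insert a A) = f A) :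
    ∑ A : Finset (Fin (m+1)), (-1) ^ A.card * f A = 0 := by
  rw [sum_split a, ← Finset.sum_add_distrib]
  apply Finset.sum_eq_zero
  intro A _
  rw [Finset.card_insert_of_notMem (notMem_up a A), hf, card_up]
  ring

lemma r_split (M : RM n) (A : Finset (Fin n)) (hA : M.r A + M.r Aᶜ = M.k) (X : Finset (Fin n)) :
    M.r X = M.r (X ∩ A) + M.r (X ∩ Aᶜ) := by
  apply le_antisymm
  · have := M.r_union_le (X ∩ A) (X ∩ Aᶜ)
    rwa [← Finset.inter_union_distrib_left, Finset.union_compl, Finset.inter_univ] at this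
  · have h1 := M.r_submod X A
    have h2 := M.r_submod (X ∪ A) Aᶜ
    have h3 : (X ∪ A) ∪ Aᶜ = Finset.univ := by
      ext i; simp
    have h4 : (X ∪ A) ∩ Aᶜ = X ∩ Aᶜ := by
      ext i; simp only [Finset.mem_inter, Finset.mem_union, Finset.mem_compl]; tauto
    rw [h3, h4] at h2
    have : M.r Finset.univ = M.k := rfl
    linarith

lemma S_eq_zero_of_split (M : RM n) (A : Finset (Fin n)) (h1 : A.Nonempty) (h2 : Aᶜ.Nonempty)
    (hA : M.r A + M.r Aᶜ = M.k) : M.S = 0 := by
  obtain ⟨a, ha⟩ := h1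
  obtain ⟨b, hb⟩ := h2
  rw [Finset.mem_compl] at hb
  cases n with
  | zero => exact a.elim0
  | succ n =>
  unfold S
  have : ∀ X : Finset (Fin (n+1)), (-1 : ℤ) ^ X.card * M.r X
      = (-1) ^ X.card * M.r (X ∩ A) + (-1) ^ X.card * M.r (X ∩ Aᶜ) := by
    intro X
    rw [M.r_split A hA X]; ring
  simp_rw [this]
  rw [Finset.sum_add_distrib, alt_sum_zero b (fun X => M.r (X ∩ A)), alt_sum_zero a (fun X => M.r (X ∩ Aᶜ))]
  · simp
  · intro X
    rw [Finset.insert_inter_of_notMem]
    simpa using ha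
  · intro X
    rw [Finset.insert_inter_of_notMem hb]

lemma beta_eq_zero_of_not_conn (M : RM n) (h : ¬ M.Conn) : M.beta = 0 := by
  unfold Conn at h
  push Not at h
  obtain ⟨A, h1, h2, h3⟩ := h
  have h4 := M.k_le_sep A
  unfold beta
  rw [M.S_eq_zero_of_split A h1 h2 (le_antisymm h3 h4), mul_zero]

lemma del_card_sum (M : RM (m+2)) (e : Fin (m+2)) : M.S = (M.del e).S - (M.con e).S := by
  unfold S
  rw [sum_split e]
  have h1 : ∀ A : Finset (Fin (m+1)), (-1 : ℤ) ^ (insert e (up e A)).card * M.r (insert e (up e A))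
      = - ((-1) ^ A.card * (M.con e).r A) - (-1) ^ A.card * M.r {e} := by
    intro A
    rw [Finset.card_insert_of_notMem (notMem_up e A), card_up]
    show _ = - ((-1) ^ A.card * (M.r (insert e (up e A)) - M.r {e})) - (-1) ^ A.card * M.r {e}
    ring
  simp_rw [h1]
  rw [Finset.sum_sub_distrib, Finset.sum_neg_distrib, alt_sum_zero (0 : Fin (m+1)) (fun _ => M.r {e})]
  · have : ∀ A : Finset (Fin (m+1)), (-1 : ℤ) ^ (up e A).card * M.r (up e A) = (-1) ^ A.card * (M.del e).r A := by
      intro A; rw [card_up]; rfl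
    simp_rw [this]
    ring
  · intro _; rfl

lemma beta_rec (M : RM (m+2)) (e : Fin (m+2)) (he : M.Good e) :
    M.beta = (M.del e).beta + (M.con e).beta := by
  unfold beta
  rw [M.del_card_sum e, M.del_k e, M.con_k e, he.1, he.2]
  have hk : 1 ≤ M.k := by
    have := M.r_le_k {e}
    rw [he.1] at this
    exact this
  obtain ⟨j, hj⟩ : ∃ j : ℕ, M.k = j + 1 := ⟨(M.k - 1).toNat, by omega⟩
  have h1 : M.k.toNat = j + 1 := by omega
  have h2 : (M.k - 1).toNat = j := by omega
  rw [h1, h2]
  ring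

lemma not_good_not_conn (M : RM (m+2)) (e : Fin (m+2)) (he : ¬ M.Good e) : ¬ M.Conn :=
  fun h => he (h.good e)

lemma beta_one (M : RM 1) : M.beta = M.k := by
  have h0 : (Finset.univ : Finset (Finset (Fin 1))) = {∅, Finset.univ} := by decide
  unfold beta S
  rw [h0, Finset.sum_pair (by decide)]
  have h1 : M.k ≤ 1 := M.r_le_card Finset.univ
  have h2 := M.k_nonneg
  have h3 : M.r Finset.univ = M.k := rfl
  rw [M.r_empty, h3]
  have : M.k = 0 ∨ M.k = 1 := by omega
  rcases this with h | h <;> rw [h] <;> simp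

lemma beta_nonneg : ∀ (n : ℕ) (M : RM n), 0 ≤ M.beta := by
  intro n
  induction n with
  | zero =>
    intro M
    have : M.S = 0 := by
      unfold S
      rw [Fintype.sum_eq_single ∅]
      · simp [M.r_empty]
      · intro A hA
        exact absurd (Subsingleton.elim A ∅) hA
    unfold beta; rw [this]; simp
  | succ n ih =>
    intro M
    cases n with
    | zero => rw [beta_one]; exact M.k_nonneg
    | succ n =>
      by_cases hg : M.Good 0
      · rw [M.beta_rec 0 hg]
        exact add_nonneg (ih _) (ih _)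
      · rw [M.beta_eq_zero_of_not_conn (M.not_good_not_conn 0 hg)]

lemma compl_inter_aux (A C : Finset (Fin n)) : (A ∩ C)ᶜ = Aᶜ ∪ Cᶜ := by
  ext i; simp only [Finset.mem_compl, Finset.mem_inter, Finset.mem_union]; tauto

/-- Tutte: deletion or contraction keeps connectedness. -/
lemma tutte (M : RM (m+1)) (h : M.Conn) (e : Fin (m+1)) (he : M.Good e) :
    (M.del e).Conn ∨ (M.con e).Conn := by
  by_contra hcon
  rw [not_or] at hcon
  obtain ⟨hd, hc⟩ := hcon
  unfold Conn at hd hc
  push Not at hd hc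
  obtain ⟨A, hA, hA', hAr⟩ := hd
  obtain ⟨C, hC, hC', hCr⟩ := hc
  rw [del_k, he.2] at hAr
  rw [con_k, he.1] at hCr
  have hAr' : M.r (up e A) + M.r (up e Aᶜ) ≤ M.k := hAr
  have hCr' : (M.r (insert e (up e C)) - M.r {e}) + (M.r (insert e (up e Cᶜ)) - M.r {e}) ≤ M.k - 1 := hCr
  rw [he.1] at hCr'
  -- key: for X = A or Aᶜ and Y = C or Cᶜ
  have key : ∀ X Y : Finset (Fin m), M.r (up e X) + M.r (up e Xᶜ) ≤ M.k →
      (M.r (insert e (up e Y)) - 1) + (M.r (insert e (up e Yᶜ)) - 1) ≤ M.k - 1 →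
      X ∩ Y = ∅ ∨ Xᶜ ∩ Yᶜ = ∅ := by
    intro X Y h1 h2
    by_contra hne
    rw [not_or] at hne
    obtain ⟨hn1, hn2⟩ := hne
    have hn1' := Finset.nonempty_iff_ne_empty.2 hn1
    have hn2' := Finset.nonempty_iff_ne_empty.2 hn2
    have s1 := M.r_submod (up e X) (insert e (up e Y))
    have s2 := M.r_submod (up e Xᶜ) (insert e (up e Yᶜ))
    have e1 : up e X ∩ insert e (up e Y) = up e (X ∩ Y) := by
      ext i
      rcases Fin.eq_self_or_eq_succAbove e i with rfl | ⟨j, rfl⟩
      · simp [notMem_up]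
      · simp [succAbove_mem_up]
    have e2 : up e Xᶜ ∩ insert e (up e Yᶜ) = up e (Xᶜ ∩ Yᶜ) := by
      ext i
      rcases Fin.eq_self_or_eq_succAbove e i with rfl | ⟨j, rfl⟩
      · simp [notMem_up]
      · simp [succAbove_mem_up]
    have e3 : up e X ∪ insert e (up e Y) = (up e (Xᶜ ∩ Yᶜ))ᶜ := by
      ext i
      rcases Fin.eq_self_or_eq_succAbove e i with rfl | ⟨j, rfl⟩
      · simp [notMem_up]
      · simp [succAbove_mem_up]; tauto
    have e4 : up e Xᶜ ∪ insert e (up e Yᶜ) = (up e (X ∩ Y))ᶜ := by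
      ext i
      rcases Fin.eq_self_or_eq_succAbove e i with rfl | ⟨j, rfl⟩
      · simp [notMem_up]
      · simp [succAbove_mem_up]; tauto
    rw [e1, e3] at s1
    rw [e2, e4] at s2
    have c1 := h (up e (X ∩ Y)) ?_ ⟨e, by simp [notMem_up]⟩
    have c2 := h (up e (Xᶜ ∩ Yᶜ)) ?_ ⟨e, by simp [notMem_up]⟩
    · linarith
    · exact Finset.Nonempty.map hn2'
    · exact Finset.Nonempty.map hn1'
  have k1 := key A C hAr' hCr'
  have k2 := key A Cᶜ hAr' (by rw [compl_compl]; linarith)
  rw [compl_compl] at k2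
  have hx : ∀ X Y : Finset (Fin m), X ∩ Y = ∅ → X ∩ Yᶜ = ∅ → X = ∅ := by
    intro X Y h1 h2
    rw [← Finset.inter_univ X, ← Finset.union_compl Y, Finset.inter_union_distrib_left, h1, h2,
      Finset.empty_union]
  rcases k1 with k1 | k1 <;> rcases k2 with k2 | k2
  · exact hA.ne_empty (hx A C k1 k2)
  · rw [Finset.inter_comm] at k1 k2
    exact hC.ne_empty (hx C A k1 k2)
  · rw [Finset.inter_comm] at k1 k2
    refine hC'.ne_empty (hx Cᶜ A k2 k1)
  · exact hA'.ne_empty (hx Aᶜ C k2 k1)

lemma Conn.beta_pos : ∀ (m : ℕ) (M : RM (m+2)), M.Conn → 0 < M.beta := by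
  intro m
  induction m with
  | zero =>
    intro M h
    have hg := h.good 0
    rw [M.beta_rec 0 hg]
    have h1 := beta_nonneg _ (M.con 0)
    have h2 : 0 < (M.del 0).beta := by
      rw [beta_one, del_k, hg.2]
      have := M.r_le_k {0}
      rw [hg.1] at this
      linarith
    linarith
  | succ m ih =>
    intro M h
    have hg := h.good 0
    rw [M.beta_rec 0 hg]
    have h1 := beta_nonneg _ (M.con 0)
    have h2 := beta_nonneg _ (M.del 0)
    rcases M.tutte h 0 hg with h3 | h3
    · have := ih _ h3; linarith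
    · have := ih _ h3; linarith

end RM

end Pool.Agent.helper2.BV
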