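import Mathlib
import Pool.Agent.helper2.BVRank
open MeasureTheory Set

namespace Pool.Agent.helper2.BV
namespace RM

variable {n m : ℕ}

lemma indep_subset (M : RM n) {I J : Finset (Fin n)} (hJ : M.r J = J.card) (hIJ : I ⊆ J) :
    M.r I = I.card := by
  apply le_antisymm (M.r_le_card I)
  have h1 := M.r_union_le_card I (J \ I)
  rw [Finset.union_sdiff_of_subset hIJ] at h1
  have h2 := Finset.card_sdiff_add_card_eq_card hIJ
  have h3 : ((J \ I).card : ℤ) + I.card = J.card := by exact_mod_cast h2
  linarith

/-- an element of `D` extending an independent set -/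
lemma exists_extend (M : RM n) {I D : Finset (Fin n)} (hlt : M.r I < M.r D) :
    ∃ e ∈ D, M.r (insert e I) = M.r I + 1 := by
  by_contra hcon
  push Not at hcon
  -- then r (I ∪ D') = r I for all D' ⊆ D
  have key : ∀ D' : Finset (Fin n), D' ⊆ D → M.r (I ∪ D') = M.r I := by
    intro D'
    induction D' using Finset.induction_on with
    | empty => intro _; simp
    | insert e D' he ih =>
      intro hsub
      have hD' : D' ⊆ D := fun x hx => hsub (Finset.mem_insert_of_mem hx)
      have heD : e ∈ D := hsub (Finset.mem_insert_self _ _)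
      have h1 := ih hD'
      have h2 := M.r_submod (I ∪ D') (insert e I)
      have h3 : (I ∪ D') ∪ insert e I = I ∪ insert e D' := by
        ext x; simp only [Finset.mem_union, Finset.mem_insert]; tauto
      rw [h3] at h2
      have h4 : M.r I ≤ M.r ((I ∪ D') ∩ insert e I) := by
        apply M.r_mono
        intro x hx
        simp only [Finset.mem_inter, Finset.mem_union, Finset.mem_insert]
        tauto
      have h5 : M.r (insert e I) ≤ M.r I := by
        have a1 := M.r_insert I e
        have a2 := hcon e heD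
        have : M.r (insert e I) < M.r I + 1 := lt_of_le_of_ne a1 a2
        linarith
      have h6 : M.r I ≤ M.r (I ∪ insert e D') := M.r_mono _ _ Finset.subset_union_left
      linarith
  have h1 := key D (Finset.Subset.refl _)
  have h2 := M.r_mono D (I ∪ D) Finset.subset_union_right
  linarith

lemma exists_extension (M : RM n) : ∀ (j : ℕ) (I D : Finset (Fin n)), M.r I = I.card → I ⊆ D →
    M.r D - M.r I = j → ∃ J, I ⊆ J ∧ J ⊆ D ∧ M.r J = J.card ∧ M.r J = M.r D := by
  intro j
  induction j with
  | zero =>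
    intro I D hI hID h
    exact ⟨I, Finset.Subset.refl _, hID, hI, by push_cast at h; linarith⟩
  | succ j ih =>
    intro I D hI hID h
    push_cast at h
    obtain ⟨e, heD, he⟩ := M.exists_extend (I := I) (D := D) (by linarith)
    have heI : e ∉ I := by
      intro hh
      rw [Finset.insert_eq_self.2 hh] at he
      linarith
    obtain ⟨J, h1, h2, h3, h4⟩ := ih (insert e I) D
      (by rw [he, Finset.card_insert_of_notMem heI, hI]; push_cast; ring)
      (Finset.insert_subset heD hID) (by linarith)
    exact ⟨J, (Finset.subset_insert e I).trans h1, h2, h3, h4⟩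

lemma exists_ext (M : RM n) (I D : Finset (Fin n)) (hI : M.r I = I.card) (hID : I ⊆ D) :
    ∃ J, I ⊆ J ∧ J ⊆ D ∧ M.r J = J.card ∧ M.r J = M.r D := by
  have := M.r_mono _ _ hID
  exact M.exists_extension (M.r D - M.r I).toNat I D hI hID (by omega)

/-- greedy sets -/
lemma exists_greedy (M : RM n) : ∀ (N : ℕ) (D : ℕ → Finset (Fin n)), Antitone D →
    ∃ I, M.r I = I.card ∧ I ⊆ D 0 ∧ ∀ t < N, ((I ∩ D t).card : ℤ) = M.r (D t) := by
  intro N
  induction N with
  | zero =>
    intro D _
    exact ⟨∅, by simp [M.r_empty], Finset.empty_subset _, fun t ht => absurd ht (Nat.not_lt_zero t)⟩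
  | succ N ih =>
    intro D hD
    obtain ⟨I, hI, hI0, hIt⟩ := ih (fun t => D (t+1)) (fun a b hab => hD (by omega))
    obtain ⟨J, h1, h2, h3, h4⟩ := M.exists_ext I (D 0) hI (hI0.trans (hD (by omega)))
    refine ⟨J, h3, h2, ?_⟩
    intro t ht
    cases t with
    | zero =>
      rw [Finset.inter_eq_left.2 h2, ← h3, h4]
    | succ t =>
      have a1 := hIt t (by omega)
      have a2 : (I ∩ D (t+1)).card ≤ (J ∩ D (t+1)).card :=
        Finset.card_le_card (Finset.inter_subset_inter_right h1)
      have a3 := M.indep_subset h3 (Finset.inter_subset_left : J ∩ D (t+1) ⊆ J)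
      have a4 := M.r_mono (J ∩ D (t+1)) (D (t+1)) Finset.inter_subset_right
      have a5 : ((I ∩ D (t+1)).card : ℤ) ≤ (J ∩ D (t+1)).card := by exact_mod_cast a2
      linarith

lemma exists_greedy_base (M : RM n) (N : ℕ) (D : ℕ → Finset (Fin n)) (hD : Antitone D) :
    ∃ B ∈ M.bases, ∀ t < N, ((B ∩ D t).card : ℤ) = M.r (D t) := by
  obtain ⟨I, hI, hI0, hIt⟩ := M.exists_greedy N D hD
  obtain ⟨J, h1, h2, h3, h4⟩ := M.exists_ext I Finset.univ hI (Finset.subset_univ _)
  refine ⟨J, ⟨h3, h4⟩, ?_⟩
  intro t ht
  have a1 := hIt t ht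
  have a2 : (I ∩ D t).card ≤ (J ∩ D t).card :=
    Finset.card_le_card (Finset.inter_subset_inter_right h1)
  have a3 := M.indep_subset h3 (Finset.inter_subset_left : J ∩ D t ⊆ J)
  have a4 := M.r_mono (J ∩ D t) (D t) Finset.inter_subset_right
  have a5 : ((I ∩ D t).card : ℤ) ≤ (J ∩ D t).card := by exact_mod_cast a2
  linarith

/-- Normalized volume of the base polytope. -/
noncomputable def Vol (M : RM (m+1)) : ℝ := (m.factorial : ℝ) * (V m (poly M.bases)).toReal

lemma Vol_nonneg (M : RM (m+1)) : 0 ≤ M.Vol := by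
  unfold Vol; positivity

lemma V_poly_lt_top (F : Set (Finset (Fin (m+1)))) : V m (poly F) < ⊤ :=
  ((isCompact_poly F).image (continuous_pr m)).measure_lt_top

lemma del_card {M : RM (m+1)} {e : Fin (m+1)} (he : M.Good e) : (M.del e).k = M.k := by
  rw [del_k, he.2]

/-- The pyramid inequality for base polytopes. -/
lemma pyramid (M : RM (m+3)) (h : M.Conn) (B : Finset (Fin (m+3))) (hB : B ∈ M.bases) :
    ∑ e, (if e ∈ B then (M.del e).Vol else (M.con e).Vol) ≤ M.Vol := by
  have hg : ∀ e, M.Good e := fun e => h.good e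
  have hPs : ∀ x ∈ poly M.bases, ∑ i, x i = (M.k.toNat : ℝ) :=
    poly_sum (fun B hB => base_card hB)
  have key := pyramid_sum m (poly M.bases) (convex_poly _) (M.k.toNat) hPs poly_01 (ind B)
    (ind_mem_poly hB) (fun i => by by_cases hi : i ∈ B <;> simp [ind, hi])
    (fun e => if e ∈ B then poly (M.del e).bases else poly (M.con e).bases)
    (fun e => by
      by_cases he : e ∈ B
      · simp only [he, if_true]; exact isCompact_poly _
      · simp only [he, if_false]; exact isCompact_poly _)
    (fun e => by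
      by_cases he : e ∈ B
      · simp only [he, if_true, ind]
        intro y hy
        rw [sub_self]
        refine insertNth_mem_poly e 0 _ _ (convex_poly _) ?_ y hy
        intro B' hB'
        rw [insertNth_ind_zero]
        exact ind_mem_poly (del_base (hg e) hB')
      · simp only [he, if_false, ind]
        intro y hy
        rw [sub_zero]
        refine insertNth_mem_poly e 1 _ _ (convex_poly _) ?_ y hy
        intro B' hB'
        rw [insertNth_ind_one]
        exact ind_mem_poly (con_base (hg e) hB'))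
  have h1 : ∀ e : Fin (m+3), (if e ∈ B then (M.del e).Vol else (M.con e).Vol) =
      ((m+1).factorial : ℝ) * (V (m+1) (if e ∈ B then poly (M.del e).bases else poly (M.con e).bases)).toReal := by
    intro e
    by_cases he : e ∈ B
    · simp only [he, if_true]; rfl
    · simp only [he, if_false]; rfl
  simp_rw [h1]
  rw [← Finset.mul_sum]
  have h2 : (∑ e : Fin (m+3), (V (m+1) (if e ∈ B then poly (M.del e).bases else poly (M.con e).bases)).toReal)
      = (∑ e : Fin (m+3), (V (m+1) (if e ∈ B then poly (M.del e).bases else poly (M.con e).bases))).toReal := by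
    rw [ENNReal.toReal_sum]
    intro e _
    by_cases he : e ∈ B
    · simp only [he, if_true]; exact (V_poly_lt_top _).ne
    · simp only [he, if_false]; exact (V_poly_lt_top _).ne
  rw [h2]
  have h3 := ENNReal.toReal_mono (ENNReal.mul_ne_top (V_poly_lt_top M.bases).ne (by simp)) key
  rw [ENNReal.toReal_mul] at h3
  unfold Vol
  have h4 : ((m+2).factorial : ℝ) = (m+2) * (m+1).factorial := by
    rw [Nat.factorial_succ (m+1)]; push_cast; ring
  rw [h4]
  have h5 : ((m + 2 : ℕ) : ENNReal).toReal = (m:ℝ) + 2 := by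
    rw [ENNReal.toReal_natCast]; push_cast; ring
  rw [h5] at h3
  have h6 : (0:ℝ) ≤ ((m+1).factorial : ℝ) := by positivity
  calc _ ≤ ((m+1).factorial : ℝ) * ((V (m+2) (poly M.bases)).toReal * ((m:ℝ)+2)) :=
        mul_le_mul_of_nonneg_left h3 h6
    _ = _ := by ring

lemma exists_base (M : RM n) : ∃ B, B ∈ M.bases := by
  obtain ⟨J, h1, h2, h3, h4⟩ := M.exists_ext ∅ Finset.univ (by simp [M.r_empty]) (Finset.subset_univ _)
  exact ⟨J, h3, h4⟩

lemma Conn.k_pos {M : RM (m+2)} (h : M.Conn) : 1 ≤ M.k := by
  have hg := h.good 0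
  have := M.r_le_k {0}
  rw [hg.1] at this
  exact this

lemma Conn.k_lt {M : RM (m+2)} (h : M.Conn) : M.k ≤ m + 1 := by
  have hg := h.good 0
  rw [← hg.2]
  have := M.r_le_card {0}ᶜ
  simpa [Finset.card_compl] using this

lemma not_conn_of_k_zero (M : RM (m+2)) (h : M.k = 0) : ¬ M.Conn := by
  intro hc
  have := hc.k_pos
  omega

lemma not_conn_of_k_full (M : RM (m+2)) (h : M.k = m + 2) : ¬ M.Conn := by
  intro hc
  have := hc.k_lt
  omega

/-- bound on the size of a non-spanning set -/
lemma card_le_of_nonspanning {M : RM (m+2)} (h : M.Conn) (D : Finset (Fin (m+2)))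
    (hD : M.r D < M.k) : (D.card : ℤ) ≤ (m + 2) - M.k + M.r D - 1 := by
  by_contra hcon
  push Not at hcon
  have h1 : (D.card : ℤ) + Dᶜ.card = m + 2 := by
    have := Finset.card_add_card_compl D
    rw [Fintype.card_fin] at this
    exact_mod_cast this
  -- Dᶜ is nonempty
  have h2 : Dᶜ.Nonempty := by
    rw [Finset.nonempty_iff_ne_empty]
    intro h0
    have : D = Finset.univ := by
      rw [← compl_compl D, h0, Finset.compl_empty]
    rw [this] at hD
    exact lt_irrefl _ hD
  obtain ⟨e, he⟩ := h2
  have h3 := M.r_union_le_card D (Dᶜ.erase e)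
  have h4 : D ∪ Dᶜ.erase e = {e}ᶜ := by
    ext x
    simp only [Finset.mem_union, Finset.mem_erase, Finset.mem_compl, Finset.mem_singleton]
    rw [Finset.mem_compl] at he
    constructor
    · rintro (h | h)
      · rintro rfl; exact he h
      · exact h.1
    · intro h
      by_cases hx : x ∈ D
      · exact Or.inl hx
      · exact Or.inr ⟨h, hx⟩
  rw [h4, (h.good e).2] at h3
  have h5 : ((Dᶜ.erase e).card : ℤ) = Dᶜ.card - 1 := by
    rw [Finset.card_erase_of_mem he]
    have : 1 ≤ Dᶜ.card := Finset.card_pos.2 ⟨e, he⟩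
    push_cast [this]
    ring
  linarith

/-- the term attached to a level set -/
def term (M : RM (m+3)) (D : Finset (Fin (m+3))) : ℤ :=
  (m + 1) * (M.r D - 1) - (M.k - 1) * (D.card - (m + 3 - M.k))

lemma r_pos_of_nonempty {M : RM (m+2)} (h : M.Conn) {D : Finset (Fin (m+2))} (hD : D.Nonempty) :
    1 ≤ M.r D := by
  obtain ⟨e, he⟩ := hD
  have := M.r_mono {e} D (Finset.singleton_subset_iff.2 he)
  rw [(h.good e).1] at this
  exact this

lemma term_nonneg {M : RM (m+3)} (h : M.Conn) (h2 : 2 ≤ M.k) (h3 : M.k ≤ m + 1)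
    (D : Finset (Fin (m+3))) : 0 ≤ M.term D := by
  unfold term
  rcases D.eq_empty_or_nonempty with rfl | hne
  · rw [M.r_empty]
    simp only [Finset.card_empty]
    push_cast
    nlinarith
  · have hr := r_pos_of_nonempty (m := m+1) h hne
    rcases lt_or_eq_of_le (M.r_le_k D) with hlt | heq
    · have := card_le_of_nonspanning (m := m+1) h D hlt
      push_cast at this
      nlinarith [mul_nonneg (sub_nonneg.2 hr) (by linarith : (0:ℤ) ≤ m + 1 + 1 - M.k)]
    · rw [heq]
      have hc : (D.card : ℤ) ≤ m + 3 := by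
        have := Finset.card_le_univ D
        rw [Fintype.card_fin] at this
        exact_mod_cast this
      nlinarith

lemma term_zero {M : RM (m+3)} (h : M.Conn) (h2 : 2 ≤ M.k) (h3 : M.k ≤ m + 1)
    (D : Finset (Fin (m+3))) (h0 : M.term D = 0) :
    (D = ∅ ∧ M.k = 2) ∨ (D = Finset.univ ∧ M.k = m + 1) ∨ (M.r D = 1 ∧ (D.card : ℤ) = m + 3 - M.k) := by
  unfold term at h0
  rcases D.eq_empty_or_nonempty with rfl | hne
  · left
    refine ⟨rfl, ?_⟩
    rw [M.r_empty] at h0
    simp only [Finset.card_empty] at h0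
    push_cast at h0
    have : (M.k - 2) * (m + 2 - M.k) = 0 := by linarith
    rcases mul_eq_zero.1 this with h4 | h4
    · linarith
    · linarith
  · right
    have hr := r_pos_of_nonempty (m := m+1) h hne
    rcases lt_or_eq_of_le (M.r_le_k D) with hlt | heq
    · right
      have hc := card_le_of_nonspanning (m := m+1) h D hlt
      push_cast at hc
      have h5 : M.r D = 1 := by
        by_contra hcon
        have : 2 ≤ M.r D := by omega
        nlinarith
      refine ⟨h5, ?_⟩
      rw [h5] at h0
      have : (M.k - 1) * (D.card - (m + 3 - M.k)) = 0 := by linarith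
      rcases mul_eq_zero.1 this with h4 | h4
      · linarith
      · linarith
    · left
      rw [heq] at h0
      have h5 : (M.k - 1) * ((m + 1) - (D.card - (m + 3 - M.k))) = 0 := by linarith
      have h6 : (m + 1 : ℤ) - (D.card - (m + 3 - M.k)) = 0 := by
        rcases mul_eq_zero.1 h5 with h4 | h4
        · linarith
        · exact h4
      have hc : (D.card : ℤ) ≤ m + 3 := by
        have := Finset.card_le_univ D
        rw [Fintype.card_fin] at this
        exact_mod_cast this
      have hcard : (D.card : ℤ) = m + 3 := by linarith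
      refine ⟨?_, by linarith⟩
      rw [← Finset.card_eq_iff_eq_univ, Fintype.card_fin]
      exact_mod_cast hcard


/-- level sets of the deletion weights -/
def lev (M : RM (m+2)) (t : ℕ) : Finset (Fin (m+2)) :=
  Finset.univ.filter (fun e => (t : ℤ) < (M.del e).beta)

lemma lev_antitone (M : RM (m+2)) : Antitone M.lev := by
  intro s t hst e he
  simp only [lev, Finset.mem_filter, Finset.mem_univ, true_and] at he ⊢
  have : (s:ℤ) ≤ t := by exact_mod_cast hst
  linarith

lemma sum_lev (M : RM (m+2)) (A : Finset (Fin (m+2))) (hle : ∀ e, (M.del e).beta ≤ M.beta) :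
    ∑ e ∈ A, (M.del e).beta = ∑ t ∈ Finset.range M.beta.toNat, ((A ∩ M.lev t).card : ℤ) := by
  have h1 : ∀ t, ((A ∩ M.lev t).card : ℤ) = ∑ e ∈ A, (if (t:ℤ) < (M.del e).beta then 1 else 0) := by
    intro t
    rw [← Finset.sum_filter, Finset.sum_const]
    simp only [lev, nsmul_eq_mul, mul_one]
    congr 1
    congr 1
    ext x
    simp
  simp_rw [h1]
  rw [Finset.sum_comm]
  apply Finset.sum_congr rfl
  intro e _
  have h2 := beta_nonneg _ (M.del e)
  have h3 := hle e
  have h4 : ∀ t ∈ Finset.range M.beta.toNat, (if (t:ℤ) < (M.del e).beta then (1:ℤ) else 0)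
      = if t ∈ Finset.range (M.del e).beta.toNat then 1 else 0 := by
    intro t _
    have : ((t:ℤ) < (M.del e).beta) ↔ t ∈ Finset.range (M.del e).beta.toNat := by
      rw [Finset.mem_range]; omega
    simp only [this]
  rw [Finset.sum_congr rfl h4, Finset.sum_ite_mem, Finset.sum_const, nsmul_eq_mul, mul_one]
  have h5 : Finset.range M.beta.toNat ∩ Finset.range (M.del e).beta.toNat = Finset.range (M.del e).beta.toNat := by
    apply Finset.inter_eq_right.2
    apply Finset.range_subset_range.2
    omega
  rw [h5, Finset.card_range]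
  omega

lemma beta_con {M : RM (m+2)} (h : M.Conn) (e : Fin (m+2)) :
    (M.con e).beta = M.beta - (M.del e).beta := by
  have := M.beta_rec e (h.good e)
  linarith

lemma del_le {M : RM (m+2)} (h : M.Conn) (e : Fin (m+2)) : (M.del e).beta ≤ M.beta := by
  have := M.beta_rec e (h.good e)
  have := beta_nonneg _ (M.con e)
  linarith

/-- Core inequality (**) with its defect: for a greedy base. -/
lemma greedy_defect {M : RM (m+3)} (h : M.Conn) :
    ∃ B ∈ M.bases, ((m:ℤ) + 1) * (∑ e ∈ B, (M.del e).beta - M.beta)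
      - (M.k - 1) * (∑ e, (M.del e).beta - (m + 3 - M.k) * M.beta)
      = ∑ t ∈ Finset.range M.beta.toNat, M.term (M.lev t) := by
  obtain ⟨B, hB, hBt⟩ := M.exists_greedy_base M.beta.toNat M.lev (lev_antitone (m := m+1) M)
  refine ⟨B, hB, ?_⟩
  have hb : M.beta = ∑ t ∈ Finset.range M.beta.toNat, (1:ℤ) := by
    rw [Finset.sum_const, Finset.card_range, nsmul_eq_mul, mul_one]
    have := beta_nonneg _ M
    omega
  have hle := fun e => del_le (m := m+1) h e
  have h1 := sum_lev (m := m+1) M B hle
  have h2 := sum_lev (m := m+1) M Finset.univ hle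
  rw [h1, h2]
  have h3 : ∑ t ∈ Finset.range M.beta.toNat, ((B ∩ M.lev t).card : ℤ)
      = ∑ t ∈ Finset.range M.beta.toNat, M.r (M.lev t) :=
    Finset.sum_congr rfl (fun t ht => hBt t (Finset.mem_range.1 ht))
  rw [h3]
  simp only [Finset.univ_inter]
  have h4 : ∀ t, M.term (M.lev t) = ((m:ℤ) + 1) * (M.r (M.lev t) - 1)
      - (M.k - 1) * ((M.lev t).card - (m + 3 - M.k) * 1) := by
    intro t; unfold term; ring
  simp_rw [h4]
  rw [Finset.sum_sub_distrib, ← Finset.mul_sum, ← Finset.mul_sum, Finset.sum_sub_distrib,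
    Finset.sum_sub_distrib, ← Finset.mul_sum, ← hb]

end RM
end Pool.Agent.helper2.BV
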