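import Mathlib
import Pool.Agent.helper2.BVIneq
open MeasureTheory Set

namespace Pool.Agent.helper2.BV
namespace RM

variable {n m : ℕ}

lemma poly_two_mem (F : Set (Finset (Fin 2))) (h0 : {0} ∈ F) (h1 : {1} ∈ F) :
    Icc (0 : Fin 1 → ℝ) 1 ⊆ pr 1 '' poly F := by
  intro y hy
  have hy0 : 0 ≤ y 0 := hy.1 0
  have hy1 : y 0 ≤ 1 := hy.2 0
  refine ⟨y 0 • ind {0} + (1 - y 0) • ind {1}, ?_, ?_⟩
  · exact convex_poly F (ind_mem_poly h0) (ind_mem_poly h1) hy0 (by linarith) (by ring)
  · ext i
    have : i = 0 := Subsingleton.elim _ _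
    subst this
    simp [pr_apply, ind]

lemma one_le_Vol_two {M : RM 2} (h : M.Conn) : 1 ≤ M.Vol := by
  have hk1 := Conn.k_pos (m := 0) h
  have hk2 := Conn.k_lt (m := 0) h
  have hk : M.k = 1 := by push_cast at hk2; linarith
  have hb : ∀ e : Fin 2, {e} ∈ M.bases := by
    intro e
    have := (Conn.good (m := 0) h e).1
    exact ⟨by rw [this]; simp, by rw [this, hk]⟩
  have h1 := poly_two_mem M.bases (hb 0) (hb 1)
  have h2 : volume (Icc (0 : Fin 1 → ℝ) 1) = 1 := by
    rw [Real.volume_Icc_pi]; simp
  have h3 : (1 : ENNReal) ≤ V 1 (poly M.bases) := by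
    rw [← h2]; exact measure_mono h1
  unfold Vol
  have h4 := ENNReal.toReal_mono (V_poly_lt_top M.bases).ne h3
  simpa using h4

lemma beta_two {M : RM 2} (h : M.Conn) : M.beta = 1 := by
  have hk1 := Conn.k_pos (m := 0) h
  have hk2 := Conn.k_lt (m := 0) h
  have hk : M.k = 1 := by push_cast at hk2; linarith
  have hg := Conn.good (m := 0) h 0
  rw [M.beta_rec 0 hg, beta_one, beta_one, del_k, con_k, hg.1, hg.2, hk]
  norm_num

lemma exists_notMem_of_k_lt {M : RM (m+2)} (h : M.Conn) {B : Finset (Fin (m+2))} (hB : B ∈ M.bases) :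
    ∃ e, e ∉ B := by
  by_contra hcon
  push Not at hcon
  have : B = Finset.univ := by ext x; simp [hcon x]
  have h1 := hB.1
  have h2 := hB.2
  rw [h2, this] at h1
  simp at h1
  have := h.k_lt
  linarith

/-- The inequality with an explicit defect. -/
lemma defect {M : RM (m+3)} (h : M.Conn) (h2 : 2 ≤ M.k) (h3 : M.k ≤ m + 1)
    (ih : ∀ M' : RM (m+2), (M'.beta:ℝ) * (m.choose (M'.k.toNat - 1) : ℝ) ≤ M'.Vol) :
    (((m+1).choose (M.k.toNat - 1) : ℕ) : ℝ) *
      ((∑ t ∈ Finset.range M.beta.toNat, M.term (M.lev t) : ℤ) : ℝ)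
      ≤ ((m:ℝ) + 1) * (M.Vol - (M.beta:ℝ) * ((m+1).choose (M.k.toNat - 1) : ℝ)) := by
  obtain ⟨B, hB, hdef⟩ := M.greedy_defect h
  rw [← hdef]
  obtain ⟨j, hj⟩ : ∃ j : ℕ, M.k = j + 2 := ⟨(M.k - 2).toNat, by omega⟩
  have hkn : M.k.toNat - 1 = j + 1 := by omega
  have hjm : j + 1 ≤ m := by omega
  have hdelk : ∀ e, (M.del e).k.toNat - 1 = j + 1 := by
    intro e
    rw [M.del_k, (h.good e).2]; exact hkn
  have hconk : ∀ e, (M.con e).k.toNat - 1 = j := by
    intro e
    rw [M.con_k, (h.good e).1]; omega
  have hpyr := M.pyramid h B hB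
  set c1 : ℝ := (m.choose (j+1) : ℝ) with hc1
  set c0 : ℝ := (m.choose j : ℝ) with hc0
  set C : ℝ := ((m+1).choose (j+1) : ℝ) with hC
  have e1 : c1 * ((m:ℝ) + 1) = C * ((m:ℝ) - j) := by
    have := Nat.choose_mul_succ_eq m (j+1)
    have h' : (m.choose (j+1) : ℝ) * ((m:ℝ)+1) = ((m+1).choose (j+1) : ℝ) * (((m + 1 - (j+1) : ℕ)) : ℝ) := by
      exact_mod_cast this
    rw [hc1, hC, h']
    congr 1
    have : m + 1 - (j+1) = m - j := by omega
    rw [this, Nat.cast_sub (by omega)]
  have e0 : ((m:ℝ) + 1) * c0 = C * ((j:ℝ) + 1) := by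
    have := Nat.add_one_mul_choose_eq m j
    rw [hc0, hC]
    exact_mod_cast this
  -- lower bound for the sum
  have hterm : ∀ e : Fin (m+3), (if e ∈ B then ((M.del e).beta : ℝ) * c1 else ((M.beta : ℝ) - (M.del e).beta) * c0)
      ≤ (if e ∈ B then (M.del e).Vol else (M.con e).Vol) := by
    intro e
    by_cases he : e ∈ B
    · simp only [he, if_true]
      have := ih (M.del e)
      rw [hdelk e] at this
      exact this
    · simp only [he, if_false]
      have := ih (M.con e)
      rw [hconk e, beta_con (m := m+1) h e] at this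
      push_cast at this
      exact this
  have hsum := (Finset.sum_le_sum (fun e (_ : e ∈ Finset.univ) => hterm e)).trans hpyr
  have hsplit : ∑ e : Fin (m+3), (if e ∈ B then ((M.del e).beta : ℝ) * c1 else ((M.beta : ℝ) - (M.del e).beta) * c0)
      = (∑ e ∈ B, ((M.del e).beta : ℝ)) * c1
        + (((m:ℝ) + 3 - (j + 2)) * M.beta - (∑ e, ((M.del e).beta : ℝ) - ∑ e ∈ B, ((M.del e).beta : ℝ))) * c0 := by
    have hB' : ∑ e, ((M.del e).beta : ℝ) - ∑ e ∈ B, ((M.del e).beta : ℝ) = ∑ e ∈ Bᶜ, ((M.del e).beta : ℝ) := by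
      rw [← Finset.sum_add_sum_compl B]; ring
    rw [hB', ← Finset.sum_add_sum_compl B]
    congr 1
    · rw [Finset.sum_mul]
      apply Finset.sum_congr rfl
      intro e he
      simp [he]
    · rw [Finset.sum_congr rfl (g := fun e => ((M.beta : ℝ) - (M.del e).beta) * c0)
        (fun e he => by rw [Finset.mem_compl] at he; simp [he])]
      rw [← Finset.sum_mul, Finset.sum_sub_distrib, Finset.sum_const, nsmul_eq_mul]
      congr 3
      have hcB : (B.card : ℤ) = j + 2 := by rw [← hj, ← hB.2]; exact hB.1.symm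
      have := Finset.card_add_card_compl B
      rw [Fintype.card_fin] at this
      have h' : ((Bᶜ.card : ℤ)) = m + 3 - (j + 2) := by
        have : ((B.card : ℤ)) + Bᶜ.card = m + 3 := by exact_mod_cast this
        linarith
      exact_mod_cast h'
  rw [hsplit] at hsum
  rw [hkn]
  push_cast
  rw [hj]
  push_cast
  set T : ℝ := ∑ e, ((M.del e).beta : ℝ)
  set hh : ℝ := ∑ e ∈ B, ((M.del e).beta : ℝ)
  set b : ℝ := (M.beta : ℝ)
  have h6 := mul_le_mul_of_nonneg_left hsum (by positivity : (0:ℝ) ≤ (m:ℝ)+1)
  have h7 : ((m:ℝ) + 1) * (hh * c1 + (((m:ℝ) + 3 - (j + 2)) * b - (T - hh)) * c0)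
      = hh * (c1 * ((m:ℝ) + 1)) + (((m:ℝ) + 3 - (j + 2)) * b - (T - hh)) * (((m:ℝ) + 1) * c0) := by ring
  rw [h7, e1, e0] at h6
  calc _ = hh * (C * ((m:ℝ) - j)) + (((m:ℝ) + 3 - (j + 2)) * b - (T - hh)) * (C * ((j:ℝ) + 1))
        - ((m:ℝ) + 1) * (b * C) := by ring
    _ ≤ ((m:ℝ) + 1) * M.Vol - ((m:ℝ) + 1) * (b * C) := by linarith
    _ = _ := by ring

theorem main_ineq : ∀ (m : ℕ) (M : RM (m+2)), (M.beta:ℝ) * (m.choose (M.k.toNat - 1) : ℝ) ≤ M.Vol := by
  intro m
  induction m with
  | zero =>
    intro M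
    by_cases h : M.Conn
    · have hk1 := Conn.k_pos (m := 0) h
      have hk2 := Conn.k_lt (m := 0) h
      have hk : M.k = 1 := by push_cast at hk2; linarith
      rw [beta_two h, hk]
      simpa using one_le_Vol_two h
    · rw [M.beta_eq_zero_of_not_conn h]
      simpa using M.Vol_nonneg
  | succ m ih =>
    intro M
    by_cases h : M.Conn
    · have hk1 := Conn.k_pos (m := m+1) h
      have hk2 := Conn.k_lt (m := m+1) h
      push_cast at hk2
      obtain ⟨B, hB⟩ := M.exists_base
      have hpyr := M.pyramid h B hB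
      have hnn : ∀ e ∈ (Finset.univ : Finset (Fin (m+3))), 0 ≤ (if e ∈ B then (M.del e).Vol else (M.con e).Vol) := by
        intro e _
        split_ifs
        · exact Vol_nonneg _
        · exact Vol_nonneg _
      rcases eq_or_lt_of_le hk1 with hk | hk
      · -- rank one
        have hBne : B.Nonempty := by
          rw [Finset.nonempty_iff_ne_empty]
          rintro rfl
          have h1 := hB.1
          have h2 := hB.2
          rw [h2, ← hk] at h1
          simp at h1
        obtain ⟨e, he⟩ := hBne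
        have h1 := Finset.single_le_sum hnn (Finset.mem_univ e)
        simp only [he, if_true] at h1
        have h2 := ih (M.del e)
        have h3 : (M.con e).beta = 0 := by
          apply beta_eq_zero_of_not_conn
          apply not_conn_of_k_zero (m := m)
          rw [M.con_k, (h.good e).1, ← hk]; norm_num
        have h4 := M.beta_rec e (h.good e)
        rw [h3, add_zero] at h4
        rw [← h4, M.del_k, (h.good e).2] at h2
        rw [← hk] at h2 ⊢
        simp at h2 ⊢
        linarith
      · rcases eq_or_lt_of_le hk2 with hk' | hk'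
        · -- corank one
          obtain ⟨e, he⟩ := exists_notMem_of_k_lt (m := m+1) h hB
          have h1 := Finset.single_le_sum hnn (Finset.mem_univ e)
          simp only [he, if_false] at h1
          have h2 := ih (M.con e)
          have h3 : (M.del e).beta = 0 := by
            apply beta_eq_zero_of_not_conn
            apply not_conn_of_k_full (m := m)
            rw [M.del_k, (h.good e).2, hk']; ring
          have h4 := M.beta_rec e (h.good e)
          rw [h3, zero_add] at h4
          rw [← h4, M.con_k, (h.good e).1] at h2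
          have h5 : M.k.toNat - 1 = m + 1 := by omega
          have h6 : (M.k - 1).toNat - 1 = m := by omega
          rw [h6] at h2
          rw [h5]
          simp at h2 ⊢
          linarith
        · have hd := defect h (by omega) (by omega) ih
          have ht : (0:ℝ) ≤ ((∑ t ∈ Finset.range M.beta.toNat, M.term (M.lev t) : ℤ) : ℝ) := by
            have : (0:ℤ) ≤ ∑ t ∈ Finset.range M.beta.toNat, M.term (M.lev t) :=
              Finset.sum_nonneg (fun t _ => term_nonneg h (by omega) (by omega) _)
            exact_mod_cast this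
          have h1 : (0:ℝ) ≤ ((m:ℝ) + 1) * (M.Vol - (M.beta:ℝ) * ((m+1).choose (M.k.toNat - 1) : ℝ)) :=
            le_trans (by positivity) hd
          have h2 := nonneg_of_mul_nonneg_right h1 (by positivity)
          linarith
    · rw [M.beta_eq_zero_of_not_conn h]
      simpa using M.Vol_nonneg

/-- `M` is (isomorphic to) the minimal matroid. -/
def IsT (M : RM n) : Prop := ∃ D : Finset (Fin n), (D.card : ℤ) = n - M.k ∧
  ∀ B, B ∈ M.bases ↔ ((B.card : ℤ) = M.k ∧ (B ∩ D).card ≤ 1)

def IsU24 (M : RM n) : Prop := n = 4 ∧ ∀ B, B ∈ M.bases ↔ B.card = 2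

lemma isT_of_rank_one_set {M : RM (m+2)} (h : M.Conn) (D : Finset (Fin (m+2))) (h1 : M.r D = 1)
    (h2 : (D.card : ℤ) = m + 2 - M.k) (h3 : 1 ≤ M.k) : M.IsT := by
  have hc : (D.card : ℤ) + Dᶜ.card = m + 2 := by
    have := Finset.card_add_card_compl D
    rw [Fintype.card_fin] at this
    exact_mod_cast this
  have hDne : D.Nonempty := by
    rw [Finset.nonempty_iff_ne_empty]
    rintro rfl
    rw [M.r_empty] at h1
    norm_num at h1
  have hDc : Dᶜ.Nonempty := by
    rw [← Finset.card_pos]
    have : (0:ℤ) < Dᶜ.card := by linarith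
    exact_mod_cast this
  refine ⟨D, by push_cast; exact h2, ?_⟩
  intro B
  constructor
  · intro hB
    have hb1 := hB.1
    have hb2 := hB.2
    refine ⟨by rw [← hb1, hb2], ?_⟩
    have h4 := M.indep_subset hb1 (Finset.inter_subset_left : B ∩ D ⊆ B)
    have h5 := M.r_mono (B ∩ D) D Finset.inter_subset_right
    rw [h4, h1] at h5
    exact_mod_cast h5
  · rintro ⟨hb, hbd⟩
    have hrk : M.r B = M.k := by
      apply le_antisymm (M.r_le_k B)
      rcases Nat.lt_or_ge (B ∩ D).card 1 with h0 | h0
      · -- B = Dᶜ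
        have hBD : B ⊆ Dᶜ := by
          intro x hx
          rw [Finset.mem_compl]
          intro hxD
          have : 0 < (B ∩ D).card := Finset.card_pos.2 ⟨x, Finset.mem_inter.2 ⟨hx, hxD⟩⟩
          omega
        have hBeq : B = Dᶜ := by
          apply Finset.eq_of_subset_of_card_le hBD
          have : (Dᶜ.card : ℤ) ≤ B.card := by linarith
          exact_mod_cast this
        have := h D hDne hDc
        rw [h1, ← hBeq] at this
        linarith
      · have h01 : (B ∩ D).card = 1 := le_antisymm hbd h0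
        obtain ⟨d, hd⟩ := Finset.card_eq_one.1 h01
        have hdB : d ∈ B := by
          have : d ∈ B ∩ D := by rw [hd]; simp
          exact (Finset.mem_inter.1 this).1
        have hdD : d ∈ D := by
          have : d ∈ B ∩ D := by rw [hd]; simp
          exact (Finset.mem_inter.1 this).2
        -- there is a unique element outside B ∪ D
        have hcu : ((B ∪ D).card : ℤ) = m + 1 := by
          have := Finset.card_union_add_card_inter B D
          rw [h01] at this
          have h' : ((B ∪ D).card : ℤ) + 1 = B.card + D.card := by exact_mod_cast this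
          linarith
        have hcc : ((B ∪ D)ᶜ).card = 1 := by
          have := Finset.card_add_card_compl (B ∪ D)
          rw [Fintype.card_fin] at this
          omega
        obtain ⟨s, hs⟩ := Finset.card_eq_one.1 hcc
        have hBD : B ∪ D = {s}ᶜ := by rw [← hs, compl_compl]
        have h6 := M.r_submod B D
        rw [hBD, (h.good s).2, hd, (h.good d).1, h1] at h6
        linarith
    exact ⟨by rw [hrk, hb], hrk⟩

lemma isT_of_k_one {M : RM (m+2)} (h : M.Conn) (hk : M.k = 1) : M.IsT := by
  have hs : ∀ e, {e} ∈ M.bases := fun e => by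
    have := (h.good e).1
    exact ⟨by rw [this]; simp, by rw [this, hk]⟩
  refine ⟨{0}ᶜ, ?_, ?_⟩
  · rw [hk, Finset.card_compl]; simp; ring
  · intro B
    constructor
    · intro hB
      have hc : (B.card : ℤ) = M.k := by rw [← hB.1, hB.2]
      refine ⟨hc, ?_⟩
      have : B.card = 1 := by rw [hk] at hc; exact_mod_cast hc
      calc _ ≤ B.card := Finset.card_le_card Finset.inter_subset_left
        _ = 1 := this
    · rintro ⟨hc, -⟩
      have : B.card = 1 := by rw [hk] at hc; exact_mod_cast hc
      obtain ⟨e, rfl⟩ := Finset.card_eq_one.1 this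
      exact hs e

lemma isT_of_corank_one {M : RM (m+2)} (h : M.Conn) (hk : M.k = m + 1) : M.IsT := by
  refine ⟨{0}, ?_, ?_⟩
  · rw [hk]; push_cast; simp
  · intro B
    constructor
    · intro hB
      refine ⟨by rw [← hB.1, hB.2], ?_⟩
      calc _ ≤ ({0} : Finset (Fin (m+2))).card := Finset.card_le_card Finset.inter_subset_right
        _ = 1 := by simp
    · rintro ⟨hc, -⟩
      have hcc : (Bᶜ).card = 1 := by
        have := Finset.card_add_card_compl B
        rw [Fintype.card_fin] at this
        omega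
      obtain ⟨s, hs⟩ := Finset.card_eq_one.1 hcc
      have hB : B = {s}ᶜ := by rw [← hs, compl_compl]
      have hr : M.r B = M.k := by rw [hB, (h.good s).2]
      exact ⟨by rw [hr, hc], hr⟩

lemma pair_of_con_conn {M : RM (m+3)} (h : M.Conn) (e : Fin (m+3)) (hc : (M.con e).Conn)
    (f : Fin (m+3)) (hf : f ≠ e) : M.r {e, f} = 2 := by
  rcases Fin.eq_self_or_eq_succAbove e f with rfl | ⟨j, rfl⟩
  · exact absurd rfl hf
  have h1 : (M.con e).r {j} = 1 := (hc.good j).1
  have h2 : (M.con e).r {j} = M.r (insert e (up e {j})) - M.r {e} := rfl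
  have h3 : up e {j} = {e.succAbove j} := by simp [up]
  rw [h2, h3, (h.good e).1] at h1
  linarith

lemma compl_of_del_conn {M : RM (m+3)} (h : M.Conn) (e : Fin (m+3)) (hc : (M.del e).Conn)
    (f : Fin (m+3)) (hf : f ≠ e) : M.r {e, f}ᶜ = M.k := by
  rcases Fin.eq_self_or_eq_succAbove e f with rfl | ⟨j, rfl⟩
  · exact absurd rfl hf
  have h1 : (M.del e).r {j}ᶜ = (M.del e).k := (hc.good j).2
  have h2 : (M.del e).r {j}ᶜ = M.r (up e {j}ᶜ) := rfl
  have h3 : up e {j} = {e.succAbove j} := by simp [up]
  rw [h2, up_compl, h3, M.del_k, (h.good e).2] at h1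
  exact h1

/-- a rank-two matroid without parallel elements has connected deletions (n ≥ 4) -/
lemma del_conn_of_pairs {M : RM (m+4)} (h : M.Conn) (hk : M.k = 2)
    (hp : ∀ e f, f ≠ e → M.r {e, f} = 2) : (M.del 0).Conn := by
  intro A hA hA'
  have hdk : (M.del 0).k = 2 := by rw [M.del_k, (h.good 0).2, hk]
  have h1 : ∀ X : Finset (Fin (m+3)), X.Nonempty → 1 ≤ (M.del 0).r X := by
    intro X hX
    exact r_pos_of_nonempty (m := m+2) h (Finset.Nonempty.map hX)
  have h2 : ∀ X : Finset (Fin (m+3)), 1 < X.card → 2 ≤ (M.del 0).r X := by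
    intro X hX
    obtain ⟨a, ha, b, hb, hab⟩ := Finset.one_lt_card.1 hX
    have h3 := M.r_mono {Fin.succAbove 0 a, Fin.succAbove 0 b} (up 0 X) (by
      intro x hx
      simp only [Finset.mem_insert, Finset.mem_singleton] at hx
      rcases hx with rfl | rfl
      · exact (succAbove_mem_up 0 X a).2 ha
      · exact (succAbove_mem_up 0 X b).2 hb)
    rw [hp _ _ (fun hh => hab (Fin.succAbove_right_injective hh).symm)] at h3
    exact h3
  have hcard := Finset.card_add_card_compl A
  rw [Fintype.card_fin] at hcard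
  have hA1 := h1 A hA
  have hA2 := h1 Aᶜ hA'
  rw [hdk]
  by_cases hc : 1 < A.card
  · have := h2 A hc; linarith
  · have := h2 Aᶜ (by omega); linarith

/-- dual statement -/
lemma con_conn_of_copairs {M : RM (m+4)} (h : M.Conn) (hk : M.k = m + 2)
    (hp : ∀ e f, f ≠ e → M.r {e, f}ᶜ = M.k) : (M.con 0).Conn := by
  -- every set of size at most m+2 is independent
  have hind : ∀ X : Finset (Fin (m+4)), X.card ≤ m + 2 → M.r X = X.card := by
    intro X hX
    obtain ⟨Y, hXY, hY⟩ := Finset.exists_superset_card_eq hX (by simp)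
    have hYc : Yᶜ.card = 2 := by
      have := Finset.card_add_card_compl Y
      rw [Fintype.card_fin] at this
      omega
    obtain ⟨a, b, hab, hYab⟩ := Finset.card_eq_two.1 hYc
    have hY' : Y = {a, b}ᶜ := by rw [← hYab, compl_compl]
    have hrY : M.r Y = Y.card := by
      rw [hY]; rw [hY', hp a b hab.symm, hk]; push_cast; ring
    exact M.indep_subset hrY hXY
  intro A hA hA'
  have hck : (M.con 0).k = m + 1 := by rw [M.con_k, (h.good 0).1, hk]; ring
  have h2 : ∀ X : Finset (Fin (m+3)), X.card ≤ m + 1 → (M.con 0).r X = X.card := by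
    intro X hX
    show M.r (insert 0 (up 0 X)) - M.r {0} = _
    have hc : (insert (0 : Fin (m+4)) (up 0 X)).card = X.card + 1 := by
      rw [Finset.card_insert_of_notMem (notMem_up 0 X), card_up]
    rw [hind _ (by rw [hc]; omega), hc, (h.good 0).1]
    push_cast; ring
  have h3 : ∀ X : Finset (Fin (m+3)), m + 1 ≤ X.card → (m:ℤ) + 1 ≤ (M.con 0).r X := by
    intro X hX
    obtain ⟨Y, hYX, hY⟩ := Finset.exists_subset_card_eq hX
    have h4 := (M.con 0).r_mono Y X hYX
    rw [h2 Y (by omega), hY] at h4
    push_cast at h4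
    exact h4
  have hcard := Finset.card_add_card_compl A
  rw [Fintype.card_fin] at hcard
  have hp1 : 0 < A.card := Finset.card_pos.2 hA
  have hp2 : 0 < Aᶜ.card := Finset.card_pos.2 hA'
  rw [hck]
  by_cases hc1 : A.card ≤ m + 1
  · by_cases hc2 : Aᶜ.card ≤ m + 1
    · rw [h2 A hc1, h2 _ hc2]
      have : ((A.card : ℤ)) + Aᶜ.card = m + 3 := by exact_mod_cast hcard
      linarith
    · have h5 := h3 Aᶜ (by omega)
      rw [h2 A hc1]
      have : (0:ℤ) < A.card := by exact_mod_cast hp1
      linarith
  · have h5 := h3 A (by omega)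
    have hc2 : Aᶜ.card ≤ m + 1 := by omega
    rw [h2 _ hc2]
    have : (0:ℤ) < Aᶜ.card := by exact_mod_cast hp2
    linarith

theorem eq_imp (M : RM (m+2)) (h : M.Conn)
    (heq : (M.beta:ℝ) * (m.choose (M.k.toNat - 1) : ℝ) = M.Vol) : M.IsT ∨ M.IsU24 := by
  have hk1 := h.k_pos
  have hk2 := h.k_lt
  rcases eq_or_lt_of_le hk1 with hk | hk
  · exact Or.inl (isT_of_k_one h hk.symm)
  rcases eq_or_lt_of_le hk2 with hk' | hk'
  · exact Or.inl (isT_of_corank_one h hk')
  obtain ⟨l, rfl⟩ : ∃ l, m = l + 1 := ⟨m - 1, by omega⟩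
  push_cast at hk'
  have hd := defect h (by omega) (by omega) (main_ineq l)
  have hnn : ∀ t ∈ Finset.range M.beta.toNat, 0 ≤ M.term (M.lev t) :=
    fun t _ => term_nonneg h (by omega) (by omega) _
  have hC : (0:ℝ) < (((l+1).choose (M.k.toNat - 1) : ℕ) : ℝ) := by
    have : 0 < (l+1).choose (M.k.toNat - 1) := Nat.choose_pos (by omega)
    exact_mod_cast this
  have hsum0 : ∑ t ∈ Finset.range M.beta.toNat, M.term (M.lev t) = 0 := by
    apply le_antisymm _ (Finset.sum_nonneg hnn)
    rw [← heq, sub_self, mul_zero] at hd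
    have h1 : ((∑ t ∈ Finset.range M.beta.toNat, M.term (M.lev t) : ℤ) : ℝ) ≤ 0 := by
      by_contra hcon
      push Not at hcon
      have := mul_pos hC hcon
      linarith
    exact_mod_cast h1
  have hz := (Finset.sum_eq_zero_iff_of_nonneg hnn).1 hsum0
  have hcl : ∀ t ∈ Finset.range M.beta.toNat, _ := fun t ht =>
    term_zero h (by omega) (by omega) (M.lev t) (hz t ht)
  have hbpos : 0 < M.beta := Conn.beta_pos (l+1) M h
  by_cases hR : ∃ t ∈ Finset.range M.beta.toNat, M.r (M.lev t) = 1 ∧ ((M.lev t).card : ℤ) = l + 3 - M.k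
  · obtain ⟨t, _, h1, h2⟩ := hR
    left
    exact isT_of_rank_one_set h (M.lev t) h1 (by rw [h2]; push_cast; ring) hk1
  · push Not at hR
    have hcl' : ∀ t ∈ Finset.range M.beta.toNat,
        (M.lev t = ∅ ∧ M.k = 2) ∨ (M.lev t = Finset.univ ∧ M.k = l + 1) := by
      intro t ht
      rcases hcl t ht with h1 | h1 | h1
      · exact Or.inl h1
      · exact Or.inr h1
      · exact absurd h1.2 (hR t ht h1.1)
    have h0r : 0 ∈ Finset.range M.beta.toNat := by rw [Finset.mem_range]; omega
    have h1r : M.beta.toNat - 1 ∈ Finset.range M.beta.toNat := by rw [Finset.mem_range]; omega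
    -- positivity of the deletions and contractions
    obtain ⟨p, rfl⟩ : ∃ p, l = p + 1 := ⟨l - 1, by omega⟩
    have hgood : ∀ e, M.Good e := fun e => Conn.good (m := p+2) h e
    rcases hcl' 0 h0r with ⟨hlev, hk2'⟩ | ⟨hlev, hkn⟩
    · -- all deletion weights vanish
      exfalso
      have hdel0 : ∀ e, ¬ (M.del e).Conn := by
        intro e hc
        have h1 := Conn.beta_pos _ _ hc
        have h2 : e ∈ M.lev 0 := by simp [lev, h1]
        rw [hlev] at h2
        simp at h2
      have hcon : ∀ e, (M.con e).Conn := fun e =>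
        (M.tutte h e (hgood e)).resolve_left (hdel0 e)
      exact hdel0 0 (del_conn_of_pairs h hk2' (fun e f hf => pair_of_con_conn h e (hcon e) f hf))
    · have hdelpos : ∀ e, 0 < (M.del e).beta := by
        intro e
        have : e ∈ M.lev 0 := by rw [hlev]; simp
        simpa [lev] using this
      rcases hcl' _ h1r with ⟨hlev', hk2'⟩ | ⟨hlev', -⟩
      · right
        have hp : p = 0 := by push_cast at hkn; omega
        subst hp
        have hcon : ∀ e, (M.con e).Conn := by
          intro e
          by_contra hc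
          have h1 := beta_eq_zero_of_not_conn _ hc
          rw [beta_con (m := 2) h e] at h1
          have h2 : e ∈ M.lev (M.beta.toNat - 1) := by
            simp only [lev, Finset.mem_filter, Finset.mem_univ, true_and]
            omega
          rw [hlev'] at h2
          simp at h2
        have hp := fun e f hf => pair_of_con_conn h e (hcon e) f hf
        refine ⟨rfl, ?_⟩
        intro B
        constructor
        · intro hB
          have : (B.card : ℤ) = 2 := by rw [← hk2', ← hB.2]; exact hB.1.symm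
          exact_mod_cast this
        · intro hB
          obtain ⟨a, b, hab, rfl⟩ := Finset.card_eq_two.1 hB
          have := hp a b hab.symm
          exact ⟨by rw [this, hB]; norm_num, by rw [this, hk2']⟩
      · exfalso
        have hcon0 : ∀ e, ¬ (M.con e).Conn := by
          intro e hc
          have h1 := Conn.beta_pos _ _ hc
          rw [beta_con (m := p+2) h e] at h1
          have h2 : e ∈ M.lev (M.beta.toNat - 1) := by rw [hlev']; simp
          simp only [lev, Finset.mem_filter, Finset.mem_univ, true_and] at h2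
          omega
        have hdel : ∀ e, (M.del e).Conn := fun e =>
          (M.tutte h e (hgood e)).resolve_right (hcon0 e)
        refine hcon0 0 (con_conn_of_copairs h (by rw [hkn]; push_cast; ring)
          (fun e f hf => compl_of_del_conn h e (hdel e) f hf))

end RM
end Pool.Agent.helper2.BV
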