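import Mathlib
import Pool.Agent.helper2.BVRank
open MeasureTheory Set

namespace Pool.Agent.helper2.BV

variable {n m : ℕ}

/-- The bases of the minimal matroid with path part `S` and parallel class `Sᶜ`. -/
def TF (S : Finset (Fin n)) : Set (Finset (Fin n)) := {B | B.card = S.card ∧ (B \ S).card ≤ 1}

def sy (S : Finset (Fin n)) (x : Fin n → ℝ) : ℝ := ∑ i, if i ∈ S then 1 - x i else 0
def sz (S : Finset (Fin n)) (x : Fin n → ℝ) : ℝ := ∑ i, if i ∈ S then 0 else x i

/-- The inequality description. -/
def HS (S : Finset (Fin n)) : Set (Fin n → ℝ) :=
  {x | (∀ i ∈ S, x i ≤ 1) ∧ (∀ i ∉ S, 0 ≤ x i) ∧ sy S x = sz S x ∧ sz S x ≤ 1}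

lemma sy_combo (S : Finset (Fin n)) (x y : Fin n → ℝ) (a b : ℝ) (hab : a + b = 1) :
    sy S (a • x + b • y) = a * sy S x + b * sy S y := by
  unfold sy
  rw [Finset.mul_sum, Finset.mul_sum, ← Finset.sum_add_distrib]
  apply Finset.sum_congr rfl
  intro i _
  have : b = 1 - a := by linarith
  subst this
  by_cases h : i ∈ S
  · simp only [h, if_true, Pi.add_apply, Pi.smul_apply, smul_eq_mul]; ring
  · simp [h]

lemma sz_combo (S : Finset (Fin n)) (x y : Fin n → ℝ) (a b : ℝ) :
    sz S (a • x + b • y) = a * sz S x + b * sz S y := by
  unfold sz
  rw [Finset.mul_sum, Finset.mul_sum, ← Finset.sum_add_distrib]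
  apply Finset.sum_congr rfl
  intro i _
  by_cases h : i ∈ S
  · simp [h]
  · simp [h]

lemma sy_ind (S B : Finset (Fin n)) : sy S (ind B) = (S \ B).card := by
  unfold sy
  have : ∀ i, (if i ∈ S then 1 - ind B i else 0) = if i ∈ S \ B then (1:ℝ) else 0 := by
    intro i
    by_cases h : i ∈ S <;> by_cases h' : i ∈ B <;> simp [ind, h, h']
  simp_rw [this]
  rw [Finset.sum_ite_mem, Finset.univ_inter, Finset.sum_const, nsmul_eq_mul, mul_one]

lemma sz_ind (S B : Finset (Fin n)) : sz S (ind B) = (B \ S).card := by
  unfold sz
  have : ∀ i, (if i ∈ S then 0 else ind B i) = if i ∈ B \ S then (1:ℝ) else 0 := by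
    intro i
    by_cases h : i ∈ S <;> by_cases h' : i ∈ B <;> simp [ind, h, h']
  simp_rw [this]
  rw [Finset.sum_ite_mem, Finset.univ_inter, Finset.sum_const, nsmul_eq_mul, mul_one]

lemma poly_TF_subset (S : Finset (Fin n)) : poly (TF S) ⊆ HS S := by
  apply convexHull_min
  · rintro _ ⟨B, hB, rfl⟩
    refine ⟨fun i _ => ?_, fun i _ => ?_, ?_, ?_⟩
    · by_cases h' : i ∈ B <;> simp [ind, h']
    · by_cases h' : i ∈ B <;> simp [ind, h']
    · rw [sy_ind, sz_ind]
      have := Finset.card_sdiff_comm (s := S) (t := B) hB.1.symm
      rw [this]
    · rw [sz_ind]
      exact_mod_cast hB.2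
  · intro x hx y hy a b ha hb hab
    refine ⟨fun i hi => ?_, fun i hi => ?_, ?_, ?_⟩
    · have h1 := hx.1 i hi
      have h2 := hy.1 i hi
      simp only [Pi.add_apply, Pi.smul_apply, smul_eq_mul]
      nlinarith
    · have h1 := hx.2.1 i hi
      have h2 := hy.2.1 i hi
      simp only [Pi.add_apply, Pi.smul_apply, smul_eq_mul]
      positivity
    · rw [sy_combo S x y a b hab, sz_combo, hx.2.2.1, hy.2.2.1]
    · rw [sz_combo]
      have h1 := hx.2.2.2
      have h2 := hy.2.2.2
      nlinarith

lemma S_mem_TF (S : Finset (Fin n)) : S ∈ TF S := ⟨rfl, by simp⟩

lemma swap_mem_TF (S : Finset (Fin n)) (s d : Fin n) (hs : s ∈ S) (hd : d ∉ S) :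
    insert d (S.erase s) ∈ TF S := by
  constructor
  · rw [Finset.card_insert_of_notMem (fun h => hd (Finset.mem_of_mem_erase h)), Finset.card_erase_of_mem hs]
    have : 0 < S.card := Finset.card_pos.2 ⟨s, hs⟩
    omega
  · have : insert d (S.erase s) \ S ⊆ {d} := by
      intro x hx
      simp only [Finset.mem_sdiff, Finset.mem_insert, Finset.mem_erase] at hx
      simp only [Finset.mem_singleton]
      tauto
    calc _ ≤ ({d} : Finset (Fin n)).card := Finset.card_le_card this
      _ = 1 := by simp

lemma HS_subset_poly (S : Finset (Fin n)) : HS S ⊆ poly (TF S) := by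
  rintro x ⟨h1, h2, h3, h4⟩
  have hy0 : ∀ i ∈ (Finset.univ : Finset (Fin n)), 0 ≤ (if i ∈ S then 1 - x i else 0) := by
    intro i _
    split_ifs with h
    · linarith [h1 i h]
    · exact le_refl 0
  have hz0 : ∀ i ∈ (Finset.univ : Finset (Fin n)), 0 ≤ (if i ∈ S then 0 else x i) := by
    intro i _
    split_ifs with h
    · exact le_refl 0
    · exact h2 i h
  have hσ0 : 0 ≤ sz S x := Finset.sum_nonneg hz0
  rcases eq_or_lt_of_le hσ0 with hσ | hσ
  · -- x = ind S
    have hy : sy S x = 0 := by rw [h3, ← hσ]
    have hyi := (Finset.sum_eq_zero_iff_of_nonneg hy0).1 hy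
    have hzi := (Finset.sum_eq_zero_iff_of_nonneg hz0).1 hσ.symm
    have : x = ind S := by
      ext i
      have a1 := hyi i (Finset.mem_univ i)
      have a2 := hzi i (Finset.mem_univ i)
      by_cases h : i ∈ S
      · simp only [h, if_true] at a1
        simp only [ind, h, if_true]; linarith
      · simp only [h, if_false] at a2
        simp only [ind, h, if_false]; exact a2
    rw [this]
    exact ind_mem_poly (S_mem_TF S)
  · set σ := sz S x with hσd
    set w : Fin n × Fin n → ℝ := fun p =>
      (if p.1 ∈ S then 1 - x p.1 else 0) * (if p.2 ∈ S then 0 else x p.2) / (σ * σ) with hw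
    set z : Fin n × Fin n → (Fin n → ℝ) := fun p =>
      if p.1 ∈ S ∧ p.2 ∉ S then ind (insert p.2 (S.erase p.1)) else ind S with hz
    have hwsum : ∑ p, w p = 1 := by
      rw [Fintype.sum_prod_type]
      simp only [hw, ← Finset.sum_div, ← Finset.mul_sum, ← Finset.sum_mul]
      have : (∑ i, if i ∈ S then 1 - x i else 0) * (∑ i, if i ∈ S then 0 else x i) = sy S x * σ := rfl
      rw [this, h3]
      field_simp
    have hmem : ∑ p, w p • z p ∈ poly (TF S) := by
      apply (convex_poly (TF S)).sum_mem
      · intro p _
        apply div_nonneg _ (by positivity)
        exact mul_nonneg (hy0 p.1 (Finset.mem_univ _)) (hz0 p.2 (Finset.mem_univ _))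
      · exact hwsum
      · intro p _
        simp only [hz]
        split_ifs with h
        · exact ind_mem_poly (swap_mem_TF S p.1 p.2 h.1 h.2)
        · exact ind_mem_poly (S_mem_TF S)
    have hx : x = (1 - σ) • ind S + σ • ∑ p, w p • z p := by
      ext i
      simp only [Pi.add_apply, Pi.smul_apply, smul_eq_mul, Finset.sum_apply]
      by_cases hi : i ∈ S
      · have hterm : ∀ p : Fin n × Fin n, w p * z p i = w p - (if p.1 = i then w p else 0) := by
          rintro ⟨s, d⟩
          simp only [hz]
          by_cases hs : s ∈ S
          · by_cases hd : d ∈ S
            · have : w (s, d) = 0 := by simp [hw, hd]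
              simp [this]
            · have hid : i ≠ d := fun h => hd (h ▸ hi)
              by_cases his : s = i
              · subst his
                simp [hs, hd, ind, hid]
              · have his' : i ≠ s := fun h => his h.symm
                simp [hs, hd, ind, hi, his, his']
          · have : w (s, d) = 0 := by simp [hw, hs]
            simp [this]
        simp_rw [hterm]
        rw [Finset.sum_sub_distrib, hwsum]
        have h5 : ∑ p : Fin n × Fin n, (if p.1 = i then w p else 0) = (1 - x i) / σ := by
          rw [Fintype.sum_prod_type]
          rw [Finset.sum_eq_single i]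
          · simp only [if_true, hw, hi]
            rw [← Finset.sum_div, ← Finset.mul_sum]
            have : (∑ i, if i ∈ S then 0 else x i) = σ := rfl
            rw [this]
            field_simp
          · intro s _ hs
            simp [hs]
          · intro h; exact absurd (Finset.mem_univ i) h
        rw [h5]
        have : ind S i = 1 := by simp [ind, hi]
        rw [this]
        field_simp
        ring
      · have hterm : ∀ p : Fin n × Fin n, w p * z p i = (if p.2 = i then w p else 0) := by
          rintro ⟨s, d⟩
          simp only [hz]
          by_cases hs : s ∈ S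
          · have hise : i ∉ S.erase s := fun h => hi (Finset.mem_of_mem_erase h)
            by_cases hd : d ∈ S
            · have : w (s, d) = 0 := by simp [hw, hd]
              simp [this]
            · by_cases hid : d = i
              · subst hid
                simp [hs, hd, ind]
              · have hid' : i ≠ d := fun h => hid h.symm
                simp [hs, hd, ind, hi, hid, hid']
          · have : w (s, d) = 0 := by simp [hw, hs]
            simp [this]
        simp_rw [hterm]
        have h5 : ∑ p : Fin n × Fin n, (if p.2 = i then w p else 0) = x i / σ := by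
          rw [Fintype.sum_prod_type_right]
          rw [Finset.sum_eq_single i]
          · simp only [if_true, hw, hi, if_false]
            rw [← Finset.sum_div, ← Finset.sum_mul]
            have : (∑ i, if i ∈ S then 1 - x i else 0) = σ := h3
            rw [this]
            field_simp
          · intro s _ hs
            simp [hs]
          · intro h; exact absurd (Finset.mem_univ i) h
        rw [h5]
        have : ind S i = 0 := by simp [ind, hi]
        rw [this]
        field_simp
        ring
    rw [hx]
    exact convex_poly _ (ind_mem_poly (S_mem_TF S)) hmem (by linarith) hσ.le (by ring)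

lemma poly_TF (S : Finset (Fin n)) : poly (TF S) = HS S :=
  Subset.antisymm (poly_TF_subset S) (HS_subset_poly S)

/-- trace of `S` on the complement of `e` -/
def pre (e : Fin (m+1)) (S : Finset (Fin (m+1))) : Finset (Fin m) :=
  Finset.univ.filter (fun i => e.succAbove i ∈ S)

lemma mem_pre (e : Fin (m+1)) (S : Finset (Fin (m+1))) (i : Fin m) : i ∈ pre e S ↔ e.succAbove i ∈ S := by
  simp [pre]

lemma card_pre_of_mem (e : Fin (m+1)) (S : Finset (Fin (m+1))) (he : e ∈ S) :
    (pre e S).card + 1 = S.card := by
  have : S = insert e (up e (pre e S)) := by
    ext i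
    rcases Fin.eq_self_or_eq_succAbove e i with rfl | ⟨j, rfl⟩
    · simp [he]
    · simp [succAbove_mem_up, mem_pre]
  conv_rhs => rw [this]
  rw [Finset.card_insert_of_notMem (notMem_up e _), card_up]

lemma card_pre_of_notMem (e : Fin (m+1)) (S : Finset (Fin (m+1))) (he : e ∉ S) :
    (pre e S).card = S.card := by
  have : S = up e (pre e S) := by
    ext i
    rcases Fin.eq_self_or_eq_succAbove e i with rfl | ⟨j, rfl⟩
    · simp [he, notMem_up]
    · simp [succAbove_mem_up, mem_pre]
  conv_rhs => rw [this]
  rw [card_up]

lemma sy_split (e : Fin (m+1)) (S : Finset (Fin (m+1))) (x : Fin (m+1) → ℝ) :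
    sy S x = (if e ∈ S then 1 - x e else 0) + sy (pre e S) (fun i => x (e.succAbove i)) := by
  unfold sy
  rw [Fin.sum_univ_succAbove _ e]
  simp only [mem_pre]

lemma sz_split (e : Fin (m+1)) (S : Finset (Fin (m+1))) (x : Fin (m+1) → ℝ) :
    sz S x = (if e ∈ S then 0 else x e) + sz (pre e S) (fun i => x (e.succAbove i)) := by
  unfold sz
  rw [Fin.sum_univ_succAbove _ e]
  simp only [mem_pre]

/-- faces -/
lemma face_HS (e : Fin (m+1)) (S : Finset (Fin (m+1))) (x : Fin (m+1) → ℝ) (hx : x ∈ HS S)
    (he : x e = if e ∈ S then 1 else 0) : (fun i => x (e.succAbove i)) ∈ HS (pre e S) := by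
  obtain ⟨h1, h2, h3, h4⟩ := hx
  have hy := sy_split e S x
  have hz := sz_split e S x
  have ey : (if e ∈ S then 1 - x e else 0) = 0 := by
    rw [he]; split_ifs <;> simp
  have ez : (if e ∈ S then 0 else x e) = 0 := by
    rw [he]; split_ifs <;> simp
  rw [ey, zero_add] at hy
  rw [ez, zero_add] at hz
  refine ⟨fun i hi => h1 _ ((mem_pre e S i).1 hi), fun i hi => h2 _ (fun h => hi ((mem_pre e S i).2 h)), ?_, ?_⟩
  · rw [← hy, ← hz, h3]
  · rw [← hz]; exact h4

lemma eq_insertNth (e : Fin (m+1)) (x : Fin (m+1) → ℝ) :
    x = e.insertNth (x e) (fun i => x (e.succAbove i)) := by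
  ext i
  rcases Fin.eq_self_or_eq_succAbove e i with rfl | ⟨j, rfl⟩
  · simp
  · simp

lemma V_singleton (x : Fin (m+2) → ℝ) : V (m+1) {x} = 0 := by
  unfold V
  rw [image_singleton]
  exact measure_singleton _

lemma V_TF_trivial (S : Finset (Fin (m+2))) (h : ∀ B ∈ TF S, B = S) : V (m+1) (poly (TF S)) = 0 := by
  have : poly (TF S) = {ind S} := by
    unfold poly
    have : ind '' (TF S) = {ind S} := by
      ext x
      constructor
      · rintro ⟨B, hB, rfl⟩
        rw [h B hB]; rfl
      · intro hx
        rw [mem_singleton_iff] at hx
        exact ⟨S, S_mem_TF S, hx.symm⟩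
    rw [this, convexHull_singleton]
  rw [this, V_singleton]

/-- upper bound value -/
def ub (m k : ℕ) : ℕ := if k = 0 then 0 else m.choose (k - 1)

lemma V_TF_zero (S : Finset (Fin (m+2))) (h : S.card = 0) : V (m+1) (poly (TF S)) = 0 := by
  apply V_TF_trivial
  intro B hB
  have h1 := hB.1
  rw [h] at h1
  rw [Finset.card_eq_zero.1 h1, Finset.card_eq_zero.1 h]

lemma V_TF_full (S : Finset (Fin (m+2))) (h : S.card = m + 2) : V (m+1) (poly (TF S)) = 0 := by
  apply V_TF_trivial
  intro B hB
  have h1 := hB.1
  rw [h] at h1
  have h2 : B = Finset.univ := by rw [← Finset.card_eq_iff_eq_univ, Fintype.card_fin]; exact h1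
  have h3 : S = Finset.univ := by rw [← Finset.card_eq_iff_eq_univ, Fintype.card_fin]; exact h
  rw [h2, h3]

lemma V_two_le (F : Set (Finset (Fin 2))) : V 1 (poly F) ≤ 1 := by
  have h2 : volume (Icc (0 : Fin 1 → ℝ) 1) = 1 := by
    rw [Real.volume_Icc_pi]; simp
  rw [← h2]
  apply measure_mono
  rintro _ ⟨x, hx, rfl⟩
  exact ⟨fun i => (poly_01 x hx _).1, fun i => (poly_01 x hx _).2⟩

lemma V_TF_le : ∀ (m : ℕ) (S : Finset (Fin (m+2))),
    ((m+1).factorial : ENNReal) * V (m+1) (poly (TF S)) ≤ (ub m S.card : ENNReal) := by
  intro m
  induction m with
  | zero =>
    intro S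
    have hc : S.card ≤ 2 := by simpa using Finset.card_le_univ S
    rcases Nat.lt_or_ge S.card 1 with h0 | h0
    · rw [V_TF_zero S (by omega)]; simp
    · rcases Nat.lt_or_ge S.card 2 with h1 | h1
      · have : S.card = 1 := by omega
        rw [this]
        simpa [ub] using V_two_le (TF S)
      · rw [V_TF_full S (by omega)]; simp
  | succ m ih =>
    intro S
    have hc : S.card ≤ m + 3 := by simpa using Finset.card_le_univ S
    rcases Nat.lt_or_ge S.card 1 with h0 | h0
    · rw [V_TF_zero S (by omega)]; simp
    · rcases Nat.lt_or_ge S.card (m+3) with h1 | h1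
      · obtain ⟨s0, hs0⟩ := Finset.card_pos.1 h0
        obtain ⟨d0, hd0⟩ : ∃ d, d ∉ S := by
          by_contra hcon
          push Not at hcon
          have : S = Finset.univ := by ext x; simp [hcon x]
          rw [this] at h1
          simp at h1
        set c : Fin (m+3) → ℝ := ind (insert d0 (S.erase s0)) with hcd
        have hcmem := swap_mem_TF S s0 d0 hs0 hd0
        have hsd : s0 ≠ d0 := fun h => hd0 (h ▸ hs0)
        have hcs0 : c s0 = 0 := by simp [hcd, ind, hsd]
        have hcd0 : c d0 = 1 := by simp [hcd, ind]
        have hcP : c ∈ HS S := by rw [← poly_TF]; exact ind_mem_poly hcmem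
        have hcsz : sz S c = 1 := by
          have a1 := hcP.2.2.2
          have a2 : c d0 ≤ sz S c := by
            have := Finset.single_le_sum (f := fun i => if i ∈ S then 0 else c i)
              (fun i _ => by
                show 0 ≤ (if i ∈ S then 0 else c i)
                split_ifs with h
                · exact le_refl 0
                · exact hcP.2.1 i h) (Finset.mem_univ d0)
            simp only [hd0, if_false] at this
            exact this
          linarith
        have hcsy : sy S c = 1 := by rw [hcP.2.2.1, hcsz]
        have hcov := pyramid_cover (m+1) (poly (TF S)) (S.card) c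
          (by rw [hcd, sum_ind, hcmem.1]) {s0, d0} (fun e => if e ∈ S then 1 else 0)
          (fun e he => by
            simp only [Finset.mem_insert, Finset.mem_singleton] at he
            rcases he with rfl | rfl
            · simp [hs0, hcs0]
            · simp [hd0, hcd0])
          (fun e => poly (TF (pre e S)))
          (fun e _ => isCompact_poly _)
          (fun e he y hy => by
            rw [poly_sum (fun B hB => hB.1) y hy]
            by_cases hes : e ∈ S
            · simp only [hes, if_true]
              have := card_pre_of_mem e S hes
              rw [← this]; push_cast; ring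
            · simp only [hes, if_false, zero_add]
              rw [card_pre_of_notMem e S hes])
          (by
            intro x hx
            rw [poly_TF] at hx
            -- values of the two distances
            have hxs : x s0 ≤ 1 := hx.1 s0 hs0
            have hxd : 0 ≤ x d0 := hx.2.1 d0 hd0
            have hyn : ∀ i ∈ (Finset.univ : Finset (Fin (m+3))), 0 ≤ (if i ∈ S then 1 - x i else 0) := by
              intro i _
              split_ifs with h
              · linarith [hx.1 i h]
              · exact le_refl 0
            have hzn : ∀ i ∈ (Finset.univ : Finset (Fin (m+3))), 0 ≤ (if i ∈ S then 0 else x i) := by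
              intro i _
              split_ifs with h
              · exact le_refl 0
              · exact hx.2.1 i h
            have hys : 1 - x s0 ≤ sy S x := by
              have := Finset.single_le_sum hyn (Finset.mem_univ s0)
              simp only [hs0, if_true] at this
              exact this
            have hzs : x d0 ≤ sz S x := by
              have := Finset.single_le_sum hzn (Finset.mem_univ d0)
              simp only [hd0, if_false] at this
              exact this
            have hx3 := hx.2.2.1
            have hx4 := hx.2.2.2
            set t : ℝ := max (x s0) (1 - x d0) with ht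
            have ht0 : 0 ≤ t := le_trans (by linarith) (le_max_left _ _)
            have ht1 : t ≤ 1 := max_le hxs (by linarith)
            rcases eq_or_lt_of_le ht0 with h0t | h0t
            · -- x = c
              have e1 : x s0 = 0 := by
                have a1 := le_max_left (x s0) (1 - x d0)
                rw [← ht, ← h0t] at a1
                linarith
              have e2 : x d0 = 1 := by
                have a1 := le_max_right (x s0) (1 - x d0)
                rw [← ht, ← h0t] at a1
                linarith
              have hxc : x = c := by
                -- all other coordinates agree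
                have hy1 : ∑ i ∈ Finset.univ.erase s0, (if i ∈ S then 1 - x i else 0) = 0 := by
                  have := Finset.add_sum_erase Finset.univ (fun i => if i ∈ S then 1 - x i else 0) (Finset.mem_univ s0)
                  simp only [hs0, if_true, e1] at this
                  have h' : (∑ i, if i ∈ S then 1 - x i else 0) = sy S x := rfl
                  rw [h'] at this
                  have hnn := Finset.sum_nonneg (fun i (hi : i ∈ Finset.univ.erase s0) => hyn i (Finset.mem_univ i))
                  linarith
                have hz1 : ∑ i ∈ Finset.univ.erase d0, (if i ∈ S then 0 else x i) = 0 := by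
                  have := Finset.add_sum_erase Finset.univ (fun i => if i ∈ S then 0 else x i) (Finset.mem_univ d0)
                  simp only [hd0, if_false, e2] at this
                  have h' : (∑ i, if i ∈ S then 0 else x i) = sz S x := rfl
                  rw [h'] at this
                  have hnn := Finset.sum_nonneg (fun i (hi : i ∈ Finset.univ.erase d0) => hzn i (Finset.mem_univ i))
                  linarith
                have hyi := (Finset.sum_eq_zero_iff_of_nonneg (fun i (hi : i ∈ Finset.univ.erase s0) => hyn i (Finset.mem_univ i))).1 hy1
                have hzi := (Finset.sum_eq_zero_iff_of_nonneg (fun i (hi : i ∈ Finset.univ.erase d0) => hzn i (Finset.mem_univ i))).1 hz1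
                ext i
                by_cases his : i = s0
                · rw [his, e1, hcs0]
                · by_cases hid : i = d0
                  · rw [hid, e2, hcd0]
                  · have a1 := hyi i (Finset.mem_erase.2 ⟨his, Finset.mem_univ i⟩)
                    have a2 := hzi i (Finset.mem_erase.2 ⟨hid, Finset.mem_univ i⟩)
                    by_cases hi : i ∈ S
                    · simp only [hi, if_true] at a1
                      have : c i = 1 := by simp [hcd, ind, hi, his, hid]
                      rw [this]; linarith
                    · simp only [hi, if_false] at a2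
                      have : c i = 0 := by simp [hcd, ind, hi, hid]
                      rw [this]; exact a2
              refine ⟨d0, by simp, 0, ⟨le_refl 0, zero_le_one⟩, ind (pre d0 S), ind_mem_poly (S_mem_TF _), ?_⟩
              rw [hxc]; simp
            · -- the scaled point
              set x' : Fin (m+3) → ℝ := (1 - 1 / t) • c + (1 / t) • x with hx'
              have hx'S : x' ∈ HS S := by
                refine ⟨?_, ?_, ?_, ?_⟩
                · intro i hi
                  simp only [hx', Pi.add_apply, Pi.smul_apply, smul_eq_mul]
                  by_cases his : i = s0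
                  · rw [his, hcs0, mul_zero, zero_add, one_div, inv_mul_le_iff₀ h0t, mul_one]
                    exact le_max_left _ _
                  · have hid : i ≠ d0 := fun h => hd0 (h ▸ hi)
                    have : c i = 1 := by simp [hcd, ind, hi, his, hid]
                    rw [this]
                    have := mul_nonneg (one_div_nonneg.2 ht0) (sub_nonneg.2 (hx.1 i hi))
                    linarith
                · intro i hi
                  simp only [hx', Pi.add_apply, Pi.smul_apply, smul_eq_mul]
                  by_cases hid : i = d0
                  · rw [hid, hcd0]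
                    have h5 : 1 - x d0 ≤ t := le_max_right _ _
                    have h6 : (1 / t) * (1 - x d0) ≤ 1 := by
                      rw [one_div, inv_mul_le_iff₀ h0t, mul_one]; exact h5
                    linarith
                  · have his : i ≠ s0 := fun h => hi (h ▸ hs0)
                    have : c i = 0 := by simp [hcd, ind, hi, hid]
                    rw [this]
                    have := mul_nonneg (one_div_nonneg.2 ht0) (hx.2.1 i hi)
                    linarith
                · rw [hx', sy_combo S _ _ _ _ (by ring), sz_combo, hcsy, hcsz, hx3]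
                · rw [hx', sz_combo, hcsz]
                  have := mul_nonneg (one_div_nonneg.2 ht0) (sub_nonneg.2 hx4)
                  linarith
              have hxx : x = (1 - t) • c + t • x' := by
                ext i
                simp only [hx', Pi.add_apply, Pi.smul_apply, smul_eq_mul]
                field_simp
                ring
              rcases max_choice (x s0) (1 - x d0) with hm | hm
              · have hts : t = x s0 := hm
                have hval : x' s0 = 1 := by
                  simp only [hx', Pi.add_apply, Pi.smul_apply, smul_eq_mul]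
                  rw [hcs0, ← hts]; field_simp; ring
                refine ⟨s0, by simp, t, ⟨ht0, ht1⟩, fun i => x' (s0.succAbove i), ?_, ?_⟩
                · show _ ∈ poly (TF (pre s0 S))
                  rw [poly_TF]
                  exact face_HS s0 S x' hx'S (by rw [hval]; simp [hs0])
                · have := eq_insertNth s0 x'
                  rw [hval] at this
                  simp only [hs0, if_true]
                  rw [← this]; exact hxx
              · have hts : t = 1 - x d0 := hm
                have hval : x' d0 = 0 := by
                  simp only [hx', Pi.add_apply, Pi.smul_apply, smul_eq_mul]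
                  rw [hcd0]
                  have : x d0 = 1 - t := by linarith
                  rw [this]; field_simp; ring
                refine ⟨d0, by simp, t, ⟨ht0, ht1⟩, fun i => x' (d0.succAbove i), ?_, ?_⟩
                · show _ ∈ poly (TF (pre d0 S))
                  rw [poly_TF]
                  exact face_HS d0 S x' hx'S (by rw [hval]; simp [hd0])
                · have := eq_insertNth d0 x'
                  rw [hval] at this
                  simp only [hd0, if_false]
                  rw [← this]; exact hxx)
        rw [Finset.sum_pair hsd] at hcov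
        have i1 := ih (pre s0 S)
        have i2 := ih (pre d0 S)
        have c1 := card_pre_of_mem s0 S hs0
        have c2 := card_pre_of_notMem d0 S hd0
        have hf : ((m+1+1).factorial : ENNReal) = ((m+1).factorial : ENNReal) * ((m + 1 + 1 : ℕ) : ENNReal) := by
          rw [Nat.factorial_succ (m+1)]; push_cast; ring
        calc ((m+1+1).factorial : ENNReal) * V (m+2) (poly (TF S))
            = ((m+1).factorial : ENNReal) * (V (m+2) (poly (TF S)) * ((m + 1 + 1 : ℕ) : ENNReal)) := by
              rw [hf]; ring
          _ ≤ ((m+1).factorial : ENNReal) * (V (m+1) (poly (TF (pre s0 S))) + V (m+1) (poly (TF (pre d0 S)))) := by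
              gcongr
          _ = ((m+1).factorial : ENNReal) * V (m+1) (poly (TF (pre s0 S)))
                + ((m+1).factorial : ENNReal) * V (m+1) (poly (TF (pre d0 S))) := by rw [mul_add]
          _ ≤ (ub m (pre s0 S).card : ENNReal) + (ub m (pre d0 S).card : ENNReal) := add_le_add i1 i2
          _ = ((ub m (pre s0 S).card + ub m (pre d0 S).card : ℕ) : ENNReal) := by push_cast; rfl
          _ = (ub (m+1) S.card : ENNReal) := by
              congr 1
              rw [c2, ← c1]
              unfold ub
              rcases Nat.eq_zero_or_pos (pre s0 S).card with hz | hz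
              · simp [hz]
              · have hne : (pre s0 S).card ≠ 0 := by omega
                simp only [hne, if_false, Nat.add_eq_zero_iff, one_ne_zero, and_false]
                obtain ⟨j, hj⟩ : ∃ j, (pre s0 S).card = j + 1 := ⟨(pre s0 S).card - 1, by omega⟩
                rw [hj]
                simp only [Nat.add_sub_cancel]
                exact (Nat.choose_succ_succ m j).symm
      · rw [V_TF_full S (by omega)]; simp

end Pool.Agent.helper2.BV
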