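import Mathlib
import Pool.Agent.helper2.BVMain
import Pool.Agent.helper2.BVUpper
open MeasureTheory Set

namespace Pool.Agent.helper2.BV

variable {n m : ℕ}

/-- The cube slice `∑ x = 1` or `2` in three coordinates is a simplex. -/
lemma slice_three (j : ℕ) (hj : j = 1 ∨ j = 2) (y : Fin 3 → ℝ) (h01 : ∀ i, 0 ≤ y i ∧ y i ≤ 1)
    (hs : ∑ i, y i = j) (S : Finset (Fin 3)) (hS : S.card = j) : y ∈ poly (TF S) := by
  rw [poly_TF]
  have hdiff : sz S y - sy S y = 0 := by
    unfold sy sz
    rw [← Finset.sum_sub_distrib]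
    have : ∀ i ∈ (Finset.univ : Finset (Fin 3)), ((if i ∈ S then 0 else y i) - (if i ∈ S then 1 - y i else 0))
        = y i - (if i ∈ S then 1 else 0) := by
      intro i _
      split_ifs <;> ring
    rw [Finset.sum_congr rfl this, Finset.sum_sub_distrib, hs, Finset.sum_ite_mem, Finset.univ_inter,
      Finset.sum_const, hS]
    simp
  refine ⟨fun i _ => (h01 i).2, fun i _ => (h01 i).1, by linarith, ?_⟩
  rcases hj with rfl | rfl
  · -- sz ≤ ∑ y = 1
    have : sz S y ≤ ∑ i, y i := by
      unfold sz
      apply Finset.sum_le_sum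
      intro i _
      split_ifs
      · exact (h01 i).1
      · exact le_refl _
    rw [hs] at this
    simpa using this
  · -- only one element outside S
    have h1 : (Sᶜ).card = 1 := by
      have := Finset.card_add_card_compl S
      rw [Fintype.card_fin] at this
      omega
    obtain ⟨d, hd⟩ := Finset.card_eq_one.1 h1
    have hmem : ∀ i, i ∉ S ↔ i = d := by
      intro i
      rw [← Finset.mem_compl, hd, Finset.mem_singleton]
    have : sz S y = y d := by
      unfold sz
      rw [Finset.sum_eq_single d]
      · have : d ∉ S := (hmem d).2 rfl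
        simp [this]
      · intro b _ hb
        have : b ∈ S := by
          by_contra hcon
          exact hb ((hmem b).1 hcon)
        simp [this]
      · intro h; exact absurd (Finset.mem_univ d) h
    rw [this]
    exact (h01 d).2

lemma V_three_le (j : ℕ) (hj : j = 1 ∨ j = 2) (S : Finset (Fin 3)) (hS : S.card = j) :
    ((2).factorial : ENNReal) * V 2 (poly (TF S)) ≤ 1 := by
  have := V_TF_le 1 S
  rw [hS] at this
  rcases hj with rfl | rfl
  · simpa [ub] using this
  · simpa [ub] using this

lemma V_U24_le : ((3).factorial : ENNReal) * V 3 (poly {B : Finset (Fin 4) | B.card = 2}) ≤ 4 := by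
  set F : Set (Finset (Fin 4)) := {B : Finset (Fin 4) | B.card = 2} with hF
  set c : Fin 4 → ℝ := ind {0, 1} with hc
  have hcF : ({0, 1} : Finset (Fin 4)) ∈ F := by rw [hF]; decide
  have hc01 : ∀ i, c i = 0 ∨ c i = 1 := by
    intro i
    by_cases h : i ∈ ({0, 1} : Finset (Fin 4)) <;> simp [hc, ind, h]
  -- the bases used in the faces
  set Sf : Fin 4 → Finset (Fin 3) := fun e => if e ∈ ({0, 1} : Finset (Fin 4)) then {0, 1} else {0} with hSf
  have hSc : ∀ e, ((Sf e).card : ℝ) = 1 + c e := by
    intro e
    by_cases h : e ∈ ({0, 1} : Finset (Fin 4))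
    · simp only [hSf, hc, ind, h, if_true]; norm_num
    · simp only [hSf, hc, ind, h, if_false]; norm_num
  have hSc' : ∀ e, (Sf e).card = 1 ∨ (Sf e).card = 2 := by
    intro e
    by_cases h : e ∈ ({0, 1} : Finset (Fin 4))
    · right; simp only [hSf, h, if_true]; decide
    · left; simp only [hSf, h, if_false]; decide
  have hcov := pyramid_cover 2 (poly F) 2 c
    (by rw [hc, sum_ind]; norm_num) Finset.univ (fun e => 1 - c e)
    (fun e _ => by
      rcases hc01 e with h | h <;> rw [h] <;> norm_num)
    (fun e => poly (TF (Sf e)))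
    (fun e _ => isCompact_poly _)
    (fun e _ y hy => by
      rw [poly_sum (fun B hB => hB.1) y hy, hSc e]; ring)
    (by
      intro x hx
      have hxs : ∑ i, x i = ((2 : ℕ) : ℝ) := poly_sum (fun B hB => hB) x hx
      have hx01 := poly_01 x hx
      set g : Fin 4 → ℝ := fun e => c e + (1 - 2 * c e) * x e with hg
      have hg0 : ∀ e, 0 ≤ g e := by
        intro e
        rcases hc01 e with h | h
        · simp only [hg, h]; linarith [(hx01 e).1]
        · simp only [hg, h]; linarith [(hx01 e).2]
      have hg1 : ∀ e, g e ≤ 1 := by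
        intro e
        rcases hc01 e with h | h
        · simp only [hg, h]; linarith [(hx01 e).2]
        · simp only [hg, h]; linarith [(hx01 e).1]
      obtain ⟨e, _, he⟩ := Finset.exists_max_image (Finset.univ : Finset (Fin 4)) g ⟨0, Finset.mem_univ _⟩
      set t : ℝ := g e with ht
      have ht0 : 0 ≤ t := hg0 e
      rcases eq_or_lt_of_le ht0 with h0 | h0
      · have hxc : x = c := by
          ext i
          have a1 := he i (Finset.mem_univ i)
          have a2 := hg0 i
          have a3 : g i = 0 := by linarith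
          rcases hc01 i with h | h
          · simp only [hg, h] at a3; rw [h]; linarith
          · simp only [hg, h] at a3; rw [h]; linarith
        refine ⟨e, Finset.mem_univ _, 0, ⟨le_refl 0, zero_le_one⟩, ind (Sf e), ind_mem_poly (S_mem_TF _), ?_⟩
        rw [hxc]; simp
      · set x' : Fin 4 → ℝ := (1 - 1 / t) • c + (1 / t) • x with hx'
        have hval : ∀ i, (c i = 0 → x' i = g i / t) ∧ (c i = 1 → x' i = 1 - g i / t) := by
          intro i
          constructor
          · intro h
            simp only [hx', Pi.add_apply, Pi.smul_apply, smul_eq_mul, hg, h]; ring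
          · intro h
            simp only [hx', Pi.add_apply, Pi.smul_apply, smul_eq_mul, hg, h]; field_simp; ring
        have hgt : ∀ i, 0 ≤ g i / t ∧ g i / t ≤ 1 := by
          intro i
          exact ⟨div_nonneg (hg0 i) ht0, (div_le_one h0).2 (he i (Finset.mem_univ i))⟩
        have hx'01 : ∀ i, 0 ≤ x' i ∧ x' i ≤ 1 := by
          intro i
          rcases hc01 i with h | h
          · rw [(hval i).1 h]; exact hgt i
          · rw [(hval i).2 h]
            constructor <;> linarith [(hgt i).1, (hgt i).2]
        have hxe : x' e = 1 - c e := by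
          have : g e / t = 1 := by rw [← ht]; exact div_self h0.ne'
          rcases hc01 e with h | h
          · rw [(hval e).1 h, this, h]; ring
          · rw [(hval e).2 h, this, h]
        have hsum : ∑ i, x' i = 2 := by
          simp only [hx', Pi.add_apply, Pi.smul_apply, smul_eq_mul, Finset.sum_add_distrib, ← Finset.mul_sum, hxs]
          have : ∑ i, c i = 2 := by rw [hc, sum_ind]; norm_num
          rw [this]; push_cast; ring
        refine ⟨e, Finset.mem_univ _, t, ⟨ht0, hg1 e⟩, fun i => x' (e.succAbove i), ?_, ?_⟩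
        · apply slice_three _ (hSc' e) _ (fun i => hx'01 _) _ _ rfl
          rw [hSc e]
          rw [Fin.sum_univ_succAbove _ e, hxe] at hsum
          linarith
        · have h1 := eq_insertNth e x'
          rw [hxe] at h1
          rw [← h1]
          ext i
          simp only [hx', Pi.add_apply, Pi.smul_apply, smul_eq_mul]
          field_simp
          ring)
  have h1 : ∀ e : Fin 4, ((2).factorial : ENNReal) * V 2 (poly (TF (Sf e))) ≤ 1 :=
    fun e => V_three_le _ (hSc' e) _ rfl
  calc ((3).factorial : ENNReal) * V 3 (poly F)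
      = ((2).factorial : ENNReal) * (V 3 (poly F) * ((2 + 1 : ℕ) : ENNReal)) := by
        rw [Nat.factorial_succ 2]; push_cast; ring
    _ ≤ ((2).factorial : ENNReal) * (∑ e ∈ (Finset.univ : Finset (Fin 4)), V 2 (poly (TF (Sf e)))) := by
        gcongr
    _ = ∑ e : Fin 4, ((2).factorial : ENNReal) * V 2 (poly (TF (Sf e))) := by rw [Finset.mul_sum]
    _ ≤ ∑ e : Fin 4, 1 := Finset.sum_le_sum (fun e _ => h1 e)
    _ = 4 := by simp

namespace RM

lemma Vol_le_of {M : RM (m+2)} (N : ℕ) (h : ((m+1).factorial : ENNReal) * V (m+1) (poly M.bases) ≤ (N : ENNReal)) :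
    M.Vol ≤ N := by
  have h1 := ENNReal.toReal_mono (by simp) h
  rw [ENNReal.toReal_mul, ENNReal.toReal_natCast, ENNReal.toReal_natCast] at h1
  exact h1

lemma Vol_isT {M : RM (m+2)} (h : M.Conn) (hT : M.IsT) : M.Vol ≤ (m.choose (M.k.toNat - 1) : ℕ) := by
  obtain ⟨D, hD, hB⟩ := hT
  have hk := h.k_pos
  have hc : (Dᶜ.card : ℤ) = M.k := by
    have := Finset.card_add_card_compl D
    rw [Fintype.card_fin] at this
    have h' : (D.card : ℤ) + Dᶜ.card = m + 2 := by exact_mod_cast this
    push_cast at hD
    linarith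
  have hbases : M.bases = TF Dᶜ := by
    ext B
    rw [hB B]
    unfold TF
    rw [Set.mem_ofPred_eq]
    have : B \ Dᶜ = B ∩ D := by ext x; simp
    rw [this]
    constructor
    · rintro ⟨h1, h2⟩
      refine ⟨?_, h2⟩
      have : (B.card : ℤ) = Dᶜ.card := by rw [h1, hc]
      exact_mod_cast this
    · rintro ⟨h1, h2⟩
      exact ⟨by rw [h1, hc], h2⟩
  have h1 := V_TF_le m Dᶜ
  rw [← hbases] at h1
  have h2 := Vol_le_of _ h1
  have h3 : Dᶜ.card = M.k.toNat := by omega
  rw [h3] at h2
  unfold ub at h2
  have h4 : M.k.toNat ≠ 0 := by omega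
  rw [if_neg h4] at h2
  exact h2

lemma beta_U24 (M : RM 4) (hk : M.k = 2) (hB : ∀ B, B ∈ M.bases ↔ B.card = 2) : M.beta = 2 := by
  -- rank function is min (card) 2
  have hr : ∀ A : Finset (Fin 4), M.r A = min (A.card : ℤ) 2 := by
    intro A
    by_cases hA : A.card ≤ 2
    · obtain ⟨Y, hAY, hY⟩ := Finset.exists_superset_card_eq hA (by simp)
      have h1 := M.indep_subset ((hB Y).2 hY).1 hAY
      rw [h1]
      have : (A.card : ℤ) ≤ 2 := by exact_mod_cast hA
      rw [min_eq_left this]
    · push Not at hA
      obtain ⟨Y, hYA, hY⟩ := Finset.exists_subset_card_eq hA.le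
      have h1 := M.r_mono Y A hYA
      have h2 := (hB Y).2 hY
      rw [h2.2, hk] at h1
      have h3 := M.r_le_k A
      rw [hk] at h3
      have : (2:ℤ) ≤ A.card := by exact_mod_cast hA.le
      rw [min_eq_right this]
      linarith
  unfold beta S
  simp_rw [hr]
  rw [hk]
  decide

theorem final (M : RM (m+2)) (h : M.Conn) :
    (M.beta:ℝ) * (m.choose (M.k.toNat - 1) : ℝ) ≤ M.Vol ∧
    ((M.beta:ℝ) * (m.choose (M.k.toNat - 1) : ℝ) = M.Vol ↔ (M.IsT ∨ M.IsU24)) := by
  refine ⟨main_ineq m M, eq_imp M h, ?_⟩
  rintro (hT | hU)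
  · apply le_antisymm (main_ineq m M)
    refine (Vol_isT h hT).trans ?_
    have h1 : (1:ℝ) ≤ M.beta := by exact_mod_cast Conn.beta_pos m M h
    have h2 : (0:ℝ) ≤ (m.choose (M.k.toNat - 1) : ℝ) := by positivity
    nlinarith
  · obtain ⟨hn, hB⟩ := hU
    have hm : m = 2 := by omega
    subst hm
    apply le_antisymm (main_ineq 2 M)
    have hk : M.k = 2 := by
      obtain ⟨B, hBb⟩ := M.exists_base
      have h1 := (hB B).1 hBb
      rw [← hBb.2, hBb.1, h1]; norm_num
    have hbases : M.bases = {B : Finset (Fin 4) | B.card = 2} := by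
      ext B; rw [hB B]; rfl
    have h1 : ((2+1).factorial : ENNReal) * V (2+1) (poly M.bases) ≤ ((4 : ℕ) : ENNReal) := by
      rw [hbases]; exact V_U24_le
    have h2 := Vol_le_of 4 h1
    rw [beta_U24 M hk hB, hk]
    have : ((2:ℤ).toNat - 1) = 1 := by decide
    rw [this]
    norm_num at h2 ⊢
    linarith

end RM

end Pool.Agent.helper2.BV
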